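import Pool.Agent.R277.SP.Main2

/-!
# Perturbations of operators with a continuous resolvent through the spectrum: abstract part

`E` and `F` are Banach spaces, `i : E → F` is injective, `N` acts on both, and `M z : E → F` is continuous
in `z ∈ U` and inverts `z - N`.
-/

set_option autoImplicit false

namespace Pool.Agent.N226.FM

open MeasureTheory Set Metric Filter Topology
open scoped ENNReal NNReal ContDiff
open Pool.Agent.Y271.RO (db ht)
open Pool.Agent.R277.SP (hPOM exists_bump Ch)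

variable {E F : Type} [NormedAddCommGroup E] [NormedSpace ℂ E]
  [NormedAddCommGroup F] [NormedSpace ℂ F]

/-- `M z` is a continuous resolvent of `N` on `U` -/
structure Sys (i : E →L[ℂ] F) (NE : E →L[ℂ] E) (NF : F →L[ℂ] F) (M : ℂ → (E →L[ℂ] F))
    (U : Set ℂ) : Prop where
  opn : IsOpen U
  inj : ∀ x, i x = 0 → x = 0
  inter : ∀ x, i (NE x) = NF (i x)
  cont : ContinuousOn M U
  res : ∀ z ∈ U, ∀ x, z • M z x - NF (M z x) = i x

/-- integrated vectors are in `E`, with a bound of exponent `κ` -/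
def IntgK (κ : ℝ) (i : E →L[ℂ] F) (M : ℂ → (E →L[ℂ] F)) (B : Set ℂ) (l : Measure ℂ) : Prop :=
  ∃ C : ℝ, 0 ≤ C ∧ ∀ (y : ℂ → E) (b : ℝ), StronglyMeasurable y → (∀ z, ‖y z‖ ≤ b) →
    (∀ z, z ∉ B → y z = 0) →
    ∃ Y : E, i Y = ∫ z, M z (y z) ∂l ∧ ‖Y‖ ^ κ ≤ C * ∫ z, ‖y z‖ ^ κ ∂l

/-- integrated vectors are in `E` -/
def Intg (i : E →L[ℂ] F) (M : ℂ → (E →L[ℂ] F)) (B : Set ℂ) (l : Measure ℂ) : Prop :=
  ∃ κ : ℝ, 1 < κ ∧ IntgK κ i M B l

/-- weak null sequences concentrated near `z₀` -/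
structure Wk (i : E →L[ℂ] F) (M : ℂ → (E →L[ℂ] F)) (U : Set ℂ) (z₀ : ℂ) (s : ℝ) (e : ℕ → E)
    (δ : ℝ) : Prop where
  pos : 0 < δ
  lo : ∀ n, δ ≤ ‖e n‖
  hi : ∀ n, ‖e n‖ ≤ 1
  weak : ∀ f : E →L[ℂ] ℂ, Tendsto (fun n => f (e n)) atTop (𝓝 0)
  pom : ∀ (χ : ℂ → ℂ) (R : ℝ), 0 < R → closedBall z₀ R ⊆ U → ContDiff ℝ ∞ χ →
    tsupport χ ⊆ ball z₀ R → (∀ z ∈ ball z₀ s, χ z = 1) →
    ∀ n, ∫ z, db χ z • M z (e n) = -(Real.pi : ℂ) • i (e n)

lemma meas_app {M : ℂ → (E →L[ℂ] F)} (h : Continuous M) {y : ℂ → E} (hy : StronglyMeasurable y) :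
    StronglyMeasurable (fun z => M z (y z)) :=
  isBoundedBilinearMap_apply.continuous.comp_stronglyMeasurable (h.stronglyMeasurable.prodMk hy)

/-- cut-off of functions which are continuous on `U` -/
lemma cut_cont {G : Type} [NormedAddCommGroup G] [NormedSpace ℂ G] {U : Set ℂ} (hU : IsOpen U)
    {M : ℂ → G} (hM : ContinuousOn M U) {χ : ℂ → ℂ} (hχ : Continuous χ) (hs : tsupport χ ⊆ U) :
    Continuous (fun z => χ z • M z) := by
  refine continuous_of_tsupport fun z hz => ?_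
  have hz' : z ∈ U := hs (tsupport_smul_subset_left _ _ hz)
  exact hχ.continuousAt.smul (hM.continuousAt (hU.mem_nhds hz'))

/-- existence of cut-off functions for closed balls in an open set -/
lemma exists_cut {U : Set ℂ} (hU : IsOpen U) {a : ℂ} {r : ℝ} (h : closedBall a r ⊆ U) (hr : 0 < r) :
    ∃ (χ : ℂ → ℂ), ContDiff ℝ ∞ χ ∧ (∀ z, ‖χ z‖ ≤ 1) ∧ (∀ z ∈ ball a r, χ z = 1) ∧
      HasCompactSupport χ ∧ tsupport χ ⊆ U := by
  obtain ⟨t, ht, hsub⟩ : ∃ t, r < t ∧ closedBall a t ⊆ U := by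
    obtain ⟨δ, hδ, h1⟩ := (isCompact_closedBall a r).exists_thickening_subset_open hU h
    refine ⟨r + δ / 2, by linarith, fun z hz => h1 ?_⟩
    rw [mem_closedBall] at hz
    rw [Metric.mem_thickening_iff]
    by_cases hzr : dist z a ≤ r
    · exact ⟨z, hzr, by rw [dist_self]; exact hδ⟩
    · push Not at hzr
      have hd : 0 < dist z a := hr.trans hzr
      refine ⟨a + (r / dist z a : ℝ) • (z - a), ?_, ?_⟩
      · rw [mem_closedBall, dist_eq_norm, add_sub_cancel_left, norm_smul, ← dist_eq_norm,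
          Real.norm_of_nonneg (by positivity), div_mul_cancel₀ _ hd.ne']
      · have e : z - (a + (r / dist z a : ℝ) • (z - a)) = (1 - r / dist z a : ℝ) • (z - a) := by
          rw [sub_smul, one_smul]; abel
        rw [dist_eq_norm, e, norm_smul, ← dist_eq_norm z a, Real.norm_of_nonneg, sub_mul, one_mul,
          div_mul_cancel₀ _ hd.ne']
        · linarith
        · rw [sub_nonneg, div_le_one hd]; exact hzr.le
  obtain ⟨χ, h1, h2, h3, h4⟩ := exists_bump a hr ht
  have h5 : tsupport χ ⊆ closedBall a t := by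
    intro z hz
    by_contra hz'
    rw [mem_closedBall, dist_eq_norm, not_le] at hz'
    exact h4 z hz'.le hz
  exact ⟨χ, h1, h2, h3, HasCompactSupport.of_support_subset_isCompact (isCompact_closedBall a t)
    (subset_tsupport _ |>.trans h5), h5.trans hsub⟩

/-- integrability of `M z (y z)` -/
lemma integ {U : Set ℂ} (hU : IsOpen U) {M : ℂ → (E →L[ℂ] F)} (hM : ContinuousOn M U) {a : ℂ} {r : ℝ}
    (hr : 0 < r) (h : closedBall a r ⊆ U) (l : Measure ℂ) [IsFiniteMeasureOnCompacts l] {y : ℂ → E} {b : ℝ}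
    (hy : StronglyMeasurable y) (hb : ∀ z, ‖y z‖ ≤ b) (h0 : ∀ z, z ∉ ball a r → y z = 0) :
    Integrable (fun z => M z (y z)) l := by
  obtain ⟨χ, c1, c2, c3, c4, c5⟩ := exists_cut hU h hr
  have hc := cut_cont hU hM c1.continuous c5
  have e : (fun z => M z (y z)) = fun z => (χ z • M z) (y z) := by
    funext z
    by_cases hz : z ∈ ball a r
    · rw [c3 z hz, one_smul]
    · rw [h0 z hz, map_zero, map_zero]
  obtain ⟨B, hB⟩ : ∃ B : ℝ, ∀ z ∈ closedBall a r, ‖χ z • M z‖ ≤ B :=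
    (isCompact_closedBall a r).exists_bound_of_continuousOn hc.continuousOn
  have hB0 : 0 ≤ B := (norm_nonneg _).trans (hB a (mem_closedBall_self hr.le))
  have hi : IntegrableOn (fun z => (χ z • M z) (y z)) (closedBall a r) l := by
    refine Measure.integrableOn_of_bounded (M := B * b)
      (isCompact_closedBall a r).measure_lt_top.ne (meas_app hc hy).aestronglyMeasurable ?_
    rw [ae_restrict_iff' measurableSet_closedBall]
    refine Eventually.of_forall fun z hz => ?_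
    exact ((χ z • M z).le_opNorm _).trans (mul_le_mul (hB z hz) (hb z) (norm_nonneg _) hB0)
  rw [e]
  rw [integrableOn_iff_integrable_of_support_subset] at hi
  · exact hi
  · intro z hz
    by_contra hz'
    apply hz
    show (χ z • M z) (y z) = 0
    rw [h0 z (fun h => hz' (ball_subset_closedBall h)), map_zero]

end Pool.Agent.N226.FM
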