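import Pool.Agent.R277.SP.Main2

/-!
# Compact operators: Schauder's theorem, weakly null sequences, finite rank corrections
-/

set_option autoImplicit false

namespace Pool.Agent.N226.FM

open Set Metric Filter Topology Module
open Pool.Agent.R277.SP (ad unit_of_ad)

section

variable {E F : Type} [NormedAddCommGroup E] [NormedSpace ℂ E]
  [NormedAddCommGroup F] [NormedSpace ℂ F]

/-- composition with `L` on the right -/
noncomputable def pre (L : E →L[ℂ] F) : (F →L[ℂ] ℂ) →L[ℂ] (E →L[ℂ] ℂ) :=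
  (ContinuousLinearMap.compL ℂ E F ℂ).flip L

lemma pre_apply (L : E →L[ℂ] F) (η : F →L[ℂ] ℂ) (x : E) : pre L η x = η (L x) := rfl

lemma pre_cont {M : ℂ → (E →L[ℂ] F)} {U : Set ℂ} (h : ContinuousOn M U) :
    ContinuousOn (fun z => pre (M z)) U :=
  (ContinuousLinearMap.compL ℂ E F ℂ).flip.continuous.comp_continuousOn h

/-- Schauder's theorem -/
theorem schauder {K : E →L[ℂ] F} (hK : IsCompactOperator K) : IsCompactOperator (pre K) := by
  have hcl := hK.isCompact_closure_image_closedBall 1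
  have htb : TotallyBounded (K '' closedBall 0 1) := hcl.totallyBounded.subset subset_closure
  have key : TotallyBounded ((pre K) '' closedBall 0 1) := by
    rw [Metric.totallyBounded_iff]
    intro ε hε
    obtain ⟨t₁, ht₁, hcov⟩ := Metric.totallyBounded_iff.1 htb (ε / 4) (by positivity)
    haveI : Fintype t₁ := ht₁.fintype
    set Φ : (F →L[ℂ] ℂ) → (t₁ → ℂ) := fun η y => η y.1 with hΦ
    obtain ⟨R, hR⟩ : ∃ R : ℝ, ∀ y : t₁, ‖y.1‖ ≤ R := by
      refine ⟨∑ y : t₁, ‖y.1‖, fun y => ?_⟩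
      exact Finset.single_le_sum (f := fun y : t₁ => ‖y.1‖) (fun _ _ => norm_nonneg _)
        (Finset.mem_univ y)
    have hΦb : TotallyBounded (Φ '' closedBall 0 1) := by
      refine (isCompact_closedBall (0 : t₁ → ℂ) (max R 0)).totallyBounded.subset ?_
      rintro _ ⟨η, hη, rfl⟩
      rw [mem_closedBall, dist_zero_right] at hη ⊢
      rw [pi_norm_le_iff_of_nonneg (le_max_right _ _)]
      intro y
      calc ‖η y.1‖ ≤ ‖η‖ * ‖y.1‖ := η.le_opNorm _
        _ ≤ 1 * R := mul_le_mul hη (hR y) (norm_nonneg _) zero_le_one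
        _ ≤ max R 0 := by rw [one_mul]; exact le_max_left _ _
    obtain ⟨t₂, ht₂s, ht₂, hcov₂⟩ := Metric.finite_approx_of_totallyBounded hΦb (ε / 4) (by positivity)
    set g : (t₁ → ℂ) → (F →L[ℂ] ℂ) := Function.invFunOn Φ (closedBall 0 1) with hg
    refine ⟨(fun v => pre K (g v)) '' t₂, ht₂.image _, ?_⟩
    rintro _ ⟨η, hη, rfl⟩
    obtain ⟨v, hv, hηv⟩ := mem_iUnion₂.1 (hcov₂ ⟨η, hη, rfl⟩)
    refine mem_iUnion₂.2 ⟨pre K (g v), ⟨v, hv, rfl⟩, ?_⟩
    have hgv : g v ∈ closedBall (0 : F →L[ℂ] ℂ) 1 := Function.invFunOn_mem (ht₂s hv)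
    have hgv2 : Φ (g v) = v := Function.invFunOn_eq (ht₂s hv)
    rw [mem_closedBall, dist_zero_right] at hη hgv
    have hle : ‖pre K η - pre K (g v)‖ ≤ 3 * (ε / 4) := by
      refine ContinuousLinearMap.opNorm_le_of_unit_norm (by positivity) fun x hx => ?_
      obtain ⟨y, hy, hxy⟩ := mem_iUnion₂.1 (hcov ⟨x, by rw [mem_closedBall, dist_zero_right, hx], rfl⟩)
      rw [mem_ball, dist_eq_norm] at hxy
      have e1 : (pre K η - pre K (g v)) x = η (K x - y) + (η y - g v y) + g v (y - K x) := by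
        show η (K x) - g v (K x) = _
        rw [map_sub, map_sub]
        ring
      have e2 : ‖η (K x - y)‖ ≤ ε / 4 := by
        calc ‖η (K x - y)‖ ≤ ‖η‖ * ‖K x - y‖ := η.le_opNorm _
          _ ≤ 1 * (ε / 4) := mul_le_mul hη hxy.le (norm_nonneg _) zero_le_one
          _ = ε / 4 := one_mul _
      have e3 : ‖g v (y - K x)‖ ≤ ε / 4 := by
        calc ‖g v (y - K x)‖ ≤ ‖g v‖ * ‖y - K x‖ := (g v).le_opNorm _
          _ ≤ 1 * (ε / 4) := by
            rw [norm_sub_rev]
            exact mul_le_mul hgv hxy.le (norm_nonneg _) zero_le_one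
          _ = ε / 4 := one_mul _
      have e4 : ‖η y - g v y‖ ≤ ε / 4 := by
        rw [mem_ball, dist_eq_norm, ← hgv2] at hηv
        have h5 := norm_le_pi_norm (Φ η - Φ (g v)) ⟨y, hy⟩
        exact h5.trans (le_of_lt (by rwa [← hgv2] at hηv ⊢))
      rw [e1]
      refine (norm_add_le _ _).trans ?_
      refine (add_le_add (norm_add_le _ _) le_rfl).trans ?_
      linarith
    rw [mem_ball, dist_eq_norm]
    linarith
  exact (isCompactOperator_iff_isCompact_closure_image_closedBall
    (pre K : (F →L[ℂ] ℂ) →ₗ[ℂ] (E →L[ℂ] ℂ)) one_pos).2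
    (key.closure.isCompact_of_isClosed isClosed_closure)

/-- compact operators map weakly null sequences to null sequences -/
lemma cpt_weak {K : F →L[ℂ] E} (hK : IsCompactOperator K) {e : ℕ → E} {b : ℝ} (hb : ∀ n, ‖e n‖ ≤ b)
    (hw : ∀ f : E →L[ℂ] ℂ, Tendsto (fun n => f (e n)) atTop (𝓝 0)) (L : E →L[ℂ] F) :
    Tendsto (fun n => K (L (e n))) atTop (𝓝 0) := by
  refine tendsto_of_subseq_tendsto fun ns hns => ?_
  have hcl := hK.isCompact_closure_image_closedBall (‖L‖ * b)
  have hmem : ∀ n, K (L (e (ns n))) ∈ closure (K '' closedBall 0 (‖L‖ * b)) := by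
    intro n
    refine subset_closure ⟨L (e (ns n)), ?_, rfl⟩
    rw [mem_closedBall, dist_zero_right]
    exact (L.le_opNorm _).trans (mul_le_mul_of_nonneg_left (hb _) (norm_nonneg _))
  obtain ⟨a, -, ψ, hψ, hlim⟩ := hcl.tendsto_subseq hmem
  refine ⟨ψ, ?_⟩
  have ha : a = 0 := by
    rw [SeparatingDual.eq_zero_iff_forall_dual_eq_zero (R := ℂ)]
    intro f
    have h1 : Tendsto (fun n => f (K (L (e (ns (ψ n)))))) atTop (𝓝 (f a)) :=
      (f.continuous.tendsto a).comp hlim
    have h2 : Tendsto (fun n => f (K (L (e (ns (ψ n)))))) atTop (𝓝 0) :=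
      (hw (f.comp (K.comp L))).comp (hns.comp hψ.tendsto_atTop)
    exact tendsto_nhds_unique h1 h2
  rw [← ha]
  exact hlim

end

section fin

variable {E : Type} [NormedAddCommGroup E] [NormedSpace ℂ E] [CompleteSpace E]

/-- Fredholm alternative, injective implies unit -/
lemma unit_of_inj {A : E →L[ℂ] E} (hA : IsCompactOperator A) (h : ∀ x, A x = x → x = 0) :
    IsUnit ((1 : E →L[ℂ] E) - A) := by
  rcases hA.hasEigenvalue_or_mem_resolventSet (μ := (1 : ℂ)) one_ne_zero with h1 | h1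
  · exfalso
    obtain ⟨x, hx⟩ := h1.exists_hasEigenvector
    have h2 := hx.apply_eq_smul
    rw [one_smul] at h2
    exact hx.2 (h x h2)
  · rw [spectrum.mem_resolventSet_iff, Algebra.algebraMap_eq_smul_one, one_smul] at h1
    exact h1

/-- surjective implies unit -/
lemma unit_of_surj {A : E →L[ℂ] E} (hA : IsCompactOperator A) (h : ∀ y, ∃ x, x - A x = y) :
    IsUnit ((1 : E →L[ℂ] E) - A) := by
  apply unit_of_ad
  have e : ad ((1 : E →L[ℂ] E) - A) = 1 - ad A := by
    ext f x
    show f (x - A x) = f x - f (A x)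
    rw [map_sub]
  rw [e]
  refine unit_of_inj (A := ad A) (schauder hA) fun η hη => ?_
  ext y
  obtain ⟨x, rfl⟩ := h y
  have h1 : η (A x) = η x := congrArg (fun f : E →L[ℂ] ℂ => f x) hη
  rw [map_sub, h1, sub_self]
  rfl

lemma finite_ker {A : E →L[ℂ] E} (hA : IsCompactOperator A) :
    FiniteDimensional ℂ (LinearMap.ker (((1 : E →L[ℂ] E) - A : E →L[ℂ] E) : E →ₗ[ℂ] E)) := by
  set V := LinearMap.ker (((1 : E →L[ℂ] E) - A : E →L[ℂ] E) : E →ₗ[ℂ] E) with hV
  have hmem : ∀ v ∈ V, A v = v := by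
    intro v hv
    have h1 : v - A v = 0 := hv
    exact (sub_eq_zero.1 h1).symm
  have hVA : ∀ v ∈ V, (A : E →ₗ[ℂ] E) v ∈ V := by
    intro v hv
    show A v ∈ V
    rw [hmem v hv]; exact hv
  have hclosed : IsClosed (V : Set E) := ContinuousLinearMap.isClosed_ker _
  have h1 := IsCompactOperator.restrict (f := (A : E →ₗ[ℂ] E)) hA hVA hclosed
  refine FiniteDimensional.of_isCompactOperator_id ?_
  have e : (id : V → V) = ⇑((A : E →ₗ[ℂ] E).restrict hVA) := by
    funext v
    exact Subtype.ext (hmem v.1 v.2).symm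
  rw [e]
  exact h1

/-- finite rank corrections -/
theorem exists_fin {A : E →L[ℂ] E} (hA : IsCompactOperator A) :
    ∃ (m : ℕ) (u : Fin m → E) (w : Fin m → (E →L[ℂ] ℂ)),
      IsUnit ((1 : E →L[ℂ] E) - A + ∑ j, (w j).smulRight (u j)) := by
  suffices H : ∀ (n : ℕ) (A : E →L[ℂ] E), IsCompactOperator A →
      finrank ℂ (LinearMap.ker (((1 : E →L[ℂ] E) - A : E →L[ℂ] E) : E →ₗ[ℂ] E)) = n →
      ∃ (m : ℕ) (u : Fin m → E) (w : Fin m → (E →L[ℂ] ℂ)),
        IsUnit ((1 : E →L[ℂ] E) - A + ∑ j, (w j).smulRight (u j)) from H _ A hA rfl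
  intro n
  induction n using Nat.strong_induction_on with
  | _ n ih =>
    intro A hA hn
    by_cases hinj : ∀ x, A x = x → x = 0
    · refine ⟨0, Fin.elim0, Fin.elim0, ?_⟩
      rw [Finset.univ_eq_empty, Finset.sum_empty, add_zero]
      exact unit_of_inj hA hinj
    · push Not at hinj
      obtain ⟨x₀, hx₀, hx0⟩ := hinj
      have hns : ¬ ∀ y, ∃ x, x - A x = y := by
        intro h
        obtain ⟨B, hB⟩ := unit_of_surj hA h
        have h2 : (B⁻¹ : (E →L[ℂ] E)ˣ).1 * B.1 = 1 := B.inv_mul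
        have h3 : (B⁻¹ : (E →L[ℂ] E)ˣ).1 (B.1 x₀) = x₀ := congrArg (fun L : E →L[ℂ] E => L x₀) h2
        apply hx0
        rw [← h3, hB]
        show (B⁻¹ : (E →L[ℂ] E)ˣ).1 (x₀ - A x₀) = 0
        rw [hx₀, sub_self, map_zero]
      push Not at hns
      obtain ⟨u, hu⟩ := hns
      obtain ⟨w, hw1, hw2⟩ := exists_dual_vector ℂ x₀ (norm_ne_zero_iff.2 hx0)
      have hwx : w x₀ ≠ 0 := by
        rw [hw2]
        simpa using hx0
      set A' : E →L[ℂ] E := A - w.smulRight u with hA'
      have hA'c : IsCompactOperator A' := by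
        have h1 : IsCompactOperator (w.smulRight u) := by
          have h2 : IsCompactOperator (ContinuousLinearMap.toSpanSingleton ℂ u) :=
            isCompactOperator_of_locallyCompactSpace_rng _
          exact h2.comp_clm w
        exact hA.sub h1
      have hker : ∀ x, A' x = x → A x = x ∧ w x = 0 := by
        intro x hx
        have h1 : A x - w x • u = x := hx
        have h2 : w x = 0 := by
          by_contra hne
          apply hu (-((w x)⁻¹ • x))
          have h3 : w x • u = A x - x := by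
            have h4 := h1
            rw [sub_eq_iff_eq_add] at h4
            rw [h4]
            abel
          rw [map_neg, map_smul, sub_neg_eq_add, neg_add_eq_sub, ← smul_sub, ← h3, smul_smul,
            inv_mul_cancel₀ hne, one_smul]
        refine ⟨?_, h2⟩
        rw [h2, zero_smul, sub_zero] at h1
        exact h1
      haveI := finite_ker hA
      have hlt : LinearMap.ker (((1 : E →L[ℂ] E) - A' : E →L[ℂ] E) : E →ₗ[ℂ] E) <
          LinearMap.ker (((1 : E →L[ℂ] E) - A : E →L[ℂ] E) : E →ₗ[ℂ] E) := by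
        refine lt_of_le_of_ne (fun x hx => ?_) (fun heq => ?_)
        · have h1 : x - A' x = 0 := hx
          show x - A x = 0
          rw [(hker x (sub_eq_zero.1 h1).symm).1, sub_self]
        · have h1 : x₀ ∈ LinearMap.ker (((1 : E →L[ℂ] E) - A : E →L[ℂ] E) : E →ₗ[ℂ] E) := by
            show x₀ - A x₀ = 0
            rw [hx₀, sub_self]
          rw [← heq] at h1
          have h2 : x₀ - A' x₀ = 0 := h1
          exact hwx (hker x₀ (sub_eq_zero.1 h2).symm).2
      have hfr := Submodule.finrank_lt_finrank_of_lt hlt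
      obtain ⟨m, u', w', hm⟩ := ih _ (hn ▸ hfr) A' hA'c rfl
      refine ⟨m + 1, Fin.cons u u', Fin.cons w w', ?_⟩
      rw [Fin.sum_univ_succ]
      simp only [Fin.cons_zero, Fin.cons_succ]
      have e : (1 : E →L[ℂ] E) - A + (w.smulRight u + ∑ j, (w' j).smulRight (u' j)) =
          1 - A' + ∑ j, (w' j).smulRight (u' j) := by
        rw [hA']
        abel
      rw [e]
      exact hm

end fin

end Pool.Agent.N226.FM
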