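import Pool.Agent.N226.FM.Abs
import Pool.Agent.N226.FM.Cpt

/-!
# Case I: `1 - K M z₀` is invertible
-/

set_option autoImplicit false

namespace Pool.Agent.N226.FM

open MeasureTheory Set Metric Filter Topology
open scoped ENNReal NNReal ContDiff
open Pool.Agent.Y271.RO (db ht)
open Pool.Agent.R277.SP (hPOM exists_bump Ch)

/-- the moments of `∂̄ χ` vanish -/
lemma moment {χ : ℂ → ℂ} (h1 : ContDiff ℝ 1 χ) (hc : HasCompactSupport χ) (a : ℂ) (k : ℕ) :
    ∫ z, db χ z * (z - a) ^ k = 0 := by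
  have hp : ContDiff ℝ 1 (fun z : ℂ => (z - a) ^ (k + 1)) := by fun_prop
  have h2 := hPOM.1 (fun z => χ z * (z - a) ^ (k + 1)) (h1.mul hp) (hc.mul_right) a
  rw [sub_self, zero_pow (Nat.succ_ne_zero k), mul_zero, mul_zero, neg_zero] at h2
  rw [← h2]
  unfold ht
  refine integral_congr_ae ?_
  have hne : ∀ᵐ z : ℂ, z ≠ a := by
    rw [ae_iff]
    simp
  filter_upwards [hne] with z hz
  have hz' : z - a ≠ 0 := sub_ne_zero.2 hz
  rw [hPOM.2.1 χ (fun z => (z - a) ^ (k + 1)) z (h1.differentiable one_ne_zero z)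
    (hp.differentiable one_ne_zero z)]
  have h3 : db (fun z : ℂ => (z - a) ^ (k + 1)) z = 0 := hPOM.2.2.1 _ z (by fun_prop)
  rw [h3, mul_zero, add_zero, pow_succ]
  field_simp

variable {E F : Type} [NormedAddCommGroup E] [NormedSpace ℂ E] [CompleteSpace E]
  [NormedAddCommGroup F] [NormedSpace ℂ F] [CompleteSpace F]

omit [CompleteSpace E] [CompleteSpace F] in
lemma db_tsupport (χ : ℂ → ℂ) : tsupport (db χ) ⊆ tsupport χ := by
  refine closure_minimal (fun z hz => ?_) (isClosed_tsupport χ)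
  by_contra h
  exact hz (hPOM.2.2.2.2.2.2 χ z h)

/-- case I -/
theorem caseI {i : E →L[ℂ] F} {NE : E →L[ℂ] E} {NF : F →L[ℂ] F} {M : ℂ → (E →L[ℂ] F)} {U : Set ℂ}
    (hS : Sys i NE NF M U) {K : F →L[ℂ] E} (hK : IsCompactOperator K) {z₀ : ℂ} (hz₀ : z₀ ∈ U)
    (hunit : IsUnit ((1 : E →L[ℂ] E) - K ∘L M z₀))
    (hW : ∀ s : ℝ, 0 < s → ∃ (e : ℕ → E) (δ : ℝ), Wk i M U z₀ s e δ)
    (hI : ∀ (a : ℂ) (r : ℝ), 0 < r → closedBall a r ⊆ U → Intg i M (ball a r) volume) {r : ℝ} (hr : 0 < r) :
    ∃ (ρ : ℝ) (X : ℕ → E), 0 < ρ ∧ ρ ≤ r ∧ Ch (NE + K ∘L i) z₀ ρ X ∧ X 0 ≠ 0 := by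
  have hA : ContinuousOn (fun z => (1 : E →L[ℂ] E) - K ∘L M z) U :=
    continuousOn_const.sub ((ContinuousLinearMap.compL ℂ E F E K).continuous.comp_continuousOn hS.cont)
  set W : Set ℂ := U ∩ (fun z => (1 : E →L[ℂ] E) - K ∘L M z) ⁻¹' {x | IsUnit x} with hWdef
  have hWo : IsOpen W := hA.isOpen_inter_preimage hS.opn Units.isOpen
  have hzW : z₀ ∈ W := ⟨hz₀, hunit⟩
  obtain ⟨ρ', hρ', hρW'⟩ := Metric.nhds_basis_closedBall.mem_iff.1 (hWo.mem_nhds hzW)
  set ρ : ℝ := min ρ' r with hρdef
  have hρ : 0 < ρ := lt_min hρ' hr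
  have hρr : ρ ≤ r := min_le_right _ _
  have hρW : closedBall z₀ ρ ⊆ W := (closedBall_subset_closedBall (min_le_left _ _)).trans hρW'
  have hρU : closedBall z₀ ρ ⊆ U := fun z hz => (hρW hz).1
  set G : ℂ → (E →L[ℂ] E) := fun z => Ring.inverse ((1 : E →L[ℂ] E) - K ∘L M z) with hG
  have hGc : ContinuousOn G W := by
    intro z hz
    have h1 : ContinuousAt (fun z => (1 : E →L[ℂ] E) - K ∘L M z) z :=
      hA.continuousAt (hS.opn.mem_nhds hz.1)
    obtain ⟨w, hw⟩ := hz.2
    have h2 : ContinuousAt Ring.inverse ((fun z => (1 : E →L[ℂ] E) - K ∘L M z) z) := by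
      show ContinuousAt Ring.inverse ((1 : E →L[ℂ] E) - K ∘L M z)
      rw [← show (w : E →L[ℂ] E) = (1 : E →L[ℂ] E) - K ∘L M z from hw]
      exact NormedRing.inverse_continuousAt w
    exact (ContinuousAt.comp (f := fun z => (1 : E →L[ℂ] E) - K ∘L M z) h2 h1).continuousWithinAt
  have hGe : ∀ z ∈ W, ∀ x, G z x - K (M z (G z x)) = x := by
    intro z hz x
    have h1 := Ring.mul_inverse_cancel _ hz.2
    exact congrArg (fun L : E →L[ℂ] E => L x) h1
  obtain ⟨χ, c1, c2, c3, c4⟩ := exists_bump z₀ (s := ρ / 4) (t := ρ / 2) (by positivity) (by linarith)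
  have c1' : ContDiff ℝ 1 χ := c1.of_le (by exact_mod_cast le_top)
  have hts : tsupport χ ⊆ ball z₀ ρ := by
    intro z hz
    rw [mem_ball, dist_eq_norm]
    by_contra h
    exact c4 z (by linarith [not_lt.1 h]) hz
  have hcs : HasCompactSupport χ := by
    refine HasCompactSupport.of_support_subset_isCompact (isCompact_closedBall z₀ ρ) ?_
    exact (subset_tsupport _).trans (hts.trans ball_subset_closedBall)
  have hgc : Continuous (db χ) := hPOM.2.2.2.2.1 χ c1'
  have hgcs : HasCompactSupport (db χ) := hcs.mono' ((subset_tsupport _).trans (db_tsupport χ))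
  obtain ⟨b, hb⟩ : ∃ b : ℝ, ∀ z, ‖db χ z‖ ≤ b := hgc.bounded_above_of_compact_support hgcs
  have hb0 : 0 ≤ b := (norm_nonneg _).trans (hb 0)
  have hg0 : ∀ z, z ∉ ball z₀ ρ → db χ z = 0 := fun z hz => by
    by_contra h
    exact hz (hts (db_tsupport χ (subset_tsupport _ h)))
  obtain ⟨e, δ, hw⟩ := hW (ρ / 4) (by positivity)
  obtain ⟨κ, hκ, C, hC0, hC⟩ := hI z₀ ρ hρ hρU
  have hκ0 : 0 < κ := by linarith
  obtain ⟨BG, hBG⟩ : ∃ B : ℝ, ∀ z ∈ closedBall z₀ ρ, ‖G z‖ ≤ B :=
    (isCompact_closedBall z₀ ρ).exists_bound_of_continuousOn (hGc.mono hρW)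
  have hBG0 : 0 ≤ BG := (norm_nonneg _).trans (hBG z₀ (mem_closedBall_self hρ.le))
  -- the functions
  set y : ℕ → ℕ → ℂ → E := fun n k z => (db χ z * (z - z₀) ^ k) • G z (e n) with hy
  have hyc : ∀ n k, Continuous (y n k) := by
    intro n k
    have h1 : ContinuousOn (fun z => G z (e n)) W := hGc.clm_apply continuousOn_const
    refine cut_cont hWo h1 (by fun_prop) ?_
    exact (tsupport_mul_subset_left).trans
      ((db_tsupport χ).trans (hts.trans (ball_subset_closedBall.trans hρW)))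
  have hyb : ∀ n k z, ‖y n k z‖ ≤ b * ρ ^ k * BG := by
    intro n k z
    by_cases hz : z ∈ ball z₀ ρ
    · rw [hy]
      simp only [norm_smul, norm_mul, norm_pow]
      have h1 : ‖z - z₀‖ ≤ ρ := by
        rw [mem_ball, dist_eq_norm] at hz; exact hz.le
      have h2 : ‖G z (e n)‖ ≤ BG := by
        calc ‖G z (e n)‖ ≤ ‖G z‖ * ‖e n‖ := (G z).le_opNorm _
          _ ≤ BG * 1 := mul_le_mul (hBG z (ball_subset_closedBall hz)) (hw.hi n) (norm_nonneg _) hBG0
          _ = BG := mul_one _
      exact mul_le_mul (mul_le_mul (hb z) (pow_le_pow_left₀ (norm_nonneg _) h1 k) (by positivity) hb0)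
        h2 (norm_nonneg _) (by positivity)
    · rw [hy]
      simp only [hg0 z hz, zero_mul, zero_smul, norm_zero]
      positivity
  have hy0 : ∀ n k z, z ∉ ball z₀ ρ → y n k z = 0 := by
    intro n k z hz
    rw [hy]
    simp only [hg0 z hz, zero_mul, zero_smul]
  clear_value y
  have hex : ∀ n k, ∃ Y : E, i Y = ∫ z, M z (y n k z) ∧
      ‖Y‖ ^ κ ≤ C * ∫ z, ‖y n k z‖ ^ κ :=
    fun n k => hC (y n k) _ (hyc n k).stronglyMeasurable (hyb n k) (hy0 n k)
  choose Y hY1 hY2 using hex
  have hint : ∀ n k, Integrable (fun z => M z (y n k z)) := fun n k =>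
    integ hS.opn hS.cont hρ hρU volume (hyc n k).stronglyMeasurable (hyb n k) (hy0 n k)
  -- the chain
  have hch : ∀ n, Ch (NE + K ∘L i) z₀ ρ (Y n) := by
    intro n
    refine ⟨fun k => ?_, ?_⟩
    · rw [← sub_eq_zero]
      apply hS.inj
      have e1 : i ((NE + K ∘L i) (Y n k) - z₀ • Y n k - Y n (k + 1)) =
          NF (i (Y n k)) + i (K (i (Y n k))) - z₀ • i (Y n k) - i (Y n (k + 1)) := by
        rw [map_sub, map_sub, add_apply, map_add, hS.inter, map_smul]
        rfl
      have hI1 : Integrable (fun z => NF (M z (y n k z))) := NF.integrable_comp (hint n k)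
      have hI2 : Integrable (fun z => i (K (M z (y n k z)))) := (i ∘L K).integrable_comp (hint n k)
      have hI3 : Integrable (fun z => z₀ • M z (y n k z)) := (hint n k).smul z₀
      have e2 : NF (i (Y n k)) = ∫ z, NF (M z (y n k z)) := by
        rw [hY1, NF.integral_comp_comm (hint n k)]
      have e3 : i (K (i (Y n k))) = ∫ z, i (K (M z (y n k z))) := by
        rw [hY1]
        exact ((i ∘L K).integral_comp_comm (hint n k)).symm
      have e4 : z₀ • i (Y n k) = ∫ z, z₀ • M z (y n k z) := by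
        rw [hY1, integral_smul]
      have e6 : (∫ z, (NF (M z (y n k z)) + i (K (M z (y n k z))) - z₀ • M z (y n k z) -
          M z (y n (k + 1) z))) = (∫ z, NF (M z (y n k z))) + (∫ z, i (K (M z (y n k z)))) -
          (∫ z, z₀ • M z (y n k z)) - ∫ z, M z (y n (k + 1) z) := by
        rw [integral_sub (f := fun z => NF (M z (y n k z)) + i (K (M z (y n k z))) -
            z₀ • M z (y n k z)) ((hI1.add hI2).sub hI3) (hint n (k + 1)),
          integral_sub (f := fun z => NF (M z (y n k z)) + i (K (M z (y n k z)))) (hI1.add hI2) hI3,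
          integral_add hI1 hI2]
      rw [e1, e2, e3, e4, hY1 n (k + 1), ← e6]
      have e5 : ∀ z, NF (M z (y n k z)) + i (K (M z (y n k z))) - z₀ • M z (y n k z) -
          M z (y n (k + 1) z) = -((db χ z * (z - z₀) ^ k) • i (e n)) := by
        intro z
        by_cases hz : z ∈ ball z₀ ρ
        · have hzW : z ∈ W := hρW (ball_subset_closedBall hz)
          have f1 := hS.res z hzW.1 (y n k z)
          have f2 : NF (M z (y n k z)) = z • M z (y n k z) - i (y n k z) := by
            rw [← f1]; abel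
          have f3 : y n (k + 1) z = (z - z₀) • y n k z := by
            rw [hy]
            simp only [smul_smul]
            congr 1
            ring
          have f4 : y n k z - K (M z (y n k z)) = (db χ z * (z - z₀) ^ k) • e n := by
            rw [hy]
            simp only [map_smul]
            rw [← smul_sub, hGe z hzW]
          have f5 : (db χ z * (z - z₀) ^ k) • i (e n) = i (y n k z) - i (K (M z (y n k z))) := by
            rw [← map_smul i, ← f4, map_sub]
          rw [f2, f3, map_smul (M z), f5, sub_smul]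
          abel
        · rw [hy0 n k z hz, hy0 n (k + 1) z hz, hg0 z hz]
          simp
      simp_rw [e5]
      rw [integral_neg, integral_smul_const, moment c1' hcs, zero_smul, neg_zero]
    · -- the bound
      have hV : (volume (ball z₀ ρ)).toReal = volume.real (ball z₀ ρ) := rfl
      set V : ℝ := volume.real (ball z₀ ρ) with hVdef
      have hV0 : 0 ≤ V := measureReal_nonneg
      refine ⟨(C * V) ^ (1 / κ) * (b * BG), fun k => ?_⟩
      have h1 : ∫ z, ‖y n k z‖ ^ κ ≤ V * (b * ρ ^ k * BG) ^ κ := by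
        have h2 : ∫ z, ‖y n k z‖ ^ κ = ∫ z in ball z₀ ρ, ‖y n k z‖ ^ κ := by
          rw [setIntegral_eq_integral_of_forall_compl_eq_zero]
          intro z hz
          rw [hy0 n k z hz, norm_zero, Real.zero_rpow hκ0.ne']
        rw [h2]
        have h3 : ‖∫ z in ball z₀ ρ, ‖y n k z‖ ^ κ‖ ≤ (b * ρ ^ k * BG) ^ κ * volume.real (ball z₀ ρ) := by
          refine norm_setIntegral_le_of_norm_le_const measure_ball_lt_top fun z _ => ?_
          rw [Real.norm_of_nonneg (by positivity)]
          exact Real.rpow_le_rpow (norm_nonneg _) (hyb n k z) hκ0.le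
        rw [mul_comm]
        exact (le_abs_self _).trans h3
      have h2 : ‖Y n k‖ ^ κ ≤ ((C * V) ^ (1 / κ) * (b * BG) * ρ ^ k) ^ κ := by
        refine (hY2 n k).trans ?_
        rw [Real.mul_rpow (by positivity) (by positivity), Real.mul_rpow (by positivity) (by positivity),
          ← Real.rpow_mul (by positivity), one_div, inv_mul_cancel₀ hκ0.ne', Real.rpow_one]
        calc C * ∫ z, ‖y n k z‖ ^ κ ≤ C * (V * (b * ρ ^ k * BG) ^ κ) := by gcongr
          _ = C * V * (b * BG) ^ κ * (ρ ^ k) ^ κ := by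
            rw [show b * ρ ^ k * BG = (b * BG) * ρ ^ k by ring,
              Real.mul_rpow (by positivity) (by positivity)]
            ring
      exact (Real.rpow_le_rpow_iff (norm_nonneg _) (by positivity) hκ0).1 h2
  -- not all are zero
  by_contra hcon
  push Not at hcon
  have hY0 : ∀ n, Y n 0 = 0 := fun n => hcon ρ (Y n) hρ hρr (hch n)
  set y' : ℕ → ℂ → E := fun n z => db χ z • K (M z (G z (e n))) with hy'
  have hy'c : ∀ n, Continuous (y' n) := by
    intro n
    have h1 : ContinuousOn (fun z => K (M z (G z (e n)))) W :=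
      K.continuous.comp_continuousOn ((hS.cont.mono inter_subset_left).clm_apply
        (hGc.clm_apply continuousOn_const))
    refine cut_cont hWo h1 hgc ?_
    exact (db_tsupport χ).trans (hts.trans (ball_subset_closedBall.trans hρW))
  obtain ⟨BM, hBM⟩ : ∃ B : ℝ, ∀ z ∈ closedBall z₀ ρ, ‖M z‖ ≤ B :=
    (isCompact_closedBall z₀ ρ).exists_bound_of_continuousOn (hS.cont.mono hρU)
  have hBM0 : 0 ≤ BM := (norm_nonneg _).trans (hBM z₀ (mem_closedBall_self hρ.le))
  have hy'b : ∀ n z, ‖y' n z‖ ≤ b * (‖K‖ * (BM * BG)) := by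
    intro n z
    by_cases hz : z ∈ ball z₀ ρ
    · rw [hy']
      simp only [norm_smul]
      have hz' := ball_subset_closedBall hz
      have h2 : ‖G z (e n)‖ ≤ BG := by
        calc ‖G z (e n)‖ ≤ ‖G z‖ * ‖e n‖ := (G z).le_opNorm _
          _ ≤ BG * 1 := mul_le_mul (hBG z hz') (hw.hi n) (norm_nonneg _) hBG0
          _ = BG := mul_one _
      have h3 : ‖M z (G z (e n))‖ ≤ BM * BG :=
        ((M z).le_opNorm _).trans (mul_le_mul (hBM z hz') h2 (norm_nonneg _) hBM0)
      have h4 : ‖K (M z (G z (e n)))‖ ≤ ‖K‖ * (BM * BG) :=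
        (K.le_opNorm _).trans (mul_le_mul_of_nonneg_left h3 (norm_nonneg _))
      exact mul_le_mul (hb z) h4 (norm_nonneg _) hb0
    · rw [hy']
      simp only [hg0 z hz, zero_smul, norm_zero]
      positivity
  have hy'0 : ∀ n z, z ∉ ball z₀ ρ → y' n z = 0 := by
    intro n z hz
    rw [hy']
    simp only [hg0 z hz, zero_smul]
  have hex' : ∀ n, ∃ J : E, i J = ∫ z, M z (y' n z) ∧ ‖J‖ ^ κ ≤ C * ∫ z, ‖y' n z‖ ^ κ :=
    fun n => hC (y' n) _ (hy'c n).stronglyMeasurable (hy'b n) (hy'0 n)
  choose J hJ1 hJ2 using hex'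
  have hJe : ∀ n, J n = (Real.pi : ℂ) • e n := by
    intro n
    rw [← sub_eq_zero]
    apply hS.inj
    have h0 : ∫ z, M z (y n 0 z) = 0 := by rw [← hY1, hY0, map_zero]
    have h1 : ∀ z, M z (y n 0 z) = db χ z • M z (e n) + M z (y' n z) := by
      intro z
      by_cases hz : z ∈ ball z₀ ρ
      · have hzW : z ∈ W := hρW (ball_subset_closedBall hz)
        have f1 : G z (e n) = e n + K (M z (G z (e n))) := by
          have := hGe z hzW (e n)
          rw [sub_eq_iff_eq_add] at this
          exact this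
        rw [hy, hy']
        simp only [pow_zero, mul_one, map_smul]
        conv_lhs => rw [f1]
        rw [map_add, smul_add]
      · rw [hy0 n 0 z hz, hy'0 n z hz, hg0 z hz]
        simp
    have hi2 : Integrable (fun z => M z (y' n z)) :=
      integ hS.opn hS.cont hρ hρU volume (hy'c n).stronglyMeasurable (hy'b n) (hy'0 n)
    have hi1 : Integrable (fun z => db χ z • M z (e n)) := by
      have := (hint n 0).sub hi2
      refine this.congr (Eventually.of_forall fun z => ?_)
      show M z (y n 0 z) - M z (y' n z) = _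
      rw [h1]; abel
    have h2 : ∫ z, M z (y n 0 z) = -(Real.pi : ℂ) • i (e n) + i (J n) := by
      simp_rw [h1]
      rw [integral_add hi1 hi2, ← hJ1,
        hw.pom χ ρ hρ hρU c1 hts c3 n]
    rw [h0] at h2
    rw [map_sub, map_smul]
    rw [neg_smul] at h2
    rw [eq_comm, neg_add_eq_sub] at h2
    exact h2
  have hlim : Tendsto (fun n => ∫ z, ‖y' n z‖ ^ κ) atTop (𝓝 0) := by
    have h0 : (0 : ℝ) = ∫ z : ℂ, (0 : ℝ) := by simp
    rw [h0]
    refine tendsto_integral_of_dominated_convergence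
      (fun z => (ball z₀ ρ).indicator (fun _ => (b * (‖K‖ * (BM * BG))) ^ κ) z) ?_ ?_ ?_ ?_
    · intro n
      exact ((hy'c n).norm.rpow_const (fun _ => Or.inr hκ0.le)).aestronglyMeasurable
    · rw [integrable_indicator_iff measurableSet_ball]
      exact integrableOn_const measure_ball_lt_top.ne
    · intro n
      refine Eventually.of_forall fun z => ?_
      rw [Real.norm_of_nonneg (by positivity)]
      by_cases hz : z ∈ ball z₀ ρ
      · rw [indicator_of_mem hz]
        exact Real.rpow_le_rpow (norm_nonneg _) (hy'b n z) hκ0.le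
      · rw [indicator_of_notMem hz, hy'0 n z hz, norm_zero, Real.zero_rpow hκ0.ne']
    · refine Eventually.of_forall fun z => ?_
      have h1 : Tendsto (fun n => y' n z) atTop (𝓝 0) := by
        have h2 := cpt_weak hK hw.hi hw.weak (M z ∘L G z)
        have h3 := h2.const_smul (db χ z)
        rw [smul_zero] at h3
        exact h3
      have h2 := (h1.norm).rpow_const (p := κ) (Or.inr hκ0.le)
      rw [norm_zero, Real.zero_rpow hκ0.ne'] at h2
      exact h2
  have hlim2 : Tendsto (fun n => C * ∫ z, ‖y' n z‖ ^ κ) atTop (𝓝 (C * 0)) := hlim.const_mul C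
  rw [mul_zero] at hlim2
  have hle : (Real.pi * δ) ^ κ ≤ 0 := by
    refine ge_of_tendsto' hlim2 fun n => ?_
    refine le_trans ?_ (hJ2 n)
    refine Real.rpow_le_rpow (mul_nonneg Real.pi_pos.le hw.pos.le) ?_ hκ0.le
    rw [hJe, norm_smul, Complex.norm_real, Real.norm_of_nonneg Real.pi_pos.le]
    exact mul_le_mul_of_nonneg_left (hw.lo n) Real.pi_pos.le
  have : 0 < (Real.pi * δ) ^ κ := Real.rpow_pos_of_pos (mul_pos Real.pi_pos hw.pos) _
  linarith

end Pool.Agent.N226.FM
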