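import Mathlib

/-!
# Measurable kernel projections of measurable matrix functions
-/

set_option autoImplicit false

namespace Pool.Agent.N226.FM

open Matrix Filter Topology MeasureTheory ComplexOrder

lemma meas_det {m : ℕ} {A : ℂ → Matrix (Fin m) (Fin m) ℂ} (hA : ∀ i j, Measurable fun z => A z i j) :
    Measurable fun z => (A z).det := by
  simp_rw [Matrix.det_apply]
  refine Finset.measurable_fun_sum _ fun σ _ => ?_
  refine Measurable.const_smul ?_ _
  exact Finset.measurable_fun_prod _ fun i _ => hA _ _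

lemma meas_adj {m : ℕ} {A : ℂ → Matrix (Fin m) (Fin m) ℂ} (hA : ∀ i j, Measurable fun z => A z i j)
    (i j : Fin m) : Measurable fun z => (A z).adjugate i j := by
  simp_rw [Matrix.adjugate_apply]
  refine meas_det fun k l => ?_
  simp_rw [Matrix.updateRow_apply]
  by_cases h : k = j
  · simp only [h, if_true]
    exact measurable_const
  · simp only [h, if_false]
    exact hA _ _

lemma meas_inv {m : ℕ} {A : ℂ → Matrix (Fin m) (Fin m) ℂ} (hA : ∀ i j, Measurable fun z => A z i j)
    (i j : Fin m) : Measurable fun z => (A z)⁻¹ i j := by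
  have h : ∀ z, (A z)⁻¹ i j = (A z).det⁻¹ * (A z).adjugate i j := by
    intro z
    rw [Matrix.inv_def, Matrix.smul_apply, smul_eq_mul, Ring.inverse_eq_inv']
  simp_rw [h]
  exact (meas_det hA).inv.mul (meas_adj hA i j)

lemma ker_one {m : ℕ} (A : Matrix (Fin m) (Fin m) ℂ) : ∃ P : Matrix (Fin m) (Fin m) ℂ,
    (∀ i j, Tendsto (fun n : ℕ => ((1 : Matrix (Fin m) (Fin m) ℂ) + (n : ℂ) • (Aᴴ * A))⁻¹ i j) atTop
      (𝓝 (P i j))) ∧ A * P = 0 ∧ (∀ i j, ‖P i j‖ ≤ m) ∧ (A.det = 0 → P ≠ 0) := by
  set hH := isHermitian_conjTranspose_mul_self A with hHdef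
  set V : Matrix (Fin m) (Fin m) ℂ := (hH.eigenvectorUnitary : Matrix (Fin m) (Fin m) ℂ) with hV
  set lam : Fin m → ℝ := hH.eigenvalues with hlam
  have hl0 : ∀ i, 0 ≤ lam i := fun i => eigenvalues_conjTranspose_mul_self_nonneg A i
  have hVV : star V * V = 1 := Unitary.coe_star_mul_self hH.eigenvectorUnitary
  have hVV' : V * star V = 1 := Unitary.coe_mul_star_self hH.eigenvectorUnitary
  have hspec : Aᴴ * A = V * diagonal (fun i => (lam i : ℂ)) * star V := by
    have h1 := hH.spectral_theorem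
    rw [Unitary.conjStarAlgAut_apply] at h1
    exact h1
  have ent : ∀ (d : Fin m → ℂ) (i j : Fin m),
      (V * diagonal d * star V) i j = ∑ k, V i k * d k * star (V j k) := by
    intro d i j
    rw [Matrix.mul_apply]
    refine Finset.sum_congr rfl fun k _ => ?_
    rw [Matrix.mul_diagonal, Matrix.star_apply]
  have hmul : ∀ d e : Fin m → ℂ, (V * diagonal d * star V) * (V * diagonal e * star V) =
      V * diagonal (fun i => d i * e i) * star V := by
    intro d e
    calc _ = V * diagonal d * (star V * V) * diagonal e * star V := by simp only [Matrix.mul_assoc]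
      _ = V * (diagonal d * diagonal e) * star V := by
        rw [hVV, Matrix.mul_one, Matrix.mul_assoc V]
      _ = _ := by rw [Matrix.diagonal_mul_diagonal]
  have hinv : ∀ n : ℕ, ((1 : Matrix (Fin m) (Fin m) ℂ) + (n : ℂ) • (Aᴴ * A))⁻¹ =
      V * diagonal (fun i => (1 + (n : ℂ) * (lam i : ℂ))⁻¹) * star V := by
    intro n
    have h1 : (1 : Matrix (Fin m) (Fin m) ℂ) + (n : ℂ) • (Aᴴ * A) =
        V * diagonal (fun i => (1 + (n : ℂ) * (lam i : ℂ))) * star V := by
      have h2 : diagonal (fun i => (1 + (n : ℂ) * (lam i : ℂ))) =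
          (1 : Matrix (Fin m) (Fin m) ℂ) + (n : ℂ) • diagonal (fun i => (lam i : ℂ)) := by
        ext i j
        by_cases h : i = j
        · subst h; simp
        · simp [Matrix.diagonal_apply_ne _ h, Matrix.one_apply_ne h]
      rw [h2, Matrix.mul_add, Matrix.add_mul, Matrix.mul_one, hVV', Matrix.mul_smul,
        Matrix.smul_mul, ← hspec]
    apply Matrix.inv_eq_right_inv
    rw [h1, hmul]
    have h3 : (fun i => (1 + (n : ℂ) * (lam i : ℂ)) * (1 + (n : ℂ) * (lam i : ℂ))⁻¹) =
        fun _ : Fin m => (1 : ℂ) := by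
      funext i
      refine mul_inv_cancel₀ ?_
      have : (1 : ℂ) + (n : ℂ) * (lam i : ℂ) = ((1 + n * lam i : ℝ) : ℂ) := by push_cast; ring
      rw [this]
      have h4 : 0 < 1 + n * lam i := by have := hl0 i; positivity
      exact_mod_cast h4.ne'
    rw [h3, Matrix.diagonal_one, Matrix.mul_one, hVV']
  refine ⟨V * diagonal (fun i => if lam i = 0 then (1 : ℂ) else 0) * star V, ?_, ?_, ?_, ?_⟩
  · intro i j
    simp_rw [hinv, ent]
    refine tendsto_finsetSum _ fun k _ => ?_
    refine Tendsto.mul_const _ (Tendsto.const_mul _ ?_)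
    by_cases h : lam k = 0
    · simp [h]
    · simp only [h, if_false]
      have hpos : 0 < lam k := lt_of_le_of_ne (hl0 k) (Ne.symm h)
      have h1 : Tendsto (fun n : ℕ => (1 + n * lam k : ℝ)⁻¹) atTop (𝓝 0) := by
        refine Tendsto.inv_tendsto_atTop ?_
        exact tendsto_atTop_add_const_left _ _ (tendsto_natCast_atTop_atTop.atTop_mul_const hpos)
      have h2 := (Complex.continuous_ofReal.tendsto 0).comp h1
      rw [Complex.ofReal_zero] at h2
      refine h2.congr fun n => ?_
      simp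
  · rw [← conjTranspose_mul_self_mul_eq_zero, hspec, hmul]
    have h1 : (fun i => (lam i : ℂ) * (if lam i = 0 then (1 : ℂ) else 0)) = fun _ => (0 : ℂ) := by
      funext i
      by_cases h : lam i = 0 <;> simp [h]
    rw [h1]
    simp
  · intro i j
    rw [ent]
    refine (norm_sum_le _ _).trans ?_
    have h1 : ∀ k ∈ (Finset.univ : Finset (Fin m)),
        ‖V i k * (if lam k = 0 then (1 : ℂ) else 0) * star (V j k)‖ ≤ 1 := by
      intro k _
      have hVu : V ∈ Matrix.unitaryGroup (Fin m) ℂ := hH.eigenvectorUnitary.2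
      have h2 := entry_norm_bound_of_unitary hVu i k
      have h3 := entry_norm_bound_of_unitary hVu j k
      rw [norm_mul, norm_mul, norm_star]
      have h4 : ‖(if lam k = 0 then (1 : ℂ) else 0)‖ ≤ 1 := by
        by_cases h : lam k = 0 <;> simp [h]
      calc ‖V i k‖ * ‖(if lam k = 0 then (1 : ℂ) else 0)‖ * ‖V j k‖ ≤ 1 * 1 * 1 := by gcongr
        _ = 1 := by ring
    refine (Finset.sum_le_sum h1).trans ?_
    simp
  · intro hdet h0
    have h1 : diagonal (fun i => if lam i = 0 then (1 : ℂ) else 0) = 0 := by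
      have h2 : star V * (V * diagonal (fun i => if lam i = 0 then (1 : ℂ) else 0) * star V) * V =
          diagonal (fun i => if lam i = 0 then (1 : ℂ) else 0) := by
        calc _ = (star V * V) * diagonal (fun i => if lam i = 0 then (1 : ℂ) else 0) * (star V * V) := by
              simp only [Matrix.mul_assoc]
          _ = _ := by rw [hVV, Matrix.one_mul, Matrix.mul_one]
      rw [← h2, h0]
      simp
    have h3 : ∀ i, lam i ≠ 0 := by
      intro i h
      have := congrFun (congrFun h1 i) i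
      simp [h] at this
    have h4 : (Aᴴ * A).det = ∏ i, (lam i : ℂ) := hH.det_eq_prod_eigenvalues
    rw [Matrix.det_mul, hdet, mul_zero] at h4
    have h5 : ∏ i, (lam i : ℂ) ≠ 0 := Finset.prod_ne_zero_iff.2 fun i _ => by exact_mod_cast h3 i
    exact h5 h4.symm

/-- measurable kernel projections -/
theorem ker_proj {m : ℕ} {A : ℂ → Matrix (Fin m) (Fin m) ℂ}
    (hA : ∀ i j, Measurable fun z => A z i j) :
    ∃ P : ℂ → Matrix (Fin m) (Fin m) ℂ, (∀ i j, Measurable fun z => P z i j) ∧
      (∀ z, A z * P z = 0) ∧ (∀ z i j, ‖P z i j‖ ≤ m) ∧ (∀ z, (A z).det = 0 → P z ≠ 0) := by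
  choose P h1 h2 h3 h4 using fun z => ker_one (A z)
  refine ⟨P, fun i j => ?_, h2, h3, h4⟩
  refine measurable_of_tendsto_metrizable (f := fun (n : ℕ) z =>
    ((1 : Matrix (Fin m) (Fin m) ℂ) + (n : ℂ) • ((A z)ᴴ * A z))⁻¹ i j) (fun n => ?_) ?_
  · refine meas_inv (fun k l => ?_) i j
    have h : ∀ z, ((1 : Matrix (Fin m) (Fin m) ℂ) + (n : ℂ) • ((A z)ᴴ * A z)) k l =
        (1 : Matrix (Fin m) (Fin m) ℂ) k l + (n : ℂ) * ∑ t, star (A z t k) * A z t l := by
      intro z
      rw [Matrix.add_apply, Matrix.smul_apply, smul_eq_mul, Matrix.mul_apply]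
      rfl
    simp_rw [h]
    refine measurable_const.add (measurable_const.mul ?_)
    refine Finset.measurable_fun_sum _ fun t _ => ?_
    exact (continuous_star.measurable.comp (hA t k)).mul (hA t l)
  · rw [tendsto_pi_nhds]
    intro z
    exact h1 z i j

end Pool.Agent.N226.FM
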