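import Pool.Agent.N226.FM.Abs
import Pool.Agent.N226.FM.Cpt
import Pool.Agent.N226.FM.Ker

/-!
# Case II: `1 - K M z` is not invertible for almost all `z`
-/

set_option autoImplicit false

namespace Pool.Agent.N226.FM

open MeasureTheory Set Metric Filter Topology
open scoped ENNReal NNReal ContDiff Matrix
open Pool.Agent.R277.SP (exists_bump Ch)

section wood

variable {E : Type} [NormedAddCommGroup E] [NormedSpace ℂ E]

/-- the matrix of a finite rank perturbation of the identity -/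
noncomputable def Fm {m : ℕ} (u : Fin m → E) (w : Fin m → (E →L[ℂ] ℂ)) : Matrix (Fin m) (Fin m) ℂ :=
  Matrix.of fun i j => (if i = j then (1 : ℂ) else 0) - w i (u j)

lemma Fm_mulVec {m : ℕ} (u : Fin m → E) (w : Fin m → (E →L[ℂ] ℂ)) (c : Fin m → ℂ) (i : Fin m) :
    (Fm u w *ᵥ c) i = c i - w i (∑ j, c j • u j) := by
  simp only [Matrix.mulVec, dotProduct, Fm, Matrix.of_apply, sub_mul, Finset.sum_sub_distrib, ite_mul,
    one_mul, zero_mul, Finset.sum_ite_eq, Finset.mem_univ, if_true, map_sum, map_smul, smul_eq_mul]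
  congr 1
  exact Finset.sum_congr rfl fun j _ => mul_comm _ _

lemma wood {m : ℕ} (u : Fin m → E) (w : Fin m → (E →L[ℂ] ℂ)) (h : (Fm u w).det ≠ 0) :
    IsUnit ((1 : E →L[ℂ] E) - ∑ j, (w j).smulRight (u j)) := by
  have hunit : IsUnit (Fm u w).det := isUnit_iff_ne_zero.2 h
  set V : (Fin m → ℂ) → E := fun c => ∑ j, c j • u j with hV
  set W : E → (Fin m → ℂ) := fun x j => w j x with hW
  have hVa : ∀ a b, V (a + b) = V a + V b := by
    intro a b; simp only [hV, Pi.add_apply, add_smul, Finset.sum_add_distrib]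
  have hVs : ∀ a b, V (a - b) = V a - V b := by
    intro a b; simp only [hV, Pi.sub_apply, sub_smul, Finset.sum_sub_distrib]
  have hWa : ∀ a b, W (a + b) = W a + W b := by
    intro a b; funext j; simp [hW]
  have hWs : ∀ a b, W (a - b) = W a - W b := by
    intro a b; funext j; simp [hW]
  have hWV : ∀ c, Fm u w *ᵥ c = c - W (V c) := by
    intro c; funext j; rw [Fm_mulVec]; rfl
  have hB : ∀ x, (∑ j, (w j).smulRight (u j)) x = V (W x) := by
    intro x; rw [sum_apply]; rfl
  have hG1 : ∀ c, (Fm u w)⁻¹ *ᵥ (Fm u w *ᵥ c) = c := by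
    intro c; rw [Matrix.mulVec_mulVec, Matrix.nonsing_inv_mul _ hunit, Matrix.one_mulVec]
  have hG2 : ∀ c, Fm u w *ᵥ ((Fm u w)⁻¹ *ᵥ c) = c := by
    intro c; rw [Matrix.mulVec_mulVec, Matrix.mul_nonsing_inv _ hunit, Matrix.one_mulVec]
  set R : E →L[ℂ] E := 1 + ∑ j, ∑ l, (Fm u w)⁻¹ j l • (w l).smulRight (u j) with hRdef
  have hR : ∀ x, R x = x + V ((Fm u w)⁻¹ *ᵥ W x) := by
    intro x
    rw [hRdef, add_apply, sum_apply]
    congr 1
    refine Finset.sum_congr rfl fun j _ => ?_
    rw [sum_apply, Matrix.mulVec, dotProduct, Finset.sum_smul]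
    refine Finset.sum_congr rfl fun l _ => ?_
    rw [mul_smul]
    rfl
  refine ⟨⟨1 - ∑ j, (w j).smulRight (u j), R, ?_, ?_⟩, rfl⟩
  · ext x
    show R x - (∑ j, (w j).smulRight (u j)) (R x) = x
    have h1 : W (R x) = (Fm u w)⁻¹ *ᵥ W x := by
      rw [hR, hWa]
      have := hWV ((Fm u w)⁻¹ *ᵥ W x)
      rw [hG2, eq_sub_iff_add_eq] at this
      exact this
    rw [hB, h1, hR]
    abel
  · ext x
    show R (x - (∑ j, (w j).smulRight (u j)) x) = x
    rw [hB, hR, hWs, ← hWV, hG1]
    abel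

end wood

variable {E F : Type} [NormedAddCommGroup E] [NormedSpace ℂ E] [CompleteSpace E]
  [NormedAddCommGroup F] [NormedSpace ℂ F] [CompleteSpace F]

/-- case II -/
theorem caseII {i : E →L[ℂ] F} {NE : E →L[ℂ] E} {NF : F →L[ℂ] F} {M : ℂ → (E →L[ℂ] F)} {U : Set ℂ}
    (hS : Sys i NE NF M U) {K : F →L[ℂ] E} (hK : IsCompactOperator K) {c : ℂ} {r' : ℝ} (hr' : 0 < r')
    (hcr' : closedBall c r' ⊆ U) (ν : Measure ℂ) [IsFiniteMeasure ν] (h0' : c ∈ ν.support)
    (hnu' : ∀ᵐ z ∂ν, z ∈ ball c r' → ¬ IsUnit ((1 : E →L[ℂ] E) - K ∘L M z))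
    (hI' : ∀ (a : ℂ) (r : ℝ), 0 < r → closedBall a r ⊆ U → Intg i M (ball a r) ν) :
    ∃ X : ℕ → E, Ch (NE + K ∘L i) c r' X ∧ X 0 ≠ 0 := by
  have hcU : c ∈ U := hcr' (mem_closedBall_self hr'.le)
  obtain ⟨m, u, v, hR₁⟩ := exists_fin (A := K ∘L M c) (hK.comp_clm (M c))
  set R₁ : E →L[ℂ] E := ∑ j, (v j).smulRight (u j) with hR₁def
  have hA : ContinuousOn (fun z => (1 : E →L[ℂ] E) - K ∘L M z + R₁) U :=
    (continuousOn_const.sub
      ((ContinuousLinearMap.compL ℂ E F E K).continuous.comp_continuousOn hS.cont)).add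
      continuousOn_const
  set W : Set ℂ := U ∩ (fun z => (1 : E →L[ℂ] E) - K ∘L M z + R₁) ⁻¹' {x | IsUnit x} with hWdef
  have hWo : IsOpen W := hA.isOpen_inter_preimage hS.opn Units.isOpen
  obtain ⟨r'', hr'', hrW''⟩ := Metric.nhds_basis_closedBall.mem_iff.1
    (hWo.mem_nhds (show c ∈ W from ⟨hcU, hR₁⟩))
  set r : ℝ := min r'' r' with hrdef
  have hr : 0 < r := lt_min hr'' hr'
  have hrr' : r ≤ r' := min_le_right _ _
  have hρW : closedBall c r ⊆ W := (closedBall_subset_closedBall (min_le_left _ _)).trans hrW''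
  have hcr : closedBall c r ⊆ U := fun z hz => (hρW hz).1
  have h0 : ν (ball c r) ≠ 0 :=
    (Measure.mem_support_iff_forall c |>.1 h0' _ (ball_mem_nhds c hr)).ne'
  have hnu : ∀ᵐ z ∂ν, z ∈ ball c r → ¬ IsUnit ((1 : E →L[ℂ] E) - K ∘L M z) := by
    filter_upwards [hnu'] with z hz hzb
    exact hz (ball_subset_ball hrr' hzb)
  suffices H : ∃ X : ℕ → E, Ch (NE + K ∘L i) c r X ∧ X 0 ≠ 0 by
    obtain ⟨X, ⟨h1, C, hC⟩, h2⟩ := H
    refine ⟨X, ⟨h1, C, fun k => (hC k).trans ?_⟩, h2⟩
    have hC0 : 0 ≤ C := by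
      have := (norm_nonneg _).trans (hC 0)
      simpa using this
    exact mul_le_mul_of_nonneg_left (pow_le_pow_left₀ hr.le hrr' k) hC0
  have hI := hI' c r hr hcr
  set Q : ℂ → (E →L[ℂ] E) := fun z => Ring.inverse ((1 : E →L[ℂ] E) - K ∘L M z + R₁) with hQ
  have hQc : ContinuousOn Q W := by
    intro z hz
    have h1 : ContinuousAt (fun z => (1 : E →L[ℂ] E) - K ∘L M z + R₁) z :=
      hA.continuousAt (hS.opn.mem_nhds hz.1)
    obtain ⟨w, hw⟩ := hz.2
    have h2 : ContinuousAt Ring.inverse ((fun z => (1 : E →L[ℂ] E) - K ∘L M z + R₁) z) := by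
      show ContinuousAt Ring.inverse ((1 : E →L[ℂ] E) - K ∘L M z + R₁)
      rw [← show (w : E →L[ℂ] E) = (1 : E →L[ℂ] E) - K ∘L M z + R₁ from hw]
      exact NormedRing.inverse_continuousAt w
    exact (ContinuousAt.comp (f := fun z => (1 : E →L[ℂ] E) - K ∘L M z + R₁) h2 h1).continuousWithinAt
  have hQe : ∀ z ∈ W, ∀ x, Q z x - K (M z (Q z x)) + R₁ (Q z x) = x := by
    intro z hz x
    have h1 := Ring.mul_inverse_cancel _ hz.2
    exact congrArg (fun L : E →L[ℂ] E => L x) h1
  have hQl : ∀ z ∈ W, ∀ x, Q z (x - K (M z x) + R₁ x) = x := by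
    intro z hz x
    have h1 := Ring.inverse_mul_cancel _ hz.2
    exact congrArg (fun L : E →L[ℂ] E => L x) h1
  obtain ⟨BQ, hBQ⟩ : ∃ B : ℝ, ∀ z ∈ closedBall c r, ‖Q z‖ ≤ B :=
    (isCompact_closedBall c r).exists_bound_of_continuousOn (hQc.mono hρW)
  have hBQ0 : 0 ≤ BQ := (norm_nonneg _).trans (hBQ c (mem_closedBall_self hr.le))
  have hbW : ball c r ⊆ W := ball_subset_closedBall.trans hρW
  have hR₁x : ∀ x, R₁ x = ∑ j, v j x • u j := by
    intro x
    rw [hR₁def, sum_apply]
    rfl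
  -- the matrix
  set A : ℂ → Matrix (Fin m) (Fin m) ℂ := fun z => Matrix.of fun i j =>
    (if i = j then (1 : ℂ) else 0) - (ball c r).indicator (fun z => v i (Q z (u j))) z with hAdef
  have hAm : ∀ i j, Measurable fun z => A z i j := by
    intro i j
    have h1 : ContinuousOn (fun z => v i (Q z (u j))) (ball c r) :=
      (v i).continuous.comp_continuousOn ((hQc.mono hbW).clm_apply continuousOn_const)
    have h2 : Measurable ((ball c r).indicator (fun z => v i (Q z (u j)))) := by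
      classical
      rw [← Set.piecewise_eq_indicator]
      exact h1.measurable_piecewise continuousOn_const measurableSet_ball
    exact measurable_const.sub h2
  have hAF : ∀ z ∈ ball c r, A z = Fm (fun j => Q z (u j)) v := by
    intro z hz
    ext i j
    simp only [hAdef, Fm, Matrix.of_apply, indicator_of_mem hz]
  have hdet : ∀ z ∈ ball c r, ¬ IsUnit ((1 : E →L[ℂ] E) - K ∘L M z) → (A z).det = 0 := by
    intro z hz hn
    by_contra hd
    apply hn
    rw [hAF z hz] at hd
    have h1 := wood _ _ hd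
    have h2 : IsUnit ((1 : E →L[ℂ] E) - K ∘L M z + R₁) := (hbW hz).2
    have h3 : (1 : E →L[ℂ] E) - K ∘L M z = ((1 : E →L[ℂ] E) - K ∘L M z + R₁) *
        ((1 : E →L[ℂ] E) - ∑ j, (v j).smulRight (Q z (u j))) := by
      ext x
      have e1 : (∑ j, (v j).smulRight (Q z (u j))) x = Q z (R₁ x) := by
        rw [sum_apply, hR₁x, map_sum]
        refine Finset.sum_congr rfl fun j _ => ?_
        rw [map_smul]
        rfl
      show x - K (M z x) = (x - (∑ j, (v j).smulRight (Q z (u j))) x) -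
        K (M z (x - (∑ j, (v j).smulRight (Q z (u j))) x)) +
        R₁ (x - (∑ j, (v j).smulRight (Q z (u j))) x)
      rw [e1]
      have e3 := hQe z (hbW hz) (R₁ x)
      simp only [map_sub]
      have e4 : x - K (M z x) = x - K (M z x) + R₁ x -
        (Q z (R₁ x) - K (M z (Q z (R₁ x))) + R₁ (Q z (R₁ x))) := by
        rw [e3]; abel
      rw [e4]
      abel
    rw [h3]
    exact h2.mul h1
  obtain ⟨P, hP1, hP2, hP3, hP4⟩ := ker_proj hAm
  -- choice of the entry
  obtain ⟨l, j, hlj⟩ : ∃ l j, ν {z | z ∈ ball c r ∧ P z l j ≠ 0} ≠ 0 := by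
    by_contra hcon
    push Not at hcon
    apply h0
    have h1 : ball c r ⊆ (⋃ l, ⋃ j, {z | z ∈ ball c r ∧ P z l j ≠ 0}) ∪
        {z | ¬ (z ∈ ball c r → ¬ IsUnit ((1 : E →L[ℂ] E) - K ∘L M z))} := by
      intro z hz
      by_cases hu : IsUnit ((1 : E →L[ℂ] E) - K ∘L M z)
      · right
        intro h
        exact h hz hu
      · left
        have h2 := hP4 z (hdet z hz hu)
        obtain ⟨l, hl⟩ := Function.ne_iff.1 h2
        obtain ⟨j, hj⟩ := Function.ne_iff.1 hl
        exact mem_iUnion.2 ⟨l, mem_iUnion.2 ⟨j, hz, hj⟩⟩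
    refine measure_mono_null h1 (measure_union_null ?_ hnu)
    exact measure_iUnion_null fun l => measure_iUnion_null fun j => hcon l j
  obtain ⟨χ, c1, c2, c3, c4, c5⟩ := exists_cut hWo hρW hr
  -- the vectors
  set y₀ : ℂ → E := fun z => (ball c r).indicator (fun z => Q z (∑ t, P z t j • u t)) z with hy₀
  have hy₀m : StronglyMeasurable y₀ := by
    have h1 : y₀ = (ball c r).indicator (fun z => ∑ t, P z t j • ((χ z • Q z) (u t))) := by
      rw [hy₀]
      refine Set.indicator_congr fun z hz => ?_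
      rw [map_sum]
      refine Finset.sum_congr rfl fun t _ => ?_
      rw [map_smul, c3 z hz, one_smul]
    rw [h1]
    refine StronglyMeasurable.indicator ?_ measurableSet_ball
    refine Finset.stronglyMeasurable_fun_sum _ fun t _ => ?_
    refine (hP1 t j).stronglyMeasurable.smul ?_
    exact ((cut_cont hWo hQc c1.continuous c5).clm_apply continuous_const).stronglyMeasurable
  set b : ℝ := BQ * ∑ t, m * ‖u t‖ with hb
  have hb0 : 0 ≤ b := by positivity
  have hy₀b : ∀ z, ‖y₀ z‖ ≤ b := by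
    intro z
    by_cases hz : z ∈ ball c r
    · rw [hy₀]
      simp only [indicator_of_mem hz]
      refine ((Q z).le_opNorm _).trans ?_
      refine mul_le_mul (hBQ z (ball_subset_closedBall hz)) ?_ (norm_nonneg _) hBQ0
      refine (norm_sum_le _ _).trans (Finset.sum_le_sum fun t _ => ?_)
      rw [norm_smul]
      exact mul_le_mul_of_nonneg_right (hP3 z t j) (norm_nonneg _)
    · rw [hy₀]
      simp only [indicator_of_notMem hz, norm_zero]
      exact hb0
  have hy₀0 : ∀ z, z ∉ ball c r → y₀ z = 0 := fun z hz => indicator_of_notMem hz _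
  have hv : ∀ z ∈ ball c r, ∀ t, v t (y₀ z) = P z t j := by
    intro z hz t
    have h1 : A z *ᵥ (fun s => P z s j) = 0 := by
      funext s
      have := congrFun (congrFun (hP2 z) s) j
      rw [Matrix.mul_apply] at this
      exact this
    rw [hAF z hz] at h1
    have h2 := congrFun h1 t
    rw [Fm_mulVec, Pi.zero_apply, sub_eq_zero] at h2
    rw [h2, hy₀]
    simp only [indicator_of_mem hz, map_sum, map_smul]
  have hKM : ∀ z, K (M z (y₀ z)) = y₀ z := by
    intro z
    by_cases hz : z ∈ ball c r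
    · have e3 := hQe z (hbW hz) (∑ t, P z t j • u t)
      have e4 : y₀ z = Q z (∑ t, P z t j • u t) := by
        rw [hy₀]; simp only [indicator_of_mem hz]
      rw [← e4, hR₁x] at e3
      simp_rw [hv z hz] at e3
      rw [sub_add_eq_add_sub, sub_eq_iff_eq_add] at e3
      have e5 : y₀ z = K (M z (y₀ z)) := by
        have e6 : (∑ t, P z t j • u t) + K (M z (y₀ z)) = (∑ t, P z t j • u t) + y₀ z := by
          rw [← e3]; abel
        exact (add_left_cancel e6).symm
      exact e5.symm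
    · rw [hy₀0 z hz, map_zero, map_zero]
  have hint0 : Integrable (fun z => M z (y₀ z)) ν :=
    integ hS.opn hS.cont hr hcr ν hy₀m hy₀b hy₀0
  -- choice of `g`
  obtain ⟨g, hg, hg0⟩ : ∃ g : Set ℂ, MeasurableSet g ∧ ∫ z in g, M z (y₀ z) ∂ν ≠ 0 := by
    by_contra hcon
    push Not at hcon
    have h1 : ∀ g : Set ℂ, MeasurableSet g → ∫ z in g, ((v l).comp K) (M z (y₀ z)) ∂ν = 0 := by
      intro g hg
      have h2 := hcon g hg
      rw [ContinuousLinearMap.integral_comp_comm ((v l).comp K) hint0.integrableOn, h2, map_zero]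
    have h3 : (fun z => ((v l).comp K) (M z (y₀ z))) =ᵐ[ν] 0 :=
      (((v l).comp K).integrable_comp hint0).ae_eq_zero_of_forall_setIntegral_eq_zero
        (fun g hg _ => h1 g hg)
    apply hlj
    rw [Filter.EventuallyEq, ae_iff] at h3
    refine measure_mono_null (fun z hz => ?_) h3
    show ¬ (v l (K (M z (y₀ z))) = 0)
    rw [hKM, hv z hz.1]
    exact hz.2
  obtain ⟨κ, hκ, C, hC0, hC⟩ := hI
  have hκ0 : 0 < κ := by linarith
  set y : ℕ → ℂ → E := fun k z => g.indicator (fun z => (z - c) ^ k • y₀ z) z with hy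
  have hym : ∀ k, StronglyMeasurable (y k) := by
    intro k
    refine StronglyMeasurable.indicator ?_ hg
    exact (Continuous.stronglyMeasurable (by fun_prop)).smul hy₀m
  have hyb : ∀ k z, ‖y k z‖ ≤ r ^ k * b := by
    intro k z
    by_cases hz : z ∈ g
    · rw [hy]
      simp only [indicator_of_mem hz, norm_smul, norm_pow]
      by_cases hz' : z ∈ ball c r
      · have h1 : ‖z - c‖ ≤ r := by
          rw [mem_ball, dist_eq_norm] at hz'; exact hz'.le
        exact mul_le_mul (pow_le_pow_left₀ (norm_nonneg _) h1 k) (hy₀b z) (norm_nonneg _) (by positivity)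
      · rw [hy₀0 z hz', norm_zero, mul_zero]
        positivity
    · rw [hy]
      simp only [indicator_of_notMem hz, norm_zero]
      positivity
  have hy0 : ∀ k z, z ∉ ball c r → y k z = 0 := by
    intro k z hz
    by_cases hz' : z ∈ g
    · rw [hy]
      simp only [indicator_of_mem hz', hy₀0 z hz, smul_zero]
    · rw [hy]
      simp only [indicator_of_notMem hz']
  have hyK : ∀ k z, K (M z (y k z)) = y k z := by
    intro k z
    by_cases hz' : z ∈ g
    · rw [hy]
      simp only [indicator_of_mem hz', map_smul, hKM]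
    · rw [hy]
      simp only [indicator_of_notMem hz', map_zero]
  have hy00 : ∫ z, M z (y 0 z) ∂ν = ∫ z in g, M z (y₀ z) ∂ν := by
    rw [← integral_indicator hg]
    refine integral_congr_ae (Eventually.of_forall fun z => ?_)
    by_cases hz' : z ∈ g
    · simp only [hy, indicator_of_mem hz', pow_zero, one_smul]
    · simp only [hy, indicator_of_notMem hz', map_zero]
  have hrec : ∀ k z, y (k + 1) z = (z - c) • y k z := by
    intro k z
    by_cases hz' : z ∈ g
    · rw [hy]
      simp only [indicator_of_mem hz', smul_smul, pow_succ']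
    · rw [hy]
      simp only [indicator_of_notMem hz', smul_zero]
  clear_value y
  have hex : ∀ k, ∃ Y : E, i Y = ∫ z, M z (y k z) ∂ν ∧
      ‖Y‖ ^ κ ≤ C * ∫ z, ‖y k z‖ ^ κ ∂ν :=
    fun k => hC (y k) _ (hym k) (hyb k) (hy0 k)
  choose Y hY1 hY2 using hex
  have hint : ∀ k, Integrable (fun z => M z (y k z)) ν := fun k =>
    integ hS.opn hS.cont hr hcr ν (hym k) (hyb k) (hy0 k)
  refine ⟨Y, ⟨fun k => ?_, ?_⟩, ?_⟩
  · rw [← sub_eq_zero]
    apply hS.inj
    have e1 : i ((NE + K ∘L i) (Y k) - c • Y k - Y (k + 1)) =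
        NF (i (Y k)) + i (K (i (Y k))) - c • i (Y k) - i (Y (k + 1)) := by
      rw [map_sub, map_sub, add_apply, map_add, hS.inter, map_smul]
      rfl
    have hI1 : Integrable (fun z => NF (M z (y k z))) ν := NF.integrable_comp (hint k)
    have hI2 : Integrable (fun z => i (K (M z (y k z)))) ν := (i ∘L K).integrable_comp (hint k)
    have hI3 : Integrable (fun z => c • M z (y k z)) ν := (hint k).smul c
    have e2 : NF (i (Y k)) = ∫ z, NF (M z (y k z)) ∂ν := by
      rw [hY1, NF.integral_comp_comm (hint k)]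
    have e3 : i (K (i (Y k))) = ∫ z, i (K (M z (y k z))) ∂ν := by
      rw [hY1]
      exact ((i ∘L K).integral_comp_comm (hint k)).symm
    have e4 : c • i (Y k) = ∫ z, c • M z (y k z) ∂ν := by
      rw [hY1, integral_smul]
    have e6 : (∫ z, (NF (M z (y k z)) + i (K (M z (y k z))) - c • M z (y k z) -
        M z (y (k + 1) z)) ∂ν) = (∫ z, NF (M z (y k z)) ∂ν) + (∫ z, i (K (M z (y k z))) ∂ν) -
        (∫ z, c • M z (y k z) ∂ν) - ∫ z, M z (y (k + 1) z) ∂ν := by
      rw [integral_sub (f := fun z => NF (M z (y k z)) + i (K (M z (y k z))) -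
          c • M z (y k z)) ((hI1.add hI2).sub hI3) (hint (k + 1)),
        integral_sub (f := fun z => NF (M z (y k z)) + i (K (M z (y k z)))) (hI1.add hI2) hI3,
        integral_add hI1 hI2]
    rw [e1, e2, e3, e4, hY1 (k + 1), ← e6]
    have e5 : ∀ z, NF (M z (y k z)) + i (K (M z (y k z))) - c • M z (y k z) -
        M z (y (k + 1) z) = 0 := by
      intro z
      by_cases hz : z ∈ ball c r
      · have hzU : z ∈ U := hcr (ball_subset_closedBall hz)
        have f1 := hS.res z hzU (y k z)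
        have f2 : NF (M z (y k z)) = z • M z (y k z) - i (y k z) := by
          rw [← f1]; abel
        rw [f2, hrec, map_smul (M z), hyK, sub_smul]
        abel
      · rw [hy0 k z hz, hy0 (k + 1) z hz]
        simp
    simp_rw [e5]
    simp
  · -- the bound
    set ν₀ : ℝ := ν.real (ball c r) with hν₀
    have hV0 : 0 ≤ ν₀ := measureReal_nonneg
    refine ⟨(C * ν₀) ^ (1 / κ) * b, fun k => ?_⟩
    have h1 : ∫ z, ‖y k z‖ ^ κ ∂ν ≤ ν₀ * (r ^ k * b) ^ κ := by
      have h2 : ∫ z, ‖y k z‖ ^ κ ∂ν = ∫ z in ball c r, ‖y k z‖ ^ κ ∂ν := by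
        rw [setIntegral_eq_integral_of_forall_compl_eq_zero]
        intro z hz
        rw [hy0 k z hz, norm_zero, Real.zero_rpow hκ0.ne']
      rw [h2]
      have h3 : ‖∫ z in ball c r, ‖y k z‖ ^ κ ∂ν‖ ≤ (r ^ k * b) ^ κ * ν.real (ball c r) := by
        refine norm_setIntegral_le_of_norm_le_const (measure_lt_top _ _) fun z _ => ?_
        rw [Real.norm_of_nonneg (by positivity)]
        exact Real.rpow_le_rpow (norm_nonneg _) (hyb k z) hκ0.le
      rw [mul_comm]
      exact (le_abs_self _).trans h3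
    have h2 : ‖Y k‖ ^ κ ≤ ((C * ν₀) ^ (1 / κ) * b * r ^ k) ^ κ := by
      refine (hY2 k).trans ?_
      rw [Real.mul_rpow (by positivity) (by positivity), Real.mul_rpow (by positivity) (by positivity),
        ← Real.rpow_mul (by positivity), one_div, inv_mul_cancel₀ hκ0.ne', Real.rpow_one]
      calc C * ∫ z, ‖y k z‖ ^ κ ∂ν ≤ C * (ν₀ * (r ^ k * b) ^ κ) := by gcongr
        _ = C * ν₀ * b ^ κ * (r ^ k) ^ κ := by
          rw [Real.mul_rpow (by positivity) (by positivity)]
          ring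
    exact (Real.rpow_le_rpow_iff (norm_nonneg _) (by positivity) hκ0).1 h2
  · intro h
    apply hg0
    rw [← hy00, ← hY1, h, map_zero]

end Pool.Agent.N226.FM
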