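import Pool.Agent.N226.FM.Abs

/-!
# Concrete part 1: the functions `(z - φ)⁻¹`
-/

set_option autoImplicit false

namespace Pool.Agent.N226.FM

open MeasureTheory Set Metric Filter Topology
open scoped ENNReal NNReal

/-! ### potentials of measures -/

/-- the potentials `∫ ‖z - w‖ ^ (-a)` over `B` are bounded -/
def Den (l : Measure ℂ) (B : Set ℂ) (a : ℝ) : Prop :=
  ∃ D : ℝ≥0∞, D ≠ ∞ ∧ ∀ w : ℂ, ∫⁻ z in B, ‖z - w‖ₑ ^ (-a) ∂l ≤ D

lemma rpow_neg_le (t : ℝ≥0∞) {a b : ℝ} (ha : 0 < a) (h : a ≤ b) : t ^ (-a) ≤ 1 + t ^ (-b) := by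
  rcases le_total 1 t with h1 | h1
  · refine le_trans ?_ le_self_add
    rw [ENNReal.rpow_neg]
    exact ENNReal.inv_le_one.2 (ENNReal.one_le_rpow h1 ha)
  · refine le_trans ?_ le_add_self
    exact ENNReal.rpow_le_rpow_of_exponent_ge h1 (by linarith)

lemma Den.mono {l : Measure ℂ} {B : Set ℂ} {a b : ℝ} (hD : Den l B b) (hB : l B ≠ ∞) (ha : 0 < a)
    (h : a ≤ b) : Den l B a := by
  obtain ⟨D, hD1, hD2⟩ := hD
  refine ⟨l B + D, ENNReal.add_ne_top.2 ⟨hB, hD1⟩, fun w => ?_⟩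
  calc ∫⁻ z in B, ‖z - w‖ₑ ^ (-a) ∂l ≤ ∫⁻ z in B, (1 + ‖z - w‖ₑ ^ (-b)) ∂l :=
        lintegral_mono fun z => rpow_neg_le _ ha h
    _ = ∫⁻ z in B, 1 ∂l + ∫⁻ z in B, ‖z - w‖ₑ ^ (-b) ∂l := by
        rw [lintegral_add_left measurable_const]
    _ ≤ l B + D := by
        rw [lintegral_one, Measure.restrict_apply_univ]
        exact add_le_add le_rfl (hD2 w)

lemma den_vol (c : ℂ) (r : ℝ) {a : ℝ} (ha0 : 0 < a) (ha : a < 2) : Den volume (ball c r) a := by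
  have h1 : LocallyIntegrable (fun z : ℂ => ‖z‖ ^ (-a)) volume := by
    refine locallyIntegrable_of_norm_le_rpow (C := 1) (α := a) ?_ ?_ ?_ ?_
    · rw [Complex.finrank_real_complex]; norm_num
    · rw [Complex.finrank_real_complex]; exact_mod_cast ha
    · refine Eventually.of_forall fun z => ?_
      rw [one_mul, Real.norm_of_nonneg (Real.rpow_nonneg (norm_nonneg _) _)]
    · exact (measurable_norm.pow_const _).aestronglyMeasurable
  have h2 : IntegrableOn (fun z : ℂ => ‖z‖ ^ (-a)) (closedBall 0 1) volume :=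
    h1.integrableOn_isCompact (isCompact_closedBall 0 1)
  set D₀ : ℝ≥0∞ := ∫⁻ z in closedBall (0 : ℂ) 1, ‖z‖ₑ ^ (-a) with hD₀
  have h3 : D₀ ≠ ∞ := by
    have h4 := h2.2
    rw [hasFiniteIntegral_iff_enorm] at h4
    refine ne_of_lt (lt_of_le_of_lt ?_ h4)
    refine lintegral_mono_ae ?_
    have hne : ∀ᵐ z : ℂ ∂(volume.restrict (closedBall (0 : ℂ) 1)), z ≠ 0 := by
      refine ae_restrict_of_ae ?_
      rw [ae_iff]
      simp
    filter_upwards [hne] with z hz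
    have hz' : 0 < ‖z‖ := norm_pos_iff.2 hz
    rw [← ofReal_norm, ← ofReal_norm,
      Real.norm_of_nonneg (Real.rpow_nonneg (norm_nonneg _) _),
      ENNReal.ofReal_rpow_of_pos hz']
  refine ⟨volume (ball c r) + D₀, ENNReal.add_ne_top.2 ⟨measure_ball_lt_top.ne, h3⟩, fun w => ?_⟩
  have h5 : ∀ z : ℂ, ‖z - w‖ₑ ^ (-a) ≤ 1 + (closedBall w 1).indicator (fun z => ‖z - w‖ₑ ^ (-a)) z := by
    intro z
    by_cases hz : z ∈ closedBall w 1
    · rw [indicator_of_mem hz]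
      exact le_add_self
    · rw [indicator_of_notMem hz, add_zero, ENNReal.rpow_neg]
      refine ENNReal.inv_le_one.2 (ENNReal.one_le_rpow ?_ ha0)
      rw [mem_closedBall, dist_eq_norm, not_le] at hz
      rw [← ofReal_norm]
      rw [← ENNReal.ofReal_one]
      exact ENNReal.ofReal_le_ofReal hz.le
  calc ∫⁻ z in ball c r, ‖z - w‖ₑ ^ (-a) ≤ ∫⁻ z in ball c r, (1 +
        (closedBall w 1).indicator (fun z => ‖z - w‖ₑ ^ (-a)) z) := lintegral_mono h5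
    _ = (∫⁻ z in ball c r, 1) +
        ∫⁻ z in ball c r, (closedBall w 1).indicator (fun z => ‖z - w‖ₑ ^ (-a)) z := by
        rw [lintegral_add_left measurable_const]
    _ ≤ volume (ball c r) + ∫⁻ z, (closedBall w 1).indicator (fun z => ‖z - w‖ₑ ^ (-a)) z := by
        rw [lintegral_one, Measure.restrict_apply_univ]
        exact add_le_add le_rfl (lintegral_mono' Measure.restrict_le_self le_rfl)
    _ = volume (ball c r) + D₀ := by
        congr 1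
        have h6 : (fun z => (closedBall w 1).indicator (fun z => ‖z - w‖ₑ ^ (-a)) z) =
            fun z => (fun u => (closedBall (0 : ℂ) 1).indicator (fun u => ‖u‖ₑ ^ (-a)) u) (z - w) := by
          funext z
          by_cases hz : z ∈ closedBall w 1
          · have hz' : z - w ∈ closedBall (0 : ℂ) 1 := by
              rw [mem_closedBall, dist_eq_norm] at hz ⊢
              simpa using hz
            simp only [indicator_of_mem hz, indicator_of_mem hz']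
          · have hz' : z - w ∉ closedBall (0 : ℂ) 1 := by
              rw [mem_closedBall, dist_eq_norm] at hz ⊢
              simpa using hz
            simp only [indicator_of_notMem hz, indicator_of_notMem hz']
        rw [h6, lintegral_sub_right_eq_self
          (fun u => (closedBall (0 : ℂ) 1).indicator (fun u => ‖u‖ₑ ^ (-a)) u) w,
          lintegral_indicator measurableSet_closedBall]

/-! ### the functions `(z - φ)⁻¹` -/

lemma enorm_inv_le' (x : ℂ) : ‖x⁻¹‖ₑ ≤ ‖x‖ₑ⁻¹ := by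
  by_cases h : x = 0
  · simp [h]
  · rw [enorm_inv h]

lemma enorm_inv_rpow_le (x : ℂ) {a : ℝ} (ha : 0 ≤ a) : ‖x⁻¹‖ₑ ^ a ≤ ‖x‖ₑ ^ (-a) := by
  rw [ENNReal.rpow_neg, ← ENNReal.inv_rpow]
  exact ENNReal.rpow_le_rpow (enorm_inv_le' x) ha

lemma inv_sub_real (A B : ℂ) {s τ : ℝ} (hs : 0 < s) (hst : s < τ) (h2 : τ ≤ 2 * s) :
    ‖A⁻¹ - B⁻¹‖ ^ s ≤ ‖A - B‖ ^ (τ - s) * (‖A⁻¹‖ + ‖B⁻¹‖) ^ τ := by
  have hτ : 0 < τ := hs.trans hst
  by_cases hA : A = 0
  · subst hA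
    by_cases hB : B = 0
    · subst hB
      simp [Real.zero_rpow hs.ne']
      positivity
    · have hB' : 0 < ‖B‖ := norm_pos_iff.2 hB
      rw [inv_zero, zero_sub, zero_sub, norm_neg, norm_neg, norm_zero, zero_add, norm_inv,
        Real.inv_rpow hB'.le, Real.inv_rpow hB'.le, Real.rpow_sub hB']
      refine le_of_eq ?_
      have := (Real.rpow_pos_of_pos hB' τ).ne'
      field_simp
  · by_cases hB : B = 0
    · subst hB
      have hA' : 0 < ‖A‖ := norm_pos_iff.2 hA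
      rw [inv_zero, sub_zero, sub_zero, norm_zero, add_zero, norm_inv,
        Real.inv_rpow hA'.le, Real.inv_rpow hA'.le, Real.rpow_sub hA']
      refine le_of_eq ?_
      have := (Real.rpow_pos_of_pos hA' τ).ne'
      field_simp
    · set S : ℝ := ‖A⁻¹‖ + ‖B⁻¹‖ with hS
      have hA' : 0 < ‖A‖ := norm_pos_iff.2 hA
      have hB' : 0 < ‖B‖ := norm_pos_iff.2 hB
      have hS0 : 0 < S := by
        rw [hS, norm_inv, norm_inv]
        positivity
      have e1 : A⁻¹ - B⁻¹ = (B - A) * (A⁻¹ * B⁻¹) := by field_simp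
      have h3 : ‖A⁻¹ - B⁻¹‖ ≤ ‖A - B‖ * S ^ 2 := by
        rw [e1, norm_mul, norm_mul, norm_sub_rev]
        refine mul_le_mul_of_nonneg_left ?_ (norm_nonneg _)
        rw [hS]
        nlinarith [norm_nonneg A⁻¹, norm_nonneg B⁻¹]
      have h4 : ‖A⁻¹ - B⁻¹‖ ≤ S := norm_sub_le _ _
      have e2 : s = (τ - s) + (2 * s - τ) := by ring
      by_cases h0 : ‖A⁻¹ - B⁻¹‖ = 0
      · rw [h0, Real.zero_rpow hs.ne']
        positivity
      · have h0' : 0 < ‖A⁻¹ - B⁻¹‖ := lt_of_le_of_ne (norm_nonneg _) (Ne.symm h0)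
        calc ‖A⁻¹ - B⁻¹‖ ^ s = ‖A⁻¹ - B⁻¹‖ ^ (τ - s) * ‖A⁻¹ - B⁻¹‖ ^ (2 * s - τ) := by
              rw [← Real.rpow_add h0']; congr 1
          _ ≤ (‖A - B‖ * S ^ 2) ^ (τ - s) * S ^ (2 * s - τ) := by
              refine mul_le_mul (Real.rpow_le_rpow h0'.le h3 (by linarith))
                (Real.rpow_le_rpow h0'.le h4 (by linarith)) (by positivity) (by positivity)
          _ = ‖A - B‖ ^ (τ - s) * S ^ τ := by
              rw [Real.mul_rpow (norm_nonneg _) (by positivity), mul_assoc, ← Real.rpow_natCast,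
                ← Real.rpow_mul hS0.le, ← Real.rpow_add hS0]
              congr 2
              push_cast
              ring

lemma inv_sub_enorm (A B : ℂ) {s τ : ℝ} (hs : 0 < s) (hst : s < τ) (h2 : τ ≤ 2 * s) :
    ‖A⁻¹ - B⁻¹‖ₑ ^ s ≤ ‖A - B‖ₑ ^ (τ - s) * (‖A⁻¹‖ₑ + ‖B⁻¹‖ₑ) ^ τ := by
  have h := inv_sub_real A B hs hst h2
  have h3 := ENNReal.ofReal_le_ofReal h
  rw [ENNReal.ofReal_mul (by positivity), ← ENNReal.ofReal_rpow_of_nonneg (norm_nonneg _) hs.le,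
    ← ENNReal.ofReal_rpow_of_nonneg (norm_nonneg _) (by linarith),
    ← ENNReal.ofReal_rpow_of_nonneg (by positivity) (by linarith),
    ENNReal.ofReal_add (norm_nonneg _) (norm_nonneg _), ofReal_norm, ofReal_norm,
    ofReal_norm, ofReal_norm] at h3
  exact h3

variable {α : Type} [MeasurableSpace α] {μ : Measure α}

/-- the spectral measure `φ_* μ` has dimension `> 1` on `U` -/
structure Dim (μ : Measure α) (φ : α → ℂ) (U : Set ℂ) (τ : ℝ) : Prop where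
  meas : Measurable φ
  bdd : ∃ b : ℝ, ∀ x, ‖φ x‖ ≤ b
  opn : IsOpen U
  dim : ∃ C : ℝ≥0, ∀ z ∈ U, ∫⁻ x, ‖z - φ x‖ₑ ^ (-τ) ∂μ ≤ C

/-- the function `(z - φ)⁻¹` in `L^s` -/
noncomputable def kL (s : ℝ≥0∞) (μ : Measure α) (φ : α → ℂ) (z : ℂ) : Lp ℂ s μ := by
  classical exact if h : MemLp (fun x => (z - φ x)⁻¹) s μ then h.toLp _ else 0

lemma kL_coe {s : ℝ≥0∞} {φ : α → ℂ} {z : ℂ} (h : MemLp (fun x => (z - φ x)⁻¹) s μ) :
    kL s μ φ z =ᵐ[μ] fun x => (z - φ x)⁻¹ := by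
  unfold kL
  rw [dif_pos h]
  exact h.coeFn_toLp

section

variable {φ : α → ℂ} {U : Set ℂ} {τ : ℝ}

lemma Dim.memLp_tau (h : Dim μ φ U τ) (hτ : 0 < τ) {z : ℂ} (hz : z ∈ U) :
    MemLp (fun x => (z - φ x)⁻¹) (ENNReal.ofReal τ) μ := by
  obtain ⟨C, hC⟩ := h.dim
  have hm : Measurable (fun x => (z - φ x)⁻¹) := (measurable_const.sub h.meas).inv
  refine ⟨hm.aestronglyMeasurable, ?_⟩
  rw [eLpNorm_lt_top_iff_lintegral_rpow_enorm_lt_top (by simpa using hτ) ENNReal.ofReal_ne_top,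
    ENNReal.toReal_ofReal hτ.le]
  refine lt_of_le_of_lt (lintegral_mono fun x => enorm_inv_rpow_le _ hτ.le) ?_
  exact lt_of_le_of_lt (hC z hz) ENNReal.coe_lt_top

lemma Dim.memLp [IsFiniteMeasure μ] (h : Dim μ φ U τ) (hτ : 0 < τ) {s : ℝ≥0∞}
    (hs : s ≤ ENNReal.ofReal τ) {z : ℂ} (hz : z ∈ U) : MemLp (fun x => (z - φ x)⁻¹) s μ :=
  (h.memLp_tau hτ hz).mono_exponent hs

lemma Dim.ae_ne (h : Dim μ φ U τ) (hτ : 0 < τ) {z : ℂ} (hz : z ∈ U) : ∀ᵐ x ∂μ, z - φ x ≠ 0 := by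
  obtain ⟨C, hC⟩ := h.dim
  have h1 : ∫⁻ x, ‖z - φ x‖ₑ ^ (-τ) ∂μ ≠ ∞ := (lt_of_le_of_lt (hC z hz) ENNReal.coe_lt_top).ne
  have hm : Measurable (fun x => ‖z - φ x‖ₑ ^ (-τ)) :=
    (measurable_const.sub h.meas).enorm.pow_const _
  filter_upwards [ae_lt_top hm h1] with x hx
  intro h0
  rw [h0] at hx
  simp [ENNReal.zero_rpow_of_neg (neg_lt_zero.2 hτ)] at hx

lemma Dim.kL_sub [IsFiniteMeasure μ] (h : Dim μ φ U τ) {s : ℝ≥0∞} (hs1 : 1 ≤ s)
    (hsτ : s < ENNReal.ofReal τ) (hτ2 : τ < 2) :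
    ∃ C : ℝ, 0 ≤ C ∧ ∀ z ∈ U, ∀ w ∈ U,
      ‖kL s μ φ z - kL s μ φ w‖ ≤ (C * ‖z - w‖ ^ (τ - s.toReal)) ^ (1 / s.toReal) := by
  have hst : s ≠ ∞ := ne_top_of_lt hsτ
  have hs0 : s ≠ 0 := (one_pos.trans_le hs1).ne'
  have hsR : 1 ≤ s.toReal := by
    rw [← ENNReal.toReal_one]
    exact ENNReal.toReal_mono hst hs1
  have hsRτ : s.toReal < τ := by
    rw [← ENNReal.ofReal_toReal hst] at hsτ
    exact (ENNReal.ofReal_lt_ofReal_iff_of_nonneg ENNReal.toReal_nonneg).1 hsτ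
  have hτ0 : 0 < τ := by linarith
  obtain ⟨C, hC⟩ := h.dim
  refine ⟨2 ^ (τ - 1) * (C + C), by positivity, fun z hz w hw => ?_⟩
  set sR := s.toReal with hsRdef
  have e1 := h.memLp hτ0 hsτ.le hz
  have e2 := h.memLp hτ0 hsτ.le hw
  have hcoe : (kL s μ φ z - kL s μ φ w : Lp ℂ s μ) =ᵐ[μ] fun x => (z - φ x)⁻¹ - (w - φ x)⁻¹ := by
    filter_upwards [Lp.coeFn_sub (kL s μ φ z) (kL s μ φ w), kL_coe e1, kL_coe e2] with x h1 h2 h3
    rw [h1, Pi.sub_apply, h2, h3]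
  have hlint : ∫⁻ x, ‖(z - φ x)⁻¹ - (w - φ x)⁻¹‖ₑ ^ sR ∂μ ≤
      ‖z - w‖ₑ ^ (τ - sR) * (2 ^ (τ - 1) * (C + C)) := by
    calc ∫⁻ x, ‖(z - φ x)⁻¹ - (w - φ x)⁻¹‖ₑ ^ sR ∂μ
        ≤ ∫⁻ x, ‖z - w‖ₑ ^ (τ - sR) * (2 ^ (τ - 1) * (‖z - φ x‖ₑ ^ (-τ) + ‖w - φ x‖ₑ ^ (-τ))) ∂μ := by
          refine lintegral_mono fun x => ?_
          have h1 := inv_sub_enorm (z - φ x) (w - φ x) (s := sR) (τ := τ) (by linarith) hsRτ (by linarith)
          rw [sub_sub_sub_cancel_right] at h1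
          refine h1.trans ?_
          gcongr
          refine (ENNReal.rpow_add_le_mul_rpow_add_rpow _ _ (by linarith)).trans ?_
          gcongr
          · exact enorm_inv_rpow_le _ hτ0.le
          · exact enorm_inv_rpow_le _ hτ0.le
      _ = ‖z - w‖ₑ ^ (τ - sR) * (2 ^ (τ - 1) * (∫⁻ x, ‖z - φ x‖ₑ ^ (-τ) ∂μ +
            ∫⁻ x, ‖w - φ x‖ₑ ^ (-τ) ∂μ)) := by
          have m1 : Measurable (fun x => ‖z - φ x‖ₑ ^ (-τ)) :=
            (measurable_const.sub h.meas).enorm.pow_const _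
          have m2 : Measurable (fun x => ‖w - φ x‖ₑ ^ (-τ)) :=
            (measurable_const.sub h.meas).enorm.pow_const _
          rw [lintegral_const_mul (f := fun x => 2 ^ (τ - 1) *
              (‖z - φ x‖ₑ ^ (-τ) + ‖w - φ x‖ₑ ^ (-τ))) _ ((m1.add m2).const_mul _),
            lintegral_const_mul (f := fun x => ‖z - φ x‖ₑ ^ (-τ) + ‖w - φ x‖ₑ ^ (-τ)) _ (m1.add m2),
            lintegral_add_left m1]
      _ ≤ _ := by
          gcongr
          · exact hC z hz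
          · exact hC w hw
  rw [Lp.norm_def, eLpNorm_congr_ae hcoe, eLpNorm_eq_lintegral_rpow_enorm_toReal hs0 hst]
  have hC2 : ‖z - w‖ₑ ^ (τ - sR) * (2 ^ (τ - 1) * (C + C)) =
      ENNReal.ofReal ((2 ^ (τ - 1) * (C + C)) * ‖z - w‖ ^ (τ - sR)) := by
    rw [ENNReal.ofReal_mul (by positivity), ENNReal.ofReal_mul (by positivity),
      ENNReal.ofReal_add (by positivity) (by positivity), ENNReal.ofReal_coe_nnreal,
      ← ENNReal.ofReal_rpow_of_nonneg (norm_nonneg _) (by linarith), ofReal_norm,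
      ← ENNReal.ofReal_rpow_of_pos two_pos, ENNReal.ofReal_ofNat, mul_comm]
  rw [hC2] at hlint
  have h5 := ENNReal.rpow_le_rpow hlint (z := 1 / sR) (by positivity)
  rw [ENNReal.ofReal_rpow_of_nonneg (by positivity) (by positivity)] at h5
  refine ENNReal.toReal_le_of_le_ofReal (by positivity) h5

lemma Dim.kL_cont [IsFiniteMeasure μ] (h : Dim μ φ U τ) {s : ℝ≥0∞} [Fact (1 ≤ s)]
    (hsτ : s < ENNReal.ofReal τ) (hτ2 : τ < 2) : ContinuousOn (kL s μ φ) U := by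
  have hs1 : 1 ≤ s := Fact.out
  obtain ⟨C, hC0, hC⟩ := h.kL_sub hs1 hsτ hτ2
  have hst : s ≠ ∞ := ne_top_of_lt hsτ
  have hsR : 1 ≤ s.toReal := by
    rw [← ENNReal.toReal_one]
    exact ENNReal.toReal_mono hst hs1
  have hsRτ : s.toReal < τ := by
    rw [← ENNReal.ofReal_toReal hst] at hsτ
    exact (ENNReal.ofReal_lt_ofReal_iff_of_nonneg ENNReal.toReal_nonneg).1 hsτ
  intro z hz
  rw [ContinuousWithinAt, tendsto_iff_norm_sub_tendsto_zero]
  have h1 : Continuous (fun w : ℂ => (C * ‖w - z‖ ^ (τ - s.toReal)) ^ (1 / s.toReal)) := by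
    refine Continuous.rpow_const ?_ (fun w => Or.inr (by positivity))
    refine continuous_const.mul ?_
    exact Continuous.rpow_const (by fun_prop) (fun w => Or.inr (by linarith))
  have h2 : Tendsto (fun w : ℂ => (C * ‖w - z‖ ^ (τ - s.toReal)) ^ (1 / s.toReal)) (𝓝[U] z) (𝓝 0) := by
    have h3 := (h1.tendsto z).mono_left (nhdsWithin_le_nhds (s := U))
    have h4 : (C * ‖z - z‖ ^ (τ - s.toReal)) ^ (1 / s.toReal) = 0 := by
      rw [sub_self, norm_zero, Real.zero_rpow (by linarith), mul_zero, Real.zero_rpow]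
      have : 0 < 1 / s.toReal := by positivity
      exact this.ne'
    rw [h4] at h3
    exact h3
  refine squeeze_zero' (Eventually.of_forall fun w => norm_nonneg _) ?_ h2
  filter_upwards [self_mem_nhdsWithin] with w hw
  exact hC w hw z hz

end

end Pool.Agent.N226.FM
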