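import Pool.Agent.N226.FM.Con1

/-!
# Concrete part 2: inclusions, multiplication operators, and the pointwise formula
-/

set_option autoImplicit false

namespace Pool.Agent.N226.FM

open MeasureTheory Set Metric Filter Topology
open scoped ENNReal NNReal

variable {α : Type} [MeasurableSpace α] {μ : Measure α} {Y : Type} [NormedAddCommGroup Y]
  [NormedSpace ℂ Y]

section inc

variable [IsFiniteMeasure μ] {r q : ℝ≥0∞} [Fact (1 ≤ r)] [Fact (1 ≤ q)]

/-- the inclusion `L^q → L^r` -/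
noncomputable def inc (Y : Type) [NormedAddCommGroup Y] [NormedSpace ℂ Y] (μ : Measure α)
    [IsFiniteMeasure μ] {r q : ℝ≥0∞} [Fact (1 ≤ r)] [Fact (1 ≤ q)] (h : r ≤ q) :
    Lp Y q μ →L[ℂ] Lp Y r μ :=
  LinearMap.mkContinuous
    { toFun := fun f => ((Lp.memLp f).mono_exponent h).toLp f
      map_add' := fun f g => by
        rw [← MemLp.toLp_add]
        exact MemLp.toLp_congr _ _ (Lp.coeFn_add f g)
      map_smul' := fun c f => by
        rw [RingHom.id_apply, ← MemLp.toLp_const_smul]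
        exact MemLp.toLp_congr _ _ (Lp.coeFn_smul c f) }
    ((μ univ ^ (1 / r.toReal - 1 / q.toReal)).toReal) (fun f => by
      show ‖((Lp.memLp f).mono_exponent h).toLp f‖ ≤ _
      rw [Lp.norm_toLp, Lp.norm_def, ← ENNReal.toReal_mul]
      have h1 : 0 ≤ 1 / r.toReal - 1 / q.toReal := by
        rw [sub_nonneg]
        by_cases hq : q = ∞
        · rw [hq]; simp
        · have hr : r ≠ ∞ := ne_top_of_le_ne_top hq h
          have hr1 : 1 ≤ r.toReal := by
            rw [← ENNReal.toReal_one]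
            exact ENNReal.toReal_mono hr Fact.out
          exact one_div_le_one_div_of_le (by linarith) (ENNReal.toReal_mono hq h)
      refine ENNReal.toReal_mono ?_ ?_
      · exact ENNReal.mul_ne_top (ENNReal.rpow_ne_top_of_nonneg h1 (measure_ne_top μ _)) (Lp.eLpNorm_ne_top f)
      · rw [mul_comm]
        exact eLpNorm_le_eLpNorm_mul_rpow_measure_univ h (Lp.aestronglyMeasurable f))

lemma inc_coe (h : r ≤ q) (f : Lp Y q μ) : inc Y μ h f =ᵐ[μ] f := by
  show ((Lp.memLp f).mono_exponent h).toLp f =ᵐ[μ] f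
  exact MemLp.coeFn_toLp _

lemma inc_inj (h : r ≤ q) (f : Lp Y q μ) (hf : inc Y μ h f = 0) : f = 0 := by
  rw [Lp.eq_zero_iff_ae_eq_zero]
  have h1 := inc_coe h f
  rw [hf] at h1
  exact h1.symm.trans (Lp.coeFn_zero Y r μ)

lemma inc_dense (h : r ≤ q) (hr : r ≠ ∞) : DenseRange (inc Y μ h) := by
  have h1 : Dense (Lp.simpleFunc Y r μ : Set (Lp Y r μ)) := Lp.simpleFunc.dense hr
  refine h1.mono ?_
  intro g hg
  set t : SimpleFunc α Y := Lp.simpleFunc.toSimpleFunc ⟨g, hg⟩ with ht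
  have h2 : t =ᵐ[μ] g := Lp.simpleFunc.toSimpleFunc_eq_toFun ⟨g, hg⟩
  have h3 : MemLp t q μ := SimpleFunc.memLp_of_isFiniteMeasure t q μ
  refine ⟨h3.toLp t, ?_⟩
  refine Lp.ext ?_
  exact (inc_coe h _).trans (h3.coeFn_toLp.trans h2)

end inc

section mL

variable {s q r : ℝ≥0∞} [Fact (1 ≤ s)] [Fact (1 ≤ q)] [Fact (1 ≤ r)] [ENNReal.HolderTriple s q r]

/-- multiplication operators -/
noncomputable def mL (Y : Type) [NormedAddCommGroup Y] [NormedSpace ℂ Y] (μ : Measure α)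
    (s q r : ℝ≥0∞) [Fact (1 ≤ s)] [Fact (1 ≤ q)] [Fact (1 ≤ r)] [ENNReal.HolderTriple s q r] :
    Lp ℂ s μ →L[ℂ] Lp Y q μ →L[ℂ] Lp Y r μ :=
  (ContinuousLinearMap.lsmul ℂ ℂ).holderL μ s q r

lemma mL_coe (k : Lp ℂ s μ) (f : Lp Y q μ) : mL Y μ s q r k f =ᵐ[μ] fun x => k x • f x :=
  ContinuousLinearMap.coeFn_holder (r := r) (ContinuousLinearMap.lsmul ℂ ℂ) k f

end mL

section NN

variable {U : Set ℂ} {τ : ℝ} {φ : α → ℂ} {q : ℝ≥0∞} [Fact (1 ≤ q)]

instance fact_top : Fact ((1 : ℝ≥0∞) ≤ ∞) := ⟨le_top⟩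

instance holder_top (q : ℝ≥0∞) : ENNReal.HolderTriple ∞ q q := ENNReal.HolderTriple.symm

/-- multiplication by `φ` on `L^q` -/
noncomputable def NN (Y : Type) [NormedAddCommGroup Y] [NormedSpace ℂ Y] (μ : Measure α)
    (q : ℝ≥0∞) [Fact (1 ≤ q)] (φ : α → ℂ) : Lp Y q μ →L[ℂ] Lp Y q μ := by
  classical exact if h : MemLp φ ∞ μ then mL Y μ ∞ q q (h.toLp φ) else 0

lemma Dim.memLp_top (h : Dim μ φ U τ) : MemLp φ ∞ μ := by
  obtain ⟨b, hb⟩ := h.bdd
  exact memLp_top_of_bound h.meas.aestronglyMeasurable b (Eventually.of_forall hb)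

lemma NN_coe (h : MemLp φ ∞ μ) (f : Lp Y q μ) : NN Y μ q φ f =ᵐ[μ] fun x => φ x • f x := by
  unfold NN
  rw [dif_pos h]
  filter_upwards [mL_coe (s := ∞) (q := q) (r := q) (h.toLp φ) f, h.coeFn_toLp] with x h1 h2
  rw [h1, h2]

end NN

section intA

variable [IsFiniteMeasure μ] [CompleteSpace Y] {s : ℝ≥0∞} [Fact (1 ≤ s)]

/-- integration over `A` -/
noncomputable def intA (Y : Type) [NormedAddCommGroup Y] [NormedSpace ℂ Y] [CompleteSpace Y]
    (μ : Measure α) [IsFiniteMeasure μ] (s : ℝ≥0∞) [Fact (1 ≤ s)] (A : Set α) : Lp Y s μ →L[ℂ] Y :=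
  (L1.integralCLM' (α := α) (μ := μ.restrict A) ℂ) ∘L
    (LpToLpRestrictCLM α Y ℂ μ 1 A) ∘L (inc Y μ (Fact.out : (1 : ℝ≥0∞) ≤ s))

lemma intA_apply (A : Set α) (f : Lp Y s μ) : intA Y μ s A f = ∫ x in A, f x ∂μ := by
  show L1.integralCLM' (α := α) (μ := μ.restrict A) ℂ
    (LpToLpRestrictCLM α Y ℂ μ 1 A (inc Y μ (Fact.out : (1 : ℝ≥0∞) ≤ s) f)) = _
  rw [← L1.integral_eq', L1.integral_eq_integral,
    integral_congr_ae (LpToLpRestrictCLM_coeFn ℂ A _)]
  exact integral_congr_ae (ae_restrict_of_ae (inc_coe _ f))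

end intA

/-! ### the pointwise formula -/

/-- integrability -/
lemma integ_smul {G : Type} [NormedAddCommGroup G] [NormedSpace ℂ G] {U : Set ℂ} (hU : IsOpen U)
    {k : ℂ → G} (hk : ContinuousOn k U) {a : ℂ} {r : ℝ}
    (hr : 0 < r) (h : closedBall a r ⊆ U) (l : Measure ℂ) [IsFiniteMeasureOnCompacts l] {g : ℂ → ℂ} {b : ℝ}
    (hg : Measurable g) (hb : ∀ z, ‖g z‖ ≤ b) (h0 : ∀ z, z ∉ ball a r → g z = 0) :
    Integrable (fun z => g z • k z) l := by
  obtain ⟨χ, c1, c2, c3, c4, c5⟩ := exists_cut hU h hr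
  have hc := cut_cont hU hk c1.continuous c5
  have e : (fun z => g z • k z) = fun z => g z • (χ z • k z) := by
    funext z
    by_cases hz : z ∈ ball a r
    · rw [c3 z hz, one_smul]
    · rw [h0 z hz, zero_smul, zero_smul]
  obtain ⟨B, hB⟩ : ∃ B : ℝ, ∀ z ∈ closedBall a r, ‖χ z • k z‖ ≤ B :=
    (isCompact_closedBall a r).exists_bound_of_continuousOn hc.continuousOn
  have hb0 : 0 ≤ b := (norm_nonneg _).trans (hb a)
  have hi : IntegrableOn (fun z => g z • (χ z • k z)) (closedBall a r) l := by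
    refine Measure.integrableOn_of_bounded (M := b * B)
      (isCompact_closedBall a r).measure_lt_top.ne
      (hg.stronglyMeasurable.smul hc.stronglyMeasurable).aestronglyMeasurable ?_
    rw [ae_restrict_iff' measurableSet_closedBall]
    refine Eventually.of_forall fun z hz => ?_
    rw [norm_smul]
    exact mul_le_mul (hb z) (hB z hz) (norm_nonneg _) hb0
  rw [e]
  rw [integrableOn_iff_integrable_of_support_subset] at hi
  · exact hi
  · intro z hz
    by_contra hz'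
    apply hz
    show g z • (χ z • k z) = 0
    rw [h0 z (fun h => hz' (ball_subset_closedBall h)), zero_smul]

/-- integrability on the product -/
lemma integ_prod {φ : α → ℂ} (hφ : Measurable φ) (μ' : Measure α) [IsFiniteMeasure μ'] (l : Measure ℂ)
    [SFinite l] {B : Set ℂ} (hD : Den l B 1) {g : ℂ → ℂ} {b : ℝ} (hg : Measurable g)
    (hb : ∀ z, ‖g z‖ ≤ b) :
    Integrable (fun p : α × ℂ => g p.2 * (p.2 - φ p.1)⁻¹) (μ'.prod (l.restrict B)) := by
  obtain ⟨D, hD1, hD2⟩ := hD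
  have hb0 : 0 ≤ b := (norm_nonneg _).trans (hb 0)
  have hm : Measurable (fun p : α × ℂ => g p.2 * (p.2 - φ p.1)⁻¹) :=
    (hg.comp measurable_snd).mul (measurable_snd.sub (hφ.comp measurable_fst)).inv
  refine ⟨hm.aestronglyMeasurable, ?_⟩
  rw [hasFiniteIntegral_iff_enorm, lintegral_prod _ hm.enorm.aemeasurable]
  have h1 : ∀ x : α, ∫⁻ z in B, ‖g z * (z - φ x)⁻¹‖ₑ ∂l ≤ ENNReal.ofReal b * D := by
    intro x
    calc ∫⁻ z in B, ‖g z * (z - φ x)⁻¹‖ₑ ∂l ≤ ∫⁻ z in B, ENNReal.ofReal b * ‖z - φ x‖ₑ ^ (-1 : ℝ) ∂l := by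
          refine lintegral_mono fun z => ?_
          rw [enorm_mul]
          refine mul_le_mul' ?_ ?_
          · rw [← ofReal_norm]
            exact ENNReal.ofReal_le_ofReal (hb z)
          · rw [ENNReal.rpow_neg_one]
            exact enorm_inv_le' _
      _ = ENNReal.ofReal b * ∫⁻ z in B, ‖z - φ x‖ₑ ^ (-1 : ℝ) ∂l :=
          lintegral_const_mul _ ((measurable_id.sub_const _).enorm.pow_const _)
      _ ≤ ENNReal.ofReal b * D := by gcongr; exact hD2 _
  calc ∫⁻ x, ∫⁻ z in B, ‖g z * (z - φ x)⁻¹‖ₑ ∂l ∂μ' ≤ ∫⁻ _, ENNReal.ofReal b * D ∂μ' :=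
        lintegral_mono h1
    _ = ENNReal.ofReal b * D * μ' univ := lintegral_const _
    _ < ∞ := ENNReal.mul_lt_top (ENNReal.mul_lt_top ENNReal.ofReal_lt_top (lt_top_iff_ne_top.2 hD1))
        (measure_lt_top _ _)

section scal

variable [IsFiniteMeasure μ] {φ : α → ℂ} {U : Set ℂ} {τ : ℝ} {s : ℝ≥0∞} [Fact (1 ≤ s)]

theorem scal (h : Dim μ φ U τ) (hsτ : s < ENNReal.ofReal τ) (hτ2 : τ < 2) (l : Measure ℂ)
    [IsFiniteMeasureOnCompacts l] [SFinite l] {a : ℂ} {r : ℝ} (hr : 0 < r) (hU : closedBall a r ⊆ U)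
    (hD : Den l (ball a r) 1) {g : ℂ → ℂ} {b : ℝ} (hg : Measurable g) (hb : ∀ z, ‖g z‖ ≤ b)
    (h0 : ∀ z, z ∉ ball a r → g z = 0) :
    (∫ z, g z • kL s μ φ z ∂l : Lp ℂ s μ) =ᵐ[μ] fun x => ∫ z, g z * (z - φ x)⁻¹ ∂l := by
  have hs1 : (1 : ℝ≥0∞) ≤ s := Fact.out
  have hτ0 : 0 < τ := by
    have h1 : (0 : ℝ≥0∞) < ENNReal.ofReal τ := (one_pos.trans_le hs1).trans hsτ
    exact ENNReal.ofReal_pos.1 h1
  have hint : Integrable (fun z => g z • kL s μ φ z) l :=
    integ_smul h.opn (h.kL_cont hsτ hτ2) hr hU l hg hb h0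
  have hset : ∀ x, ∫ z, g z * (z - φ x)⁻¹ ∂l = ∫ z in ball a r, g z * (z - φ x)⁻¹ ∂l := by
    intro x
    rw [setIntegral_eq_integral_of_forall_compl_eq_zero]
    intro z hz
    rw [h0 z hz, zero_mul]
  have hP := integ_prod h.meas μ l hD hg hb
  refine Integrable.ae_eq_of_forall_setIntegral_eq _ _ ?_ ?_ ?_
  · exact (Lp.memLp _).integrable hs1
  · simp_rw [hset]
    exact hP.integral_prod_left
  · intro A hA _
    rw [← intA_apply A (∫ z, g z • kL s μ φ z ∂l), ← ContinuousLinearMap.integral_comp_comm _ hint]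
    simp_rw [hset]
    have hPA := integ_prod h.meas (μ.restrict A) l hD hg hb
    rw [integral_integral_swap (f := fun x z => g z * (z - φ x)⁻¹) hPA]
    rw [setIntegral_eq_integral_of_forall_compl_eq_zero]
    · refine integral_congr_ae (Eventually.of_forall fun z => ?_)
      show intA ℂ μ s A (g z • kL s μ φ z) = ∫ x in A, g z * (z - φ x)⁻¹ ∂μ
      rw [map_smul, intA_apply, smul_eq_mul, integral_const_mul]
      by_cases hz : z ∈ ball a r
      · congr 1
        exact integral_congr_ae (ae_restrict_of_ae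
          (kL_coe (h.memLp hτ0 hsτ.le (hU (ball_subset_closedBall hz)))))
      · rw [h0 z hz, zero_mul, zero_mul]
    · intro z hz
      rw [integral_const_mul, h0 z hz, zero_mul]

variable [CompleteSpace Y] {q p : ℝ≥0∞} [Fact (1 ≤ q)] [Fact (1 ≤ p)] [ENNReal.HolderTriple s q p]

theorem scalM (h : Dim μ φ U τ) (hsτ : s < ENNReal.ofReal τ) (hτ2 : τ < 2) (l : Measure ℂ)
    [IsFiniteMeasureOnCompacts l] [SFinite l] {a : ℂ} {r : ℝ} (hr : 0 < r) (hU : closedBall a r ⊆ U)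
    (hD : Den l (ball a r) 1) {g : ℂ → ℂ} {b : ℝ} (hg : Measurable g) (hb : ∀ z, ‖g z‖ ≤ b)
    (h0 : ∀ z, z ∉ ball a r → g z = 0) (f : Lp Y q μ) :
    (∫ z, g z • mL Y μ s q p (kL s μ φ z) f ∂l : Lp Y p μ) =ᵐ[μ]
      fun x => (∫ z, g z * (z - φ x)⁻¹ ∂l) • f x := by
  have hint : Integrable (fun z => g z • kL s μ φ z) l :=
    integ_smul h.opn (h.kL_cont hsτ hτ2) hr hU l hg hb h0
  have e1 : (∫ z, g z • mL Y μ s q p (kL s μ φ z) f ∂l : Lp Y p μ) =
      mL Y μ s q p (∫ z, g z • kL s μ φ z ∂l) f := by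
    have h1 := ContinuousLinearMap.integral_comp_comm ((mL Y μ s q p).flip f) hint
    rw [ContinuousLinearMap.flip_apply] at h1
    rw [← h1]
    refine integral_congr_ae (Eventually.of_forall fun z => ?_)
    show g z • mL Y μ s q p (kL s μ φ z) f = (mL Y μ s q p).flip f (g z • kL s μ φ z)
    rw [map_smul, ContinuousLinearMap.flip_apply]
  rw [e1]
  filter_upwards [mL_coe (r := p) (∫ z, g z • kL s μ φ z ∂l) f, scal h hsτ hτ2 l hr hU hD hg hb h0]
    with x h1 h2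
  rw [h1, h2]

end scal

end Pool.Agent.N226.FM
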