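import Pool.Agent.N226.FM.Con2

/-!
# Concrete part 3: the system on `L^q → L^r`
-/

set_option autoImplicit false

namespace Pool.Agent.N226.FM

open MeasureTheory Set Metric Filter Topology
open scoped ENNReal NNReal

/-- comparison of integrals -/
lemma int_rpow {G : Type} [NormedAddCommGroup G] (l : Measure ℂ) {B : Set ℂ}
    (hlB : l B ≠ ∞) {κ : ℝ} (hκ : 0 < κ) {y : ℂ → G} {b : ℝ} (hy : StronglyMeasurable y)
    (hb : ∀ z, ‖y z‖ ≤ b) (h0 : ∀ z, z ∉ B → y z = 0) :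
    ∫⁻ z, ‖y z‖ₑ ^ κ ∂l = ENNReal.ofReal (∫ z, ‖y z‖ ^ κ ∂l) := by
  have hm : StronglyMeasurable (fun z => ‖y z‖ ^ κ) := by
    exact (hy.norm.measurable.pow_const κ).stronglyMeasurable
  have hi : Integrable (fun z => ‖y z‖ ^ κ) l := by
    have h1 : IntegrableOn (fun z => ‖y z‖ ^ κ) B l := by
      refine Measure.integrableOn_of_bounded (M := b ^ κ) hlB hm.aestronglyMeasurable ?_
      refine Eventually.of_forall fun z => ?_
      rw [Real.norm_of_nonneg (by positivity)]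
      exact Real.rpow_le_rpow (norm_nonneg _) (hb z) hκ.le
    rw [integrableOn_iff_integrable_of_support_subset] at h1
    · exact h1
    · intro z hz
      by_contra hz'
      apply hz
      show ‖y z‖ ^ κ = 0
      rw [h0 z hz', norm_zero, Real.zero_rpow hκ.ne']
  rw [ofReal_integral_eq_lintegral_ofReal hi (Eventually.of_forall fun z => by positivity)]
  refine lintegral_congr fun z => ?_
  rw [← ofReal_norm, ENNReal.ofReal_rpow_of_nonneg (norm_nonneg _) hκ.le]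

variable {α : Type} [MeasurableSpace α] {μ : Measure α} [IsFiniteMeasure μ] {Y : Type}
  [NormedAddCommGroup Y] [NormedSpace ℂ Y] {φ : α → ℂ} {U : Set ℂ} {τ : ℝ}
  {s q r : ℝ≥0∞} [Fact (1 ≤ s)] [Fact (1 ≤ q)] [Fact (1 ≤ r)] [ENNReal.HolderTriple s q r]

/-- the continuous resolvent -/
noncomputable def MM (Y : Type) [NormedAddCommGroup Y] [NormedSpace ℂ Y] (μ : Measure α)
    [IsFiniteMeasure μ] (s q r : ℝ≥0∞) [Fact (1 ≤ s)] [Fact (1 ≤ q)] [Fact (1 ≤ r)]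
    [ENNReal.HolderTriple s q r] (φ : α → ℂ) (z : ℂ) : Lp Y q μ →L[ℂ] Lp Y r μ :=
  mL Y μ s q r (kL s μ φ z)

lemma tau_pos (hsτ : s < ENNReal.ofReal τ) : 0 < τ := by
  have hs1 : (1 : ℝ≥0∞) ≤ s := Fact.out
  have h1 : (0 : ℝ≥0∞) < ENNReal.ofReal τ := (one_pos.trans_le hs1).trans hsτ
  exact ENNReal.ofReal_pos.1 h1

lemma MM_coe (h : Dim μ φ U τ) (hsτ : s < ENNReal.ofReal τ) {z : ℂ} (hz : z ∈ U) (f : Lp Y q μ) :
    MM Y μ s q r φ z f =ᵐ[μ] fun x => (z - φ x)⁻¹ • f x := by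
  filter_upwards [mL_coe (r := r) (kL s μ φ z) f,
    kL_coe (h.memLp (tau_pos hsτ) hsτ.le hz)] with x h1 h2
  show (mL Y μ s q r (kL s μ φ z) f) x = _
  rw [h1, h2]

theorem sysP (h : Dim μ φ U τ) (hsτ : s < ENNReal.ofReal τ) (hτ2 : τ < 2) (hrq : r ≤ q) :
    Sys (inc Y μ hrq) (NN Y μ q φ) (NN Y μ r φ) (MM Y μ s q r φ) U where
  opn := h.opn
  inj := inc_inj hrq
  inter := fun f => by
    refine Lp.ext ?_
    filter_upwards [inc_coe hrq (NN Y μ q φ f), NN_coe h.memLp_top f, inc_coe hrq f,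
      NN_coe h.memLp_top (inc Y μ hrq f)] with x h1 h2 h3 h4
    rw [h1, h2, h4, h3]
  cont := (mL Y μ s q r).continuous.comp_continuousOn (h.kL_cont hsτ hτ2)
  res := fun z hz f => by
    refine Lp.ext ?_
    filter_upwards [Lp.coeFn_sub (z • MM Y μ s q r φ z f) (NN Y μ r φ (MM Y μ s q r φ z f)),
      Lp.coeFn_smul z (MM Y μ s q r φ z f), NN_coe h.memLp_top (MM Y μ s q r φ z f),
      MM_coe (q := q) (r := r) h hsτ hz f, inc_coe hrq f, h.ae_ne (tau_pos hsτ) hz] with x h1 h2 h3 h4 h5 h6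
    rw [h1, Pi.sub_apply, h2, Pi.smul_apply, h3, h4, h5, ← sub_smul, smul_smul, mul_inv_cancel₀ h6,
      one_smul]

variable [CompleteSpace Y]

lemma formula_simple (h : Dim μ φ U τ) (hsτ : s < ENNReal.ofReal τ) (hτ2 : τ < 2) (l : Measure ℂ)
    [IsFiniteMeasureOnCompacts l] [SFinite l] {a : ℂ} {R : ℝ} (hR : 0 < R) (hU : closedBall a R ⊆ U)
    (hD : Den l (ball a R) 1) (t : SimpleFunc ℂ (Lp Y q μ)) (ht : ∀ z, z ∉ ball a R → t z = 0) :
    (∫ z, MM Y μ s q r φ z (t z) ∂l : Lp Y r μ) =ᵐ[μ] fun x => ∑ f ∈ t.range,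
      (∫ z, (t ⁻¹' {f} ∩ ball a R).indicator (fun _ => (1 : ℂ)) z * (z - φ x)⁻¹ ∂l) • f x := by
  have hsum : ∀ z, MM Y μ s q r φ z (t z) = ∑ f ∈ t.range,
      (t ⁻¹' {f} ∩ ball a R).indicator (fun _ => (1 : ℂ)) z • MM Y μ s q r φ z f := by
    intro z
    by_cases hz : z ∈ ball a R
    · rw [Finset.sum_eq_single (t z)]
      · rw [indicator_of_mem (show z ∈ t ⁻¹' {t z} ∩ ball a R from ⟨rfl, hz⟩), one_smul]
      · intro f _ hf
        rw [indicator_of_notMem, zero_smul]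
        rintro ⟨h1, _⟩
        exact hf h1.symm
      · intro h1
        exact absurd (SimpleFunc.mem_range_self t z) h1
    · rw [ht z hz, map_zero]
      symm
      refine Finset.sum_eq_zero fun f _ => ?_
      rw [indicator_of_notMem (fun h1 => hz h1.2), zero_smul]
  have hgm : ∀ f : Lp Y q μ, Measurable ((t ⁻¹' {f} ∩ ball a R).indicator (fun _ => (1 : ℂ))) := fun f =>
    measurable_const.indicator ((t.measurableSet_fiber f).inter measurableSet_ball)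
  have hgb : ∀ (f : Lp Y q μ) (z : ℂ),
      ‖(t ⁻¹' {f} ∩ ball a R).indicator (fun _ => (1 : ℂ)) z‖ ≤ 1 := by
    intro f z
    by_cases hz : z ∈ t ⁻¹' {f} ∩ ball a R
    · rw [indicator_of_mem hz, norm_one]
    · rw [indicator_of_notMem hz, norm_zero]; exact zero_le_one
  have hg0 : ∀ (f : Lp Y q μ) (z : ℂ), z ∉ ball a R →
      (t ⁻¹' {f} ∩ ball a R).indicator (fun _ => (1 : ℂ)) z = 0 := fun f z hz =>
    indicator_of_notMem (fun h1 => hz h1.2) _
  have hMc : ContinuousOn (MM Y μ s q r φ) U :=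
    (mL Y μ s q r).continuous.comp_continuousOn (h.kL_cont hsτ hτ2)
  have e1 : (∫ z, MM Y μ s q r φ z (t z) ∂l : Lp Y r μ) = ∑ f ∈ t.range,
      ∫ z, (t ⁻¹' {f} ∩ ball a R).indicator (fun _ => (1 : ℂ)) z • MM Y μ s q r φ z f ∂l := by
    simp_rw [hsum]
    rw [integral_finsetSum]
    intro f _
    exact integ_smul (k := fun z => MM Y μ s q r φ z f) h.opn
      (hMc.clm_apply continuousOn_const) hR hU l (hgm f) (hgb f) (hg0 f)
  rw [e1]
  have e2 : ∀ f ∈ t.range,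
      (∫ z, (t ⁻¹' {f} ∩ ball a R).indicator (fun _ => (1 : ℂ)) z • MM Y μ s q r φ z f ∂l :
        Lp Y r μ) =ᵐ[μ] fun x =>
        (∫ z, (t ⁻¹' {f} ∩ ball a R).indicator (fun _ => (1 : ℂ)) z * (z - φ x)⁻¹ ∂l) • f x :=
    fun f _ => scalM h hsτ hτ2 l hR hU hD (hgm f) (hgb f) (hg0 f) f
  have e3 : ∀ᵐ x ∂μ, ∀ f ∈ t.range,
      (∫ z, (t ⁻¹' {f} ∩ ball a R).indicator (fun _ => (1 : ℂ)) z • MM Y μ s q r φ z f ∂l :
        Lp Y r μ) x =
        (∫ z, (t ⁻¹' {f} ∩ ball a R).indicator (fun _ => (1 : ℂ)) z * (z - φ x)⁻¹ ∂l) • f x := by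
    rw [eventually_all_finset]
    exact e2
  filter_upwards [Lp.coeFn_finsetSum t.range (fun f => (∫ z, (t ⁻¹' {f} ∩ ball a R).indicator
    (fun _ => (1 : ℂ)) z • MM Y μ s q r φ z f ∂l : Lp Y r μ)), e3] with x h1 h2
  rw [h1, Finset.sum_apply]
  exact Finset.sum_congr rfl h2

/-- the estimate for simple functions -/
lemma est_simple (h : Dim μ φ U τ) (hsτ : s < ENNReal.ofReal τ) (hτ2 : τ < 2) (hqt : q ≠ ∞)
    {q' : ℝ} (hq' : q.toReal.HolderConjugate q') (l : Measure ℂ)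
    [IsFiniteMeasureOnCompacts l] [SFinite l] {a : ℂ} {R : ℝ} (hR : 0 < R) (hU : closedBall a R ⊆ U)
    (hD1 : Den l (ball a R) 1) {D : ℝ≥0∞}
    (hD : ∀ w : ℂ, ∫⁻ z in ball a R, ‖z - w‖ₑ ^ (-q') ∂l ≤ D)
    (t : SimpleFunc ℂ (Lp Y q μ)) (ht : ∀ z, z ∉ ball a R → t z = 0) :
    ∫⁻ x, ‖(∫ z, MM Y μ s q r φ z (t z) ∂l : Lp Y r μ) x‖ₑ ^ q.toReal ∂μ ≤
      (D ^ (1 / q')) ^ q.toReal * ∫⁻ z, ‖t z‖ₑ ^ q.toReal ∂l := by
  set κ := q.toReal with hκ
  have hκ0 : 0 < κ := hq'.pos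
  have hq0 : 0 < q' := hq'.symm.pos
  -- pointwise bound
  have hpt : ∀ x, ‖∑ f ∈ t.range, (∫ z, (t ⁻¹' {f} ∩ ball a R).indicator (fun _ => (1 : ℂ)) z *
      (z - φ x)⁻¹ ∂l) • f x‖ₑ ≤ ∫⁻ z in ball a R, ‖z - φ x‖ₑ ^ (-1 : ℝ) * ‖(t z) x‖ₑ ∂l := by
    intro x
    refine (enorm_sum_le _ _).trans ?_
    have e1 : ∀ f ∈ t.range, ‖(∫ z, (t ⁻¹' {f} ∩ ball a R).indicator (fun _ => (1 : ℂ)) z *
        (z - φ x)⁻¹ ∂l) • f x‖ₑ ≤ ∫⁻ z in ball a R, (t ⁻¹' {f}).indicator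
          (fun z => ‖z - φ x‖ₑ ^ (-1 : ℝ) * ‖f x‖ₑ) z ∂l := by
      intro f _
      rw [enorm_smul]
      have e2 : ‖∫ z, (t ⁻¹' {f} ∩ ball a R).indicator (fun _ => (1 : ℂ)) z * (z - φ x)⁻¹ ∂l‖ₑ ≤
          ∫⁻ z in ball a R, (t ⁻¹' {f}).indicator (fun z => ‖z - φ x‖ₑ ^ (-1 : ℝ)) z ∂l := by
        refine (enorm_integral_le_lintegral_enorm _).trans ?_
        rw [← lintegral_indicator measurableSet_ball]
        refine lintegral_mono fun z => ?_
        by_cases hz : z ∈ ball a R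
        · rw [indicator_of_mem hz]
          by_cases hz2 : z ∈ t ⁻¹' {f}
          · rw [indicator_of_mem hz2, indicator_of_mem (show z ∈ t ⁻¹' {f} ∩ ball a R from ⟨hz2, hz⟩),
              one_mul, ENNReal.rpow_neg_one]
            exact enorm_inv_le' _
          · rw [indicator_of_notMem (fun h1 => hz2 h1.1), zero_mul, enorm_zero]
            exact zero_le
        · rw [indicator_of_notMem (fun h1 => hz h1.2), zero_mul, enorm_zero]
          exact zero_le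
      refine (mul_le_mul_left e2 _).trans ?_
      rw [← lintegral_mul_const]
      · refine lintegral_mono fun z => ?_
        by_cases hz2 : z ∈ t ⁻¹' {f}
        · rw [indicator_of_mem hz2, indicator_of_mem hz2]
        · rw [indicator_of_notMem hz2, indicator_of_notMem hz2, zero_mul]
      · exact Measurable.indicator ((measurable_id.sub_const _).enorm.pow_const _) (t.measurableSet_fiber f)
    refine (Finset.sum_le_sum e1).trans ?_
    rw [← lintegral_finsetSum]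
    · refine lintegral_mono fun z => ?_
      rw [Finset.sum_eq_single (t z)]
      · rw [indicator_of_mem (show z ∈ t ⁻¹' {t z} from rfl)]
      · intro f _ hf
        rw [indicator_of_notMem]
        intro h1
        exact hf h1.symm
      · intro h1
        exact absurd (SimpleFunc.mem_range_self t z) h1
    · intro f _
      exact Measurable.indicator (((measurable_id.sub_const _).enorm.pow_const _).mul_const _)
        (t.measurableSet_fiber f)
  have hpt2 : ∀ x, ‖∑ f ∈ t.range, (∫ z, (t ⁻¹' {f} ∩ ball a R).indicator (fun _ => (1 : ℂ)) z *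
      (z - φ x)⁻¹ ∂l) • f x‖ₑ ^ κ ≤ (D ^ (1 / q')) ^ κ *
        ∑ f ∈ t.range, ‖f x‖ₑ ^ κ * (l.restrict (ball a R)) (t ⁻¹' {f}) := by
    intro x
    have hmt : Measurable (fun z => ‖(t z) x‖ₑ) := (t.map (fun f : Lp Y q μ => ‖f x‖ₑ)).measurable
    have e1 := ENNReal.lintegral_mul_le_Lp_mul_Lq (l.restrict (ball a R)) hq'.symm
      (f := fun z => ‖z - φ x‖ₑ ^ (-1 : ℝ)) (g := fun z => ‖(t z) x‖ₑ)
      ((measurable_id.sub_const _).enorm.pow_const _).aemeasurable hmt.aemeasurable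
    have e2 : ∫⁻ z in ball a R, (‖z - φ x‖ₑ ^ (-1 : ℝ)) ^ q' ∂l ≤ D := by
      refine le_trans (le_of_eq ?_) (hD (φ x))
      refine lintegral_congr fun z => ?_
      rw [← ENNReal.rpow_mul, neg_one_mul]
    have e3 : ∫⁻ z in ball a R, ‖(t z) x‖ₑ ^ κ ∂l =
        ∑ f ∈ t.range, ‖f x‖ₑ ^ κ * (l.restrict (ball a R)) (t ⁻¹' {f}) := by
      rw [← SimpleFunc.map_lintegral (fun f : Lp Y q μ => ‖f x‖ₑ ^ κ) t,
        ← SimpleFunc.lintegral_eq_lintegral]
      rfl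
    have e4 : ‖∑ f ∈ t.range, (∫ z, (t ⁻¹' {f} ∩ ball a R).indicator (fun _ => (1 : ℂ)) z *
        (z - φ x)⁻¹ ∂l) • f x‖ₑ ≤ D ^ (1 / q') *
        (∑ f ∈ t.range, ‖f x‖ₑ ^ κ * (l.restrict (ball a R)) (t ⁻¹' {f})) ^ (1 / κ) := by
      refine (hpt x).trans (e1.trans ?_)
      rw [e3]
      gcongr
    refine (ENNReal.rpow_le_rpow e4 hκ0.le).trans (le_of_eq ?_)
    rw [ENNReal.mul_rpow_of_nonneg _ _ hκ0.le, ← ENNReal.rpow_mul _ (1 / κ), one_div_mul_cancel hκ0.ne',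
      ENNReal.rpow_one]
  have hnorm : ∀ f : Lp Y q μ, ∫⁻ x, ‖f x‖ₑ ^ κ ∂μ = ‖f‖ₑ ^ κ := by
    intro f
    have hq0' : q ≠ 0 := by
      intro h0
      rw [hκ, h0] at hκ0
      simp at hκ0
    rw [Lp.enorm_def, eLpNorm_eq_lintegral_rpow_enorm_toReal hq0' hqt, ← ENNReal.rpow_mul,
      one_div_mul_cancel hκ0.ne', ENNReal.rpow_one]
  calc ∫⁻ x, ‖(∫ z, MM Y μ s q r φ z (t z) ∂l : Lp Y r μ) x‖ₑ ^ κ ∂μ
      = ∫⁻ x, ‖∑ f ∈ t.range, (∫ z, (t ⁻¹' {f} ∩ ball a R).indicator (fun _ => (1 : ℂ)) z *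
        (z - φ x)⁻¹ ∂l) • f x‖ₑ ^ κ ∂μ := by
        refine lintegral_congr_ae ?_
        filter_upwards [formula_simple (r := r) h hsτ hτ2 l hR hU hD1 t ht] with x hx
        rw [hx]
    _ ≤ ∫⁻ x, (D ^ (1 / q')) ^ κ *
        ∑ f ∈ t.range, ‖f x‖ₑ ^ κ * (l.restrict (ball a R)) (t ⁻¹' {f}) ∂μ := lintegral_mono hpt2
    _ = (D ^ (1 / q')) ^ κ * ∑ f ∈ t.range, ‖f‖ₑ ^ κ * (l.restrict (ball a R)) (t ⁻¹' {f}) := by
        have hm : ∀ f : Lp Y q μ, AEMeasurable (fun x => ‖f x‖ₑ ^ κ * (l.restrict (ball a R)) (t ⁻¹' {f})) μ :=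
          fun f => ((Lp.aestronglyMeasurable f).enorm.pow_const κ).mul_const _
        rw [lintegral_const_mul'', lintegral_finsetSum' _ (fun f _ => hm f)]
        · congr 1
          refine Finset.sum_congr rfl fun f _ => ?_
          rw [lintegral_mul_const'' _ ((Lp.aestronglyMeasurable f).enorm.pow_const κ), hnorm]
        · exact Finset.aemeasurable_fun_sum _ fun f _ => hm f
    _ = (D ^ (1 / q')) ^ κ * ∫⁻ z in ball a R, ‖t z‖ₑ ^ κ ∂l := by
        congr 1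
        rw [← SimpleFunc.map_lintegral (fun f : Lp Y q μ => ‖f‖ₑ ^ κ) t,
          ← SimpleFunc.lintegral_eq_lintegral]
        rfl
    _ ≤ _ := by
        gcongr
        exact Measure.restrict_le_self

/-- integrated vectors are in `L^q` -/
theorem intgP (h : Dim μ φ U τ) (hsτ : s < ENNReal.ofReal τ) (hτ2 : τ < 2) (hqt : q ≠ ∞)
    (hrq : r ≤ q) {q' : ℝ} (hq' : q.toReal.HolderConjugate q') (l : Measure ℂ)
    [IsFiniteMeasureOnCompacts l] [SFinite l] {a : ℂ} {R : ℝ} (hR : 0 < R) (hU : closedBall a R ⊆ U)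
    (hD : Den l (ball a R) q') :
    IntgK q.toReal (inc Y μ hrq) (MM Y μ s q r φ) (ball a R) l := by
  have hlB : l (ball a R) ≠ ∞ :=
    (lt_of_le_of_lt (measure_mono ball_subset_closedBall) (isCompact_closedBall a R).measure_lt_top).ne
  have hD1 : Den l (ball a R) 1 := hD.mono hlB one_pos hq'.symm.lt.le
  obtain ⟨D, hDt, hDD⟩ := hD
  set κ := q.toReal with hκ
  have hκ1 : 1 < κ := hq'.lt
  have hκ0 : 0 < κ := hq'.pos
  have hq0 : 0 < q' := hq'.symm.pos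
  set C : ℝ≥0∞ := (D ^ (1 / q')) ^ κ * 2 ^ κ with hC
  have hCt : C ≠ ∞ := by
    refine ENNReal.mul_ne_top ?_ ?_
    · exact ENNReal.rpow_ne_top_of_nonneg hκ0.le (ENNReal.rpow_ne_top_of_nonneg (by positivity) hDt)
    · exact ENNReal.rpow_ne_top_of_nonneg hκ0.le (by simp)
  refine ⟨C.toReal, ENNReal.toReal_nonneg, fun y b hy hb h0 => ?_⟩
  letI : MeasurableSpace (Lp Y q μ) := borel _
  haveI : BorelSpace (Lp Y q μ) := ⟨rfl⟩
  haveI : TopologicalSpace.SeparableSpace (range y ∪ {0} : Set (Lp Y q μ)) :=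
    hy.separableSpace_range_union_singleton
  set t : ℕ → SimpleFunc ℂ (Lp Y q μ) := fun n =>
    SimpleFunc.approxOn y hy.measurable (range y ∪ {0}) 0 (by simp) n with ht
  have ht1 : ∀ n z, ‖t n z‖ ≤ ‖y z‖ + ‖y z‖ := fun n z =>
    SimpleFunc.norm_approxOn_zero_le hy.measurable (by simp) z n
  have ht2 : ∀ z, Tendsto (fun n => t n z) atTop (𝓝 (y z)) := fun z =>
    SimpleFunc.tendsto_approxOn hy.measurable (by simp) (subset_closure (Or.inl ⟨z, rfl⟩))
  have ht0 : ∀ n z, z ∉ ball a R → t n z = 0 := by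
    intro n z hz
    have := ht1 n z
    rw [h0 z hz, norm_zero, add_zero] at this
    exact norm_le_zero_iff.1 this
  have hMc : ContinuousOn (MM Y μ s q r φ) U :=
    (mL Y μ s q r).continuous.comp_continuousOn (h.kL_cont hsτ hτ2)
  obtain ⟨BM, hBM⟩ : ∃ B : ℝ, ∀ z ∈ closedBall a R, ‖MM Y μ s q r φ z‖ ≤ B :=
    (isCompact_closedBall a R).exists_bound_of_continuousOn (hMc.mono hU)
  have hBM0 : 0 ≤ BM := (norm_nonneg _).trans (hBM a (mem_closedBall_self hR.le))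
  have hb0 : 0 ≤ b := (norm_nonneg _).trans (hb 0)
  have ht1' : ∀ n z, ‖t n z‖ ≤ b + b := fun n z => (ht1 n z).trans (add_le_add (hb z) (hb z))
  -- convergence of the integrals
  have hlim : Tendsto (fun n => (∫ z, MM Y μ s q r φ z (t n z) ∂l : Lp Y r μ)) atTop
      (𝓝 (∫ z, MM Y μ s q r φ z (y z) ∂l)) := by
    refine tendsto_integral_of_dominated_convergence
      (fun z => (ball a R).indicator (fun _ => BM * (b + b)) z) ?_ ?_ ?_ ?_
    · intro n
      exact (integ h.opn hMc hR hU l (t n).stronglyMeasurable (ht1' n) (ht0 n)).aestronglyMeasurable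
    · rw [integrable_indicator_iff measurableSet_ball]
      exact integrableOn_const hlB
    · intro n
      refine Eventually.of_forall fun z => ?_
      by_cases hz : z ∈ ball a R
      · rw [indicator_of_mem hz]
        exact (ContinuousLinearMap.le_opNorm _ _).trans
          (mul_le_mul (hBM z (ball_subset_closedBall hz)) (ht1' n z) (norm_nonneg _) hBM0)
      · rw [indicator_of_notMem hz, ht0 n z hz, map_zero, norm_zero]
    · refine Eventually.of_forall fun z => ?_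
      exact ((MM Y μ s q r φ z).continuous.tendsto _).comp (ht2 z)
  obtain ⟨ns, -, hns⟩ := (tendstoInMeasure_of_tendsto_Lp hlim).exists_seq_tendsto_ae
  have hq0' : q ≠ 0 := by
    intro h0
    rw [hκ, h0] at hκ0
    simp at hκ0
  set H : Lp Y r μ := ∫ z, MM Y μ s q r φ z (y z) ∂l with hH
  set I : ℝ≥0∞ := ∫⁻ z, ‖y z‖ₑ ^ κ ∂l with hI
  have hle : ∀ n, eLpNorm (fun x => (∫ z, MM Y μ s q r φ z (t n z) ∂l : Lp Y r μ) x) q μ ≤
      (C * I) ^ (1 / κ) := by
    intro n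
    rw [eLpNorm_eq_lintegral_rpow_enorm_toReal hq0' hqt]
    refine ENNReal.rpow_le_rpow ?_ (by positivity)
    refine (est_simple (r := r) h hsτ hτ2 hqt hq' l hR hU hD1 hDD (t n) (ht0 n)).trans ?_
    rw [hC, mul_assoc]
    refine mul_le_mul' le_rfl ?_
    calc ∫⁻ z, ‖t n z‖ₑ ^ κ ∂l ≤ ∫⁻ z, 2 ^ κ * ‖y z‖ₑ ^ κ ∂l := by
          refine lintegral_mono fun z => ?_
          rw [← ENNReal.mul_rpow_of_nonneg _ _ hκ0.le]
          refine ENNReal.rpow_le_rpow ?_ hκ0.le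
          have h1 := ENNReal.ofReal_le_ofReal (ht1 n z)
          rw [ofReal_norm, ENNReal.ofReal_add (norm_nonneg _) (norm_nonneg _), ofReal_norm] at h1
          rw [two_mul]
          exact h1
      _ = 2 ^ κ * I := lintegral_const_mul _ (hy.enorm.pow_const κ)
  have hle2 : eLpNorm H q μ ≤ (C * I) ^ (1 / κ) := by
    refine (Lp.eLpNorm_lim_le_liminf_eLpNorm (f := fun n x =>
      (∫ z, MM Y μ s q r φ z (t (ns n) z) ∂l : Lp Y r μ) x)
      (fun n => Lp.aestronglyMeasurable _) H hns).trans ?_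
    calc liminf (fun n => eLpNorm (fun x => (∫ z, MM Y μ s q r φ z (t (ns n) z) ∂l : Lp Y r μ) x) q μ)
          atTop ≤ liminf (fun _ : ℕ => (C * I) ^ (1 / κ)) atTop :=
          liminf_le_liminf (Eventually.of_forall fun n => hle (ns n))
      _ = (C * I) ^ (1 / κ) := liminf_const _
  have hIreal : I = ENNReal.ofReal (∫ z, ‖y z‖ ^ κ ∂l) := int_rpow l hlB hκ0 hy hb h0
  have hIt : I ≠ ∞ := by rw [hIreal]; exact ENNReal.ofReal_ne_top
  have hCI : (C * I) ^ (1 / κ) ≠ ∞ :=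
    ENNReal.rpow_ne_top_of_nonneg (by positivity) (ENNReal.mul_ne_top hCt hIt)
  have hmem : MemLp H q μ := ⟨Lp.aestronglyMeasurable H, lt_of_le_of_lt hle2 (lt_top_iff_ne_top.2 hCI)⟩
  refine ⟨hmem.toLp H, ?_, ?_⟩
  · refine Lp.ext ?_
    exact (inc_coe hrq _).trans hmem.coeFn_toLp
  · have h1 : ‖hmem.toLp H‖ ≤ ((C * I) ^ (1 / κ)).toReal := by
      rw [Lp.norm_toLp]
      exact ENNReal.toReal_mono hCI hle2
    have h2 : ‖hmem.toLp H‖ ^ κ ≤ (((C * I) ^ (1 / κ)).toReal) ^ κ :=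
      Real.rpow_le_rpow (norm_nonneg _) h1 hκ0.le
    refine h2.trans (le_of_eq ?_)
    rw [ENNReal.toReal_rpow, ← ENNReal.rpow_mul, one_div_mul_cancel hκ0.ne', ENNReal.rpow_one,
      ENNReal.toReal_mul, hIreal, ENNReal.toReal_ofReal]
    exact integral_nonneg fun z => by positivity

end Pool.Agent.N226.FM
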