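import Pool.Agent.N226.FM.Con3
import Pool.Agent.N226.FM.Cpt

/-!
# The dual system
-/

set_option autoImplicit false

namespace Pool.Agent.N226.FM

open MeasureTheory Set Metric Filter Topology
open scoped ENNReal NNReal
open Pool.Agent.R277.SP (ad ad_apply2)

section abs

variable {E F : Type} [NormedAddCommGroup E] [NormedSpace ℂ E]
  [NormedAddCommGroup F] [NormedSpace ℂ F]

theorem sysD {i : E →L[ℂ] F} {NE : E →L[ℂ] E} {NF : F →L[ℂ] F} {M : ℂ → (E →L[ℂ] F)} {U : Set ℂ}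
    (hS : Sys i NE NF M U) (hd : DenseRange i) (hc : ∀ z ∈ U, ∀ x, M z (NE x) = NF (M z x)) :
    Sys (pre i) (ad NF) (ad NE) (fun z => pre (M z)) U where
  opn := hS.opn
  inj := fun η hη => by
    ext y
    have h1 : IsClosed {y : F | η y = (0 : F →L[ℂ] ℂ) y} := isClosed_eq η.continuous continuous_const
    have h2 : Set.range i ⊆ {y : F | η y = (0 : F →L[ℂ] ℂ) y} := by
      rintro _ ⟨x, rfl⟩
      exact congrArg (fun L : E →L[ℂ] ℂ => L x) hη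
    exact closure_minimal h2 h1 (hd y)
  inter := fun η => by
    ext x
    show η (NF (i x)) = η (i (NE x))
    rw [hS.inter]
  cont := (ContinuousLinearMap.compL ℂ E F ℂ).flip.continuous.comp_continuousOn hS.cont
  res := fun z hz η => by
    ext x
    show z • η (M z x) - η (M z (NE x)) = η (i x)
    rw [hc z hz, ← hS.res z hz, map_sub, map_smul]

end abs

variable {α : Type} [MeasurableSpace α] {μ : Measure α} [IsFiniteMeasure μ] {Y : Type}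
  [NormedAddCommGroup Y] [NormedSpace ℂ Y] {φ : α → ℂ} {U : Set ℂ} {τ : ℝ}
  {s q r : ℝ≥0∞} [Fact (1 ≤ s)] [Fact (1 ≤ q)] [Fact (1 ≤ r)] [ENNReal.HolderTriple s q r]

lemma MM_comm (h : Dim μ φ U τ) (hsτ : s < ENNReal.ofReal τ) {z : ℂ} (hz : z ∈ U) (f : Lp Y q μ) :
    MM Y μ s q r φ z (NN Y μ q φ f) = NN Y μ r φ (MM Y μ s q r φ z f) := by
  refine Lp.ext ?_
  filter_upwards [MM_coe (r := r) h hsτ hz (NN Y μ q φ f), NN_coe h.memLp_top f,
    NN_coe h.memLp_top (MM Y μ s q r φ z f), MM_coe (r := r) h hsτ hz f] with x h1 h2 h3 h4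
  rw [h1, h2, h3, h4, smul_smul, smul_smul, mul_comm]

/-- the key estimate -/
lemma est_dual (h : Dim μ φ U τ) (hsτ : s < ENNReal.ofReal τ) (hrt : r ≠ ∞)
    (hrq : r ≤ q) (l : Measure ℂ) [SFinite l] {a : ℂ} {R : ℝ} (hU : closedBall a R ⊆ U) {D : ℝ≥0∞}
    (hD : ∀ w : ℂ, ∫⁻ z in ball a R, ‖z - w‖ₑ ^ (-r.toReal) ∂l ≤ D) (f : Lp Y q μ) :
    ∫⁻ z in ball a R, ‖MM Y μ s q r φ z f‖ₑ ^ r.toReal ∂l ≤ D * ‖inc Y μ hrq f‖ₑ ^ r.toReal := by
  have hr1 : (1 : ℝ≥0∞) ≤ r := Fact.out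
  have hr0 : r ≠ 0 := (one_pos.trans_le hr1).ne'
  have hρ : 0 < r.toReal := ENNReal.toReal_pos hr0 hrt
  set ρ := r.toReal with hρdef
  have hnorm : ∀ f : Lp Y r μ, ‖f‖ₑ ^ ρ = ∫⁻ x, ‖f x‖ₑ ^ ρ ∂μ := by
    intro f
    rw [Lp.enorm_def, eLpNorm_eq_lintegral_rpow_enorm_toReal hr0 hrt, ← ENNReal.rpow_mul,
      one_div_mul_cancel hρ.ne', ENNReal.rpow_one]
  have hfm : Measurable (fun x => ‖f x‖ₑ) := (Lp.stronglyMeasurable f).enorm
  have hm : Measurable (fun p : ℂ × α => ‖p.1 - φ p.2‖ₑ ^ (-ρ) * ‖f p.2‖ₑ ^ ρ) :=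
    ((measurable_fst.sub (h.meas.comp measurable_snd)).enorm.pow_const _).mul
      ((hfm.comp measurable_snd).pow_const _)
  calc ∫⁻ z in ball a R, ‖MM Y μ s q r φ z f‖ₑ ^ ρ ∂l
      ≤ ∫⁻ z in ball a R, ∫⁻ x, ‖z - φ x‖ₑ ^ (-ρ) * ‖f x‖ₑ ^ ρ ∂μ ∂l := by
        refine setLIntegral_mono' measurableSet_ball fun z hz => ?_
        rw [hnorm]
        refine lintegral_mono_ae ?_
        filter_upwards [MM_coe (r := r) h hsτ (hU (ball_subset_closedBall hz)) f] with x hx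
        rw [hx, enorm_smul, ENNReal.mul_rpow_of_nonneg _ _ hρ.le]
        exact mul_le_mul' (enorm_inv_rpow_le _ hρ.le) le_rfl
    _ = ∫⁻ x, ∫⁻ z in ball a R, ‖z - φ x‖ₑ ^ (-ρ) * ‖f x‖ₑ ^ ρ ∂l ∂μ :=
        lintegral_lintegral_swap hm.aemeasurable
    _ = ∫⁻ x, (∫⁻ z in ball a R, ‖z - φ x‖ₑ ^ (-ρ) ∂l) * ‖f x‖ₑ ^ ρ ∂μ := by
        refine lintegral_congr fun x => ?_
        exact lintegral_mul_const _ ((measurable_id.sub_const _).enorm.pow_const _)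
    _ ≤ ∫⁻ x, D * ‖f x‖ₑ ^ ρ ∂μ := by
        refine lintegral_mono fun x => ?_
        exact mul_le_mul' (hD _) le_rfl
    _ = D * ∫⁻ x, ‖f x‖ₑ ^ ρ ∂μ := lintegral_const_mul _ (hfm.pow_const _)
    _ = D * ‖inc Y μ hrq f‖ₑ ^ ρ := by
        rw [hnorm]
        congr 1
        refine lintegral_congr_ae ?_
        filter_upwards [inc_coe hrq f] with x hx
        rw [hx]

/-- integrated functionals are in the dual of `L^r` -/
theorem intgD (h : Dim μ φ U τ) (hsτ : s < ENNReal.ofReal τ) (hτ2 : τ < 2) (hrt : r ≠ ∞)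
    (hrq : r ≤ q) {r' : ℝ} (hr' : r.toReal.HolderConjugate r') (l : Measure ℂ)
    [IsFiniteMeasureOnCompacts l] [SFinite l] {a : ℂ} {R : ℝ} (hR : 0 < R) (hU : closedBall a R ⊆ U)
    (hD : Den l (ball a R) r.toReal) :
    IntgK r' (pre (inc Y μ hrq)) (fun z => pre (MM Y μ s q r φ z)) (ball a R) l := by
  have hlB : l (ball a R) ≠ ∞ :=
    (lt_of_le_of_lt (measure_mono ball_subset_closedBall) (isCompact_closedBall a R).measure_lt_top).ne
  obtain ⟨D, hDt, hDD⟩ := hD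
  set ρ := r.toReal with hρ
  have hρ0 : 0 < ρ := hr'.pos
  have hr0 : 0 < r' := hr'.symm.pos
  set C : ℝ≥0∞ := (D ^ (1 / ρ)) ^ r' with hC
  have hCt : C ≠ ∞ :=
    ENNReal.rpow_ne_top_of_nonneg hr0.le (ENNReal.rpow_ne_top_of_nonneg (by positivity) hDt)
  refine ⟨C.toReal, ENNReal.toReal_nonneg, fun y b hy hb h0 => ?_⟩
  have hMc : ContinuousOn (MM Y μ s q r φ) U :=
    (mL Y μ s q r).continuous.comp_continuousOn (h.kL_cont hsτ hτ2)
  have hMc' : ContinuousOn (fun z => pre (MM Y μ s q r φ z)) U := pre_cont hMc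
  have hint : Integrable (fun z => pre (MM Y μ s q r φ z) (y z)) l :=
    integ h.opn hMc' hR hU l hy hb h0
  set H : Lp Y q μ →L[ℂ] ℂ := ∫ z, pre (MM Y μ s q r φ z) (y z) ∂l with hH
  set I : ℝ≥0∞ := ∫⁻ z, ‖y z‖ₑ ^ r' ∂l with hI
  have hIreal : I = ENNReal.ofReal (∫ z, ‖y z‖ ^ r' ∂l) := int_rpow l hlB hr0 hy hb h0
  have hIt : I ≠ ∞ := by rw [hIreal]; exact ENNReal.ofReal_ne_top
  have hbd : ∀ f : Lp Y q μ, ‖H f‖ₑ ≤ (I ^ (1 / r') * D ^ (1 / ρ)) * ‖inc Y μ hrq f‖ₑ := by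
    intro f
    have e1 : H f = ∫ z, y z (MM Y μ s q r φ z f) ∂l := ContinuousLinearMap.integral_apply hint f
    have hmM : AEMeasurable (fun z => ‖MM Y μ s q r φ z f‖ₑ) (l.restrict (ball a R)) := by
      have h1 : ContinuousOn (fun z => MM Y μ s q r φ z f) (ball a R) :=
        (hMc.mono (ball_subset_closedBall.trans hU)).clm_apply continuousOn_const
      exact (h1.aestronglyMeasurable measurableSet_ball).enorm
    calc ‖H f‖ₑ ≤ ∫⁻ z, ‖y z (MM Y μ s q r φ z f)‖ₑ ∂l := by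
          rw [e1]; exact enorm_integral_le_lintegral_enorm _
      _ ≤ ∫⁻ z in ball a R, ‖y z‖ₑ * ‖MM Y μ s q r φ z f‖ₑ ∂l := by
          rw [← lintegral_indicator measurableSet_ball]
          refine lintegral_mono fun z => ?_
          by_cases hz : z ∈ ball a R
          · rw [indicator_of_mem hz]
            exact (y z).le_opENorm _
          · rw [indicator_of_notMem hz, h0 z hz]
            simp
      _ ≤ (∫⁻ z in ball a R, ‖y z‖ₑ ^ r' ∂l) ^ (1 / r') *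
          (∫⁻ z in ball a R, ‖MM Y μ s q r φ z f‖ₑ ^ ρ ∂l) ^ (1 / ρ) :=
          ENNReal.lintegral_mul_le_Lp_mul_Lq _ hr'.symm hy.enorm.aemeasurable hmM
      _ ≤ I ^ (1 / r') * (D * ‖inc Y μ hrq f‖ₑ ^ ρ) ^ (1 / ρ) := by
          refine mul_le_mul' (ENNReal.rpow_le_rpow ?_ (by positivity))
            (ENNReal.rpow_le_rpow (est_dual h hsτ hrt hrq l hU hDD f) (by positivity))
          exact lintegral_mono' Measure.restrict_le_self le_rfl
      _ = (I ^ (1 / r') * D ^ (1 / ρ)) * ‖inc Y μ hrq f‖ₑ := by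
          rw [ENNReal.mul_rpow_of_nonneg _ _ (by positivity), ← ENNReal.rpow_mul,
            mul_one_div_cancel hρ0.ne', ENNReal.rpow_one, mul_assoc]
  have hct : I ^ (1 / r') * D ^ (1 / ρ) ≠ ∞ :=
    ENNReal.mul_ne_top (ENNReal.rpow_ne_top_of_nonneg (by positivity) hIt)
      (ENNReal.rpow_ne_top_of_nonneg (by positivity) hDt)
  set c : ℝ := (I ^ (1 / r') * D ^ (1 / ρ)).toReal with hc
  have hc0 : 0 ≤ c := ENNReal.toReal_nonneg
  have hbd2 : ∀ f : Lp Y q μ, ‖H f‖ ≤ c * ‖inc Y μ hrq f‖ := by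
    intro f
    have h1 := ENNReal.toReal_mono (ENNReal.mul_ne_top hct enorm_ne_top) (hbd f)
    rw [ENNReal.toReal_mul, toReal_enorm, toReal_enorm] at h1
    exact h1
  have hdense : DenseRange ((inc Y μ hrq : Lp Y q μ →L[ℂ] Lp Y r μ) : Lp Y q μ →ₗ[ℂ] Lp Y r μ) :=
    inc_dense hrq hrt
  set Z : Lp Y r μ →L[ℂ] ℂ := (H : Lp Y q μ →ₗ[ℂ] ℂ).extendOfNorm
    ((inc Y μ hrq : Lp Y q μ →L[ℂ] Lp Y r μ) : Lp Y q μ →ₗ[ℂ] Lp Y r μ) with hZ
  refine ⟨Z, ?_, ?_⟩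
  · ext f
    exact LinearMap.extendOfNorm_eq hdense ⟨c, hbd2⟩ f
  · have h1 : ‖Z‖ ≤ c := LinearMap.opNorm_extendOfNorm_le hdense hc0 hbd2
    refine (Real.rpow_le_rpow (norm_nonneg _) h1 hr0.le).trans (le_of_eq ?_)
    rw [hc, ENNReal.toReal_rpow, ENNReal.mul_rpow_of_nonneg _ _ hr0.le, ← ENNReal.rpow_mul I,
      one_div_mul_cancel hr0.ne', ENNReal.rpow_one, ← hC, mul_comm, ENNReal.toReal_mul, hIreal,
      ENNReal.toReal_ofReal]
    exact integral_nonneg fun z => by positivity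

end Pool.Agent.N226.FM
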