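import Pool.Agent.N226.FM.Thm

/-!
# The theorem on `L^p`
-/

set_option autoImplicit false

namespace Pool.Agent.N226.FM

open MeasureTheory Set Metric Filter Topology
open scoped ENNReal NNReal
open Pool.Agent.R277.SP (hPOM ad ad_apply2 Ch ann pow_of_rec)
open Pool.Agent.Y283.NK (HasHyp)

lemma ad_pow {X : Type} [NormedAddCommGroup X] [NormedSpace ℂ X] {T : X →L[ℂ] X} {c : ℂ}
    {W : ℕ → (X →L[ℂ] ℂ)} (hW1 : ∀ k, ad T (W k) - c • W k = W (k + 1)) (n : ℕ) (x : X) :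
    W n x = W 0 (((T - c • (1 : X →L[ℂ] X)) ^ n) x) := by
  induction n generalizing x with
  | zero => rfl
  | succ n ih =>
    rw [← hW1 n, pow_succ]
    show W n (T x) - c • W n x = W 0 (((T - c • (1 : X →L[ℂ] X)) ^ n) (T x - c • x))
    rw [← ih, map_sub, map_smul]

lemma pow_bound {X : Type} [NormedAddCommGroup X] [NormedSpace ℂ X] {T : X →L[ℂ] X} {c : ℂ}
    {ε D : ℝ} {W : ℕ → (X →L[ℂ] ℂ)} (hW1 : ∀ k, ad T (W k) - c • W k = W (k + 1))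
    (hW2 : ∀ k, ‖W k‖ ≤ D * ε ^ k) (n : ℕ) (x : X) :
    ‖W 0 (((T - c • (1 : X →L[ℂ] X)) ^ n) x)‖ ≤ D * ε ^ n * ‖x‖ := by
  rw [← ad_pow hW1]
  exact ((W n).le_opNorm x).trans (mul_le_mul_of_nonneg_right (hW2 n) (norm_nonneg _))

variable {α : Type} [MeasurableSpace α] {μ : Measure α} [IsFiniteMeasure μ] {φ : α → ℂ} {U : Set ℂ}
  {τ : ℝ} {Y : Type} [NormedAddCommGroup Y] [NormedSpace ℂ Y] [CompleteSpace Y]
  {Z : Type} [NormedAddCommGroup Z] [NormedSpace ℂ Z] [CompleteSpace Z] {R : Z →L[ℂ] Z}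
  {r p q : ℝ≥0∞} [Fact (1 ≤ r)] [Fact (1 ≤ p)] [Fact (1 ≤ q)]

/-- chains for `T` and its adjoint -/
theorem chains (h : Dim μ φ U τ) (hτ1 : 1 < τ) (hτ2 : τ < 2) (hY : ∃ y₀ : Y, ‖y₀‖ = 1)
    (hR : ∀ z ∈ U, z ∉ spectrum ℂ R) (hr : 1 < r) (hrp : r ≤ p) (hpq : p ≤ q) (hq : q ≠ ∞)
    (hgain : q⁻¹ + (ENNReal.ofReal τ)⁻¹ < r⁻¹)
    {K : (Lp Y r μ × Z) →L[ℂ] (Lp Y q μ × Z)} (hK : IsCompactOperator K)
    {T : (Lp Y p μ × Z) →L[ℂ] (Lp Y p μ × Z)}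
    (hT : ∀ (f : Lp Y p μ) (g : Lp Y r μ) (z : Z), g =ᵐ[μ] f →
      ((T (f, z)).1 =ᵐ[μ] fun x => φ x • f x + (K (g, z)).1 x) ∧ (T (f, z)).2 = R z + (K (g, z)).2)
    {c : ℂ} (hc : c ∈ U) (hcs : c ∈ (μ.map φ).support) {ε : ℝ} (hε : 0 < ε) :
    (∃ X : ℕ → Lp Y p μ × Z, Ch T c ε X ∧ X 0 ≠ 0) ∧
    (∃ X : ℕ → ((Lp Y p μ × Z) →L[ℂ] ℂ), Ch (ad T) c ε X ∧ X 0 ≠ 0) := by
  have hrq : r ≤ q := hrp.trans hpq
  have hrt : r ≠ ∞ := ne_top_of_le_ne_top hq hrq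
  obtain ⟨⟨X, ⟨hX1, C, hX2⟩, hX0⟩, ⟨W, ⟨hW1, D, hW2⟩, hW0⟩⟩ :=
    vecs h hτ1 hτ2 hY hR hr hrq hq hgain hK hc hcs hε
  set ι : (Lp Y q μ × Z) →L[ℂ] (Lp Y p μ × Z) := (inc Y μ hpq).prodMap 1 with hι
  set j : (Lp Y p μ × Z) →L[ℂ] (Lp Y r μ × Z) := (inc Y μ hrp).prodMap 1 with hj
  have hTE : ∀ x : Lp Y q μ × Z, T (ι x) =
      ι (((NN Y μ q φ).prodMap R + K ∘L (inc Y μ hrq).prodMap 1 :
        (Lp Y q μ × Z) →L[ℂ] (Lp Y q μ × Z)) x) := by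
    rintro ⟨f, z⟩
    have hg : inc Y μ hrq f =ᵐ[μ] inc Y μ hpq f := (inc_coe hrq f).trans (inc_coe hpq f).symm
    obtain ⟨h1, h2⟩ := hT (inc Y μ hpq f) (inc Y μ hrq f) z hg
    refine Prod.ext ?_ h2
    refine Lp.ext ?_
    have h3 : (ι (((NN Y μ q φ).prodMap R + K ∘L (inc Y μ hrq).prodMap 1 :
        (Lp Y q μ × Z) →L[ℂ] (Lp Y q μ × Z)) (f, z))).1 =
      inc Y μ hpq (NN Y μ q φ f + (K (inc Y μ hrq f, z)).1) := rfl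
    rw [h3]
    refine h1.trans ?_
    filter_upwards [inc_coe hpq (NN Y μ q φ f + (K (inc Y μ hrq f, z)).1),
      Lp.coeFn_add (NN Y μ q φ f) (K (inc Y μ hrq f, z)).1, NN_coe h.memLp_top f, inc_coe hpq f]
      with x e1 e2 e3 e4
    rw [e1, e2, Pi.add_apply, e3, e4]
  have hTF : ∀ x : Lp Y p μ × Z, j (T x) =
      ((NN Y μ r φ).prodMap R) (j x) + ((inc Y μ hrq).prodMap (1 : Z →L[ℂ] Z)) (K (j x)) := by
    rintro ⟨f, z⟩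
    have hg : inc Y μ hrp f =ᵐ[μ] f := inc_coe hrp f
    obtain ⟨h1, h2⟩ := hT f (inc Y μ hrp f) z hg
    refine Prod.ext ?_ h2
    refine Lp.ext ?_
    have h3 : (((NN Y μ r φ).prodMap R) (j (f, z)) +
      ((inc Y μ hrq).prodMap (1 : Z →L[ℂ] Z)) (K (j (f, z)))).1 =
      NN Y μ r φ (inc Y μ hrp f) + inc Y μ hrq (K (inc Y μ hrp f, z)).1 := rfl
    have h4 : (j (T (f, z))).1 = inc Y μ hrp (T (f, z)).1 := rfl
    rw [h3, h4]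
    filter_upwards [inc_coe hrp (T (f, z)).1, h1,
      Lp.coeFn_add (NN Y μ r φ (inc Y μ hrp f)) (inc Y μ hrq (K (inc Y μ hrp f, z)).1),
      NN_coe h.memLp_top (inc Y μ hrp f), inc_coe hrq (K (inc Y μ hrp f, z)).1, hg]
      with x e1 e2 e3 e4 e5 e6
    rw [e1, e2, e3, Pi.add_apply, e4, e5, e6]
  constructor
  · refine ⟨fun k => ι (X k), ⟨fun k => ?_, ‖ι‖ * C, fun k => ?_⟩, ?_⟩
    · show T (ι (X k)) - c • ι (X k) = ι (X (k + 1))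
      rw [hTE, ← map_smul, ← map_sub, hX1]
    · refine (ι.le_opNorm _).trans ?_
      rw [mul_assoc]
      exact mul_le_mul_of_nonneg_left (hX2 k) (norm_nonneg _)
    · intro h0
      apply hX0
      have h1 : inc Y μ hpq (X 0).1 = 0 := congrArg Prod.fst h0
      have h2 : (X 0).2 = 0 := congrArg Prod.snd h0
      exact Prod.ext (inc_inj hpq _ h1) h2
  · refine ⟨fun k => pre j (W k), ⟨fun k => ?_, ‖pre j‖ * D, fun k => ?_⟩, ?_⟩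
    · show ad T (pre j (W k)) - c • pre j (W k) = pre j (W (k + 1))
      rw [← hW1 k, map_sub, map_smul]
      congr 1
      refine ContinuousLinearMap.ext fun x => ?_
      show W k (j (T x)) = W k (((NN Y μ r φ).prodMap R) (j x)) +
        W k (((inc Y μ hrq).prodMap (1 : Z →L[ℂ] Z)) (K (j x)))
      rw [hTF, map_add]
    · refine ((pre j).le_opNorm _).trans ?_
      rw [mul_assoc]
      exact mul_le_mul_of_nonneg_left (hW2 k) (norm_nonneg _)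
    · intro h0
      apply hW0
      have hd : DenseRange j := dense_PZ hrp hrt
      refine ContinuousLinearMap.ext fun x => ?_
      have h1 : IsClosed {y : Lp Y r μ × Z | W 0 y = (0 : (Lp Y r μ × Z) →L[ℂ] ℂ) y} :=
        isClosed_eq (W 0).continuous continuous_const
      have h2 : Set.range j ⊆ {y : Lp Y r μ × Z | W 0 y = (0 : (Lp Y r μ × Z) →L[ℂ] ℂ) y} := by
        rintro _ ⟨x, rfl⟩
        exact congrArg (fun L : (Lp Y p μ × Z) →L[ℂ] ℂ => L x) h0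
      exact closure_minimal h2 h1 (hd x)

/-- two points of the support in `U` -/
lemma two_points (h : Dim μ φ U τ) (hτ : 0 < τ) (hμ : μ (φ ⁻¹' U) ≠ 0) :
    ∃ c₁ ∈ U, ∃ c₂ ∈ U, c₁ ∈ (μ.map φ).support ∧ c₂ ∈ (μ.map φ).support ∧ c₁ ≠ c₂ := by
  haveI : IsFiniteMeasure (μ.map φ) := Measure.isFiniteMeasure_map μ φ
  have hU : (μ.map φ) U ≠ 0 := by rwa [Measure.map_apply h.meas h.opn.measurableSet]
  have hS : (μ.map φ) ((μ.map φ).support)ᶜ = 0 := by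
    have h1 := Measure.support_mem_ae (μ := μ.map φ)
    rwa [mem_ae_iff] at h1
  have hle : ∀ V : Set ℂ, U ∩ (μ.map φ).support ⊆ V → (μ.map φ) V ≠ 0 := by
    intro V hV h0
    apply hU
    refine measure_mono_null (t := V ∪ ((μ.map φ).support)ᶜ) (fun z hz => ?_)
      (measure_union_null h0 hS)
    by_cases hz2 : z ∈ (μ.map φ).support
    · exact Or.inl (hV ⟨hz, hz2⟩)
    · exact Or.inr hz2
  obtain ⟨c₁, hc₁, hc₁s⟩ : (U ∩ (μ.map φ).support).Nonempty := by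
    by_contra hne
    rw [not_nonempty_iff_eq_empty] at hne
    exact hle ∅ hne.le measure_empty
  have hat : (μ.map φ) {c₁} = 0 := by
    rw [Measure.map_apply h.meas (measurableSet_singleton c₁)]
    have h1 := h.ae_ne hτ hc₁
    rw [ae_iff] at h1
    refine measure_mono_null (fun x hx => ?_) h1
    show ¬ (c₁ - φ x ≠ 0)
    rw [not_not, show φ x = c₁ from hx, sub_self]
  obtain ⟨c₂, hc₂, hne⟩ : ∃ c₂ ∈ U ∩ (μ.map φ).support, c₂ ≠ c₁ := by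
    by_contra hcon
    push Not at hcon
    exact hle {c₁} (fun z hz => hcon z hz) hat
  exact ⟨c₁, hc₁, c₂, hc₂.1, hc₁s, hc₂.2, hne.symm⟩

/-- the theorem -/
theorem main (h : Dim μ φ U τ) (hτ1 : 1 < τ) (hτ2 : τ < 2) (hμ : μ (φ ⁻¹' U) ≠ 0) [Nontrivial Y]
    (hR : ∀ z ∈ U, z ∉ spectrum ℂ R) (hr : 1 < r) (hrp : r ≤ p) (hpq : p ≤ q) (hq : q ≠ ∞)
    (hgain : q⁻¹ + (ENNReal.ofReal τ)⁻¹ < r⁻¹)
    {K : (Lp Y r μ × Z) →L[ℂ] (Lp Y q μ × Z)} (hK : IsCompactOperator K)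
    {T : (Lp Y p μ × Z) →L[ℂ] (Lp Y p μ × Z)}
    (hT : ∀ (f : Lp Y p μ) (g : Lp Y r μ) (z : Z), g =ᵐ[μ] f →
      ((T (f, z)).1 =ᵐ[μ] fun x => φ x • f x + (K (g, z)).1 x) ∧ (T (f, z)).2 = R z + (K (g, z)).2) :
    HasHyp T ∧ ∀ c ∈ U, (∀ ρ : ℝ, 0 < ρ → μ (φ ⁻¹' ball c ρ) ≠ 0) → ∀ ε : ℝ, 0 < ε →
      (∃ (x : Lp Y p μ × Z) (C : ℝ), x ≠ 0 ∧ ∀ n : ℕ,
        ‖((T - c • (1 : (Lp Y p μ × Z) →L[ℂ] (Lp Y p μ × Z))) ^ n) x‖ ≤ C * ε ^ n) ∧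
      (∃ (η : (Lp Y p μ × Z) →L[ℂ] ℂ) (C : ℝ), η ≠ 0 ∧ ∀ (n : ℕ) (x : Lp Y p μ × Z),
        ‖η (((T - c • (1 : (Lp Y p μ × Z) →L[ℂ] (Lp Y p μ × Z))) ^ n) x)‖ ≤ C * ε ^ n * ‖x‖) := by
  have hY : ∃ y₀ : Y, ‖y₀‖ = 1 := by
    obtain ⟨y, hy⟩ := exists_ne (0 : Y)
    exact ⟨((‖y‖ : ℂ)⁻¹) • y, norm_smul_inv_norm hy⟩
  have hτ0 : 0 < τ := by linarith
  constructor
  · obtain ⟨c₁, hc₁, c₂, hc₂, hs₁, hs₂, hne⟩ := two_points h hτ0 hμ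
    have hdist : 0 < ‖c₁ - c₂‖ := norm_pos_iff.2 (sub_ne_zero.2 hne)
    obtain ⟨⟨X, ⟨hX1, C, hX2⟩, hX0⟩, -⟩ := chains h hτ1 hτ2 hY hR hr hrp hpq hq hgain hK hT hc₁ hs₁
      (ε := ‖c₁ - c₂‖ / 3) (by positivity)
    obtain ⟨-, ⟨W, ⟨hW1, D, hW2⟩, hW0⟩⟩ := chains h hτ1 hτ2 hY hR hr hrp hpq hq hgain hK hT hc₂ hs₂
      (ε := ‖c₁ - c₂‖ / 3) (by positivity)
    exact ann T c₁ c₂ (‖c₁ - c₂‖ / 3) (‖c₁ - c₂‖ / 3) C D X W (by positivity) (by positivity)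
      (by linarith) hX1 hX2 hW1 hW2 hX0 hW0
  · intro c hc hcρ ε hε
    have hcs : c ∈ (μ.map φ).support := by
      rw [Measure.mem_support_iff_forall]
      intro V hV
      obtain ⟨ρ, hρ, hρV⟩ := Metric.mem_nhds_iff.1 hV
      refine lt_of_lt_of_le ?_ (measure_mono hρV)
      rw [Measure.map_apply h.meas measurableSet_ball, pos_iff_ne_zero]
      exact hcρ ρ hρ
    obtain ⟨⟨X, ⟨hX1, C, hX2⟩, hX0⟩, ⟨W, ⟨hW1, D, hW2⟩, hW0⟩⟩ :=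
      chains h hτ1 hτ2 hY hR hr hrp hpq hq hgain hK hT hc hcs hε
    refine ⟨⟨X 0, C, hX0, fun n => ?_⟩, ⟨W 0, D, hW0, fun n x => ?_⟩⟩
    · rw [pow_of_rec hX1]
      exact hX2 n
    · exact pow_bound hW1 hW2 n x

end Pool.Agent.N226.FM
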