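import Pool.Agent.N226.FM.Prod

/-!
# Assembly
-/

set_option autoImplicit false

namespace Pool.Agent.N226.FM

open MeasureTheory Set Metric Filter Topology
open scoped ENNReal NNReal
open Pool.Agent.R277.SP (hPOM ad ad_apply2 Ch ann)
open Pool.Agent.Y283.NK (HasHyp)

section rv

variable {Z : Type} [NormedAddCommGroup Z] [NormedSpace ℂ Z] [CompleteSpace Z]

/-- the resolvent of `R` -/
noncomputable def rv (R : Z →L[ℂ] Z) (z : ℂ) : Z →L[ℂ] Z := Ring.inverse (z • (1 : Z →L[ℂ] Z) - R)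

lemma isUnit_rv {R : Z →L[ℂ] Z} {z : ℂ} (h : z ∉ spectrum ℂ R) : IsUnit (z • (1 : Z →L[ℂ] Z) - R) := by
  rw [spectrum.notMem_iff, Algebra.algebraMap_eq_smul_one] at h
  exact h

lemma rv_cont {R : Z →L[ℂ] Z} {U : Set ℂ} (h : ∀ z ∈ U, z ∉ spectrum ℂ R) :
    ContinuousOn (rv R) U := by
  intro z hz
  have h1 : ContinuousAt (fun z : ℂ => z • (1 : Z →L[ℂ] Z) - R) z := by fun_prop
  obtain ⟨w, hw⟩ := isUnit_rv (h z hz)
  have h2 : ContinuousAt Ring.inverse ((fun z : ℂ => z • (1 : Z →L[ℂ] Z) - R) z) := by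
    show ContinuousAt Ring.inverse (z • (1 : Z →L[ℂ] Z) - R)
    rw [← hw]
    exact NormedRing.inverse_continuousAt w
  exact (ContinuousAt.comp (f := fun z : ℂ => z • (1 : Z →L[ℂ] Z) - R) h2 h1).continuousWithinAt

omit [CompleteSpace Z] in
lemma rv_right {R : Z →L[ℂ] Z} {z : ℂ} (h : IsUnit (z • (1 : Z →L[ℂ] Z) - R)) (x : Z) :
    z • rv R z x - R (rv R z x) = x :=
  congrArg (fun L : Z →L[ℂ] Z => L x) (Ring.mul_inverse_cancel _ h)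

omit [CompleteSpace Z] in
lemma rv_left {R : Z →L[ℂ] Z} {z : ℂ} (h : IsUnit (z • (1 : Z →L[ℂ] Z) - R)) (x : Z) :
    z • rv R z x - rv R z (R x) = x := by
  have h1 : rv R z (z • x - R x) = x :=
    congrArg (fun L : Z →L[ℂ] Z => L x) (Ring.inverse_mul_cancel _ h)
  rw [map_sub, map_smul] at h1
  exact h1

end rv

variable {α : Type} [MeasurableSpace α] {μ : Measure α} [IsFiniteMeasure μ] {Y : Type}
  [NormedAddCommGroup Y] [NormedSpace ℂ Y] [CompleteSpace Y] {φ : α → ℂ} {U : Set ℂ} {τ : ℝ}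
  {s q r : ℝ≥0∞} [Fact (1 ≤ s)] [Fact (1 ≤ q)] [Fact (1 ≤ r)] [ENNReal.HolderTriple s q r]
  {Z : Type} [NormedAddCommGroup Z] [NormedSpace ℂ Z] [CompleteSpace Z] {R : Z →L[ℂ] Z}

/-- the resolvent of the coupled system -/
noncomputable def MP (Y : Type) [NormedAddCommGroup Y] [NormedSpace ℂ Y] (μ : Measure α)
    [IsFiniteMeasure μ] (s q r : ℝ≥0∞) [Fact (1 ≤ s)] [Fact (1 ≤ q)] [Fact (1 ≤ r)]
    [ENNReal.HolderTriple s q r] (φ : α → ℂ) {Z : Type} [NormedAddCommGroup Z] [NormedSpace ℂ Z]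
    (R : Z →L[ℂ] Z) (z : ℂ) : (Lp Y q μ × Z) →L[ℂ] (Lp Y r μ × Z) :=
  (MM Y μ s q r φ z).prodMap (rv R z)

lemma MM_cont (h : Dim μ φ U τ) (hsτ : s < ENNReal.ofReal τ) (hτ2 : τ < 2) :
    ContinuousOn (MM Y μ s q r φ) U :=
  (mL Y μ s q r).continuous.comp_continuousOn (h.kL_cont hsτ hτ2)

theorem sysPZ (h : Dim μ φ U τ) (hsτ : s < ENNReal.ofReal τ) (hτ2 : τ < 2) (hrq : r ≤ q)
    (hR : ∀ z ∈ U, z ∉ spectrum ℂ R) :
    Sys ((inc Y μ hrq).prodMap (1 : Z →L[ℂ] Z)) ((NN Y μ q φ).prodMap R) ((NN Y μ r φ).prodMap R)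
      (MP Y μ s q r φ R) U := by
  have hS := sysP (Y := Y) (q := q) (r := r) h hsτ hτ2 hrq
  refine ⟨h.opn, ?_, ?_, ?_, ?_⟩
  · rintro ⟨x, y⟩ hx
    have h1 : inc Y μ hrq x = 0 := congrArg Prod.fst hx
    have h2 : y = 0 := congrArg Prod.snd hx
    rw [hS.inj x h1, h2]
    rfl
  · rintro ⟨x, y⟩
    exact Prod.ext (hS.inter x) rfl
  · exact (MM_cont h hsτ hτ2).prod_mapL ℂ (rv_cont hR)
  · rintro z hz ⟨x, y⟩
    exact Prod.ext (hS.res z hz x) (rv_right (isUnit_rv (hR z hz)) y)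

lemma MP_comm (h : Dim μ φ U τ) (hsτ : s < ENNReal.ofReal τ) (hR : ∀ z ∈ U, z ∉ spectrum ℂ R) :
    ∀ z ∈ U, ∀ x : Lp Y q μ × Z, MP Y μ s q r φ R z (((NN Y μ q φ).prodMap R) x) =
      ((NN Y μ r φ).prodMap R) (MP Y μ s q r φ R z x) := by
  rintro z hz ⟨x, y⟩
  refine Prod.ext (MM_comm h hsτ hz x) ?_
  show rv R z (R y) = R (rv R z y)
  have h1 := rv_left (isUnit_rv (hR z hz)) y
  have h2 := rv_right (isUnit_rv (hR z hz)) y
  exact sub_right_injective (h1.trans h2.symm)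

lemma dense_PZ (hrq : r ≤ q) (hrt : r ≠ ∞) :
    DenseRange ((inc Y μ hrq).prodMap (1 : Z →L[ℂ] Z)) := by
  have h1 : DenseRange (inc Y μ hrq) := inc_dense hrq hrt
  have h2 : DenseRange (id : Z → Z) := Function.surjective_id.denseRange
  exact h1.prodMap h2

theorem sysDZ (h : Dim μ φ U τ) (hsτ : s < ENNReal.ofReal τ) (hτ2 : τ < 2) (hrq : r ≤ q)
    (hrt : r ≠ ∞) (hR : ∀ z ∈ U, z ∉ spectrum ℂ R) :
    Sys (pre ((inc Y μ hrq).prodMap (1 : Z →L[ℂ] Z))) (ad ((NN Y μ r φ).prodMap R))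
      (ad ((NN Y μ q φ).prodMap R)) (fun z => pre (MP Y μ s q r φ R z)) U :=
  sysD (sysPZ h hsτ hτ2 hrq hR) (dense_PZ hrq hrt) (MP_comm h hsτ hR)

/-- the weakly null sequences -/
theorem wkPZ (h : Dim μ φ U τ) (hsτ : s < ENNReal.ofReal τ) (hτ2 : τ < 2) (hq1 : 1 < q) (hqt : q ≠ ∞)
    (hrq : r ≤ q) (R : Z →L[ℂ] Z) {y₀ : Y} (hy : ‖y₀‖ = 1) {z₀ : ℂ} (hz : z₀ ∈ U)
    (hs : z₀ ∈ (μ.map φ).support) (s₀ : ℝ) (hs₀ : 0 < s₀) :
    ∃ (e : ℕ → Lp Y q μ × Z) (δ : ℝ),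
      Wk ((inc Y μ hrq).prodMap (1 : Z →L[ℂ] Z)) (MP Y μ s q r φ R) U z₀ s₀ e δ := by
  obtain ⟨e, δ, H⟩ := wkP (Y := Y) (q := q) (r := r) h hsτ hτ2 hq1 hqt hrq hy hz hs s₀ hs₀
  refine ⟨_, δ, H.transfer h.opn (MM_cont h hsτ hτ2) (ContinuousLinearMap.inl ℂ (Lp Y q μ) Z)
    (ContinuousLinearMap.inl ℂ (Lp Y r μ) Z) (fun x => ?_) (fun x => ?_) (fun z x => ?_)⟩
  · show ‖((x, 0) : Lp Y q μ × Z)‖ = ‖x‖
    rw [Prod.norm_mk, norm_zero, max_eq_left (norm_nonneg _)]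
  · rfl
  · exact Prod.ext rfl (map_zero (rv R z))

theorem wkDZ {r' : ℝ≥0∞} [Fact (1 ≤ r')] [ENNReal.HolderConjugate r' r]
    (h : Dim μ φ U τ) (hsτ : s < ENNReal.ofReal τ) (hτ2 : τ < 2) (hr1 : 1 < r) (hrt : r ≠ ∞)
    (hr1' : 1 < r') (hrt' : r' ≠ ∞)
    (hrq : r ≤ q) (R : Z →L[ℂ] Z) {y₀ : Y} (hy : ‖y₀‖ = 1) {z₀ : ℂ} (hz : z₀ ∈ U)
    (hs : z₀ ∈ (μ.map φ).support) (s₀ : ℝ) (hs₀ : 0 < s₀) :
    ∃ (e : ℕ → ((Lp Y r μ × Z) →L[ℂ] ℂ)) (δ : ℝ),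
      Wk (pre ((inc Y μ hrq).prodMap (1 : Z →L[ℂ] Z))) (fun z => pre (MP Y μ s q r φ R z))
        U z₀ s₀ e δ := by
  obtain ⟨e, δ, H⟩ := wkD (Y := Y) (q := q) (r := r) (r' := r') h hsτ hτ2 hr1 hrt hr1' hrt' hrq hy hz
    hs s₀ hs₀
  refine ⟨_, δ, H.transfer h.opn (pre_cont (MM_cont h hsτ hτ2))
    (pre (ContinuousLinearMap.fst ℂ (Lp Y r μ) Z))
    (pre (ContinuousLinearMap.fst ℂ (Lp Y q μ) Z)) (fun η => ?_) (fun η => ?_) (fun z η => ?_)⟩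
  · refine le_antisymm ?_ ?_
    · refine ContinuousLinearMap.opNorm_le_bound _ (norm_nonneg _) fun x => ?_
      exact (η.le_opNorm x.1).trans (mul_le_mul_of_nonneg_left (le_max_left _ _) (norm_nonneg _))
    · refine ContinuousLinearMap.opNorm_le_bound _ (norm_nonneg _) fun x => ?_
      have h1 := (pre (ContinuousLinearMap.fst ℂ (Lp Y r μ) Z) η).le_opNorm (x, 0)
      rw [Prod.norm_mk, norm_zero, max_eq_left (norm_nonneg _)] at h1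
      exact h1
  · rfl
  · rfl

/-- integrated vectors -/
theorem intgPZ (h : Dim μ φ U τ) (hsτ : s < ENNReal.ofReal τ) (hτ2 : τ < 2) (hqt : q ≠ ∞)
    (hrq : r ≤ q) (hR : ∀ z ∈ U, z ∉ spectrum ℂ R) {q' : ℝ} (hq' : q.toReal.HolderConjugate q')
    (l : Measure ℂ) [IsFiniteMeasureOnCompacts l] [SFinite l] {a : ℂ} {ρ : ℝ} (hρ : 0 < ρ)
    (hU : closedBall a ρ ⊆ U) (hD : Den l (ball a ρ) q') :
    Intg ((inc Y μ hrq).prodMap (1 : Z →L[ℂ] Z)) (MP Y μ s q r φ R) (ball a ρ) l := by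
  have h1 := intgP (Y := Y) (r := r) h hsτ hτ2 hqt hrq hq' l hρ hU hD
  have h2 : IntgK q.toReal (1 : Z →L[ℂ] Z) (rv R) (ball a ρ) l :=
    intgK_id hq'.lt (rv_cont hR) hρ hU l
  refine ⟨q.toReal, hq'.lt, IntgK.sum hq'.lt h.opn hρ hU l h1 h2 (MM_cont h hsτ hτ2) (rv_cont hR)
    (ContinuousLinearMap.inl ℂ (Lp Y q μ) Z) (ContinuousLinearMap.inr ℂ (Lp Y q μ) Z)
    (ContinuousLinearMap.inl ℂ (Lp Y r μ) Z) (ContinuousLinearMap.inr ℂ (Lp Y r μ) Z)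
    (ContinuousLinearMap.fst ℂ (Lp Y q μ) Z) (ContinuousLinearMap.snd ℂ (Lp Y q μ) Z)
    (fun x => ?_) (fun x => ?_) (fun x => ?_) (fun x => ?_) (fun x => ?_) (fun x => ?_)
    (fun z x => ?_) (fun z x => ?_) (fun x => ?_)⟩
  · show ‖((x, 0) : Lp Y q μ × Z)‖ ≤ ‖x‖
    rw [Prod.norm_mk, norm_zero, max_eq_left (norm_nonneg _)]
  · show ‖((0, x) : Lp Y q μ × Z)‖ ≤ ‖x‖
    rw [Prod.norm_mk, norm_zero, max_eq_right (norm_nonneg _)]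
  · exact le_max_left _ _
  · exact le_max_right _ _
  · rfl
  · exact Prod.ext (map_zero (inc Y μ hrq)) rfl
  · exact Prod.ext rfl (map_zero (rv R z))
  · exact Prod.ext (map_zero (MM Y μ s q r φ z)) rfl
  · show ((x.1, 0) : Lp Y q μ × Z) + (0, x.2) = x
    simp

theorem intgDZ (h : Dim μ φ U τ) (hsτ : s < ENNReal.ofReal τ) (hτ2 : τ < 2) (hrt : r ≠ ∞)
    (hrq : r ≤ q) (hR : ∀ z ∈ U, z ∉ spectrum ℂ R) {r' : ℝ} (hr' : r.toReal.HolderConjugate r')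
    (l : Measure ℂ) [IsFiniteMeasureOnCompacts l] [SFinite l] {a : ℂ} {ρ : ℝ} (hρ : 0 < ρ)
    (hU : closedBall a ρ ⊆ U) (hD : Den l (ball a ρ) r.toReal) :
    Intg (pre ((inc Y μ hrq).prodMap (1 : Z →L[ℂ] Z))) (fun z => pre (MP Y μ s q r φ R z))
      (ball a ρ) l := by
  have h1 := intgD (Y := Y) (q := q) h hsτ hτ2 hrt hrq hr' l hρ hU hD
  have h2 : IntgK r' (1 : (Z →L[ℂ] ℂ) →L[ℂ] (Z →L[ℂ] ℂ)) (fun z => pre (rv R z)) (ball a ρ) l :=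
    intgK_id hr'.symm.lt (pre_cont (rv_cont hR)) hρ hU l
  refine ⟨r', hr'.symm.lt, IntgK.sum hr'.symm.lt h.opn hρ hU l h1 h2 (pre_cont (MM_cont h hsτ hτ2))
    (pre_cont (rv_cont hR))
    (pre (ContinuousLinearMap.fst ℂ (Lp Y r μ) Z)) (pre (ContinuousLinearMap.snd ℂ (Lp Y r μ) Z))
    (pre (ContinuousLinearMap.fst ℂ (Lp Y q μ) Z)) (pre (ContinuousLinearMap.snd ℂ (Lp Y q μ) Z))
    (pre (ContinuousLinearMap.inl ℂ (Lp Y r μ) Z)) (pre (ContinuousLinearMap.inr ℂ (Lp Y r μ) Z))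
    (fun η => ?_) (fun η => ?_) (fun η => ?_) (fun η => ?_) (fun η => ?_) (fun η => ?_)
    (fun z η => ?_) (fun z η => ?_) (fun η => ?_)⟩
  · refine ContinuousLinearMap.opNorm_le_bound _ (norm_nonneg _) fun x => ?_
    exact (η.le_opNorm x.1).trans (mul_le_mul_of_nonneg_left (le_max_left _ _) (norm_nonneg _))
  · refine ContinuousLinearMap.opNorm_le_bound _ (norm_nonneg _) fun x => ?_
    exact (η.le_opNorm x.2).trans (mul_le_mul_of_nonneg_left (le_max_right _ _) (norm_nonneg _))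
  · refine ContinuousLinearMap.opNorm_le_bound _ (norm_nonneg _) fun x => ?_
    have h1 := η.le_opNorm (x, 0)
    rw [Prod.norm_mk, norm_zero, max_eq_left (norm_nonneg _)] at h1
    exact h1
  · refine ContinuousLinearMap.opNorm_le_bound _ (norm_nonneg _) fun x => ?_
    have h1 := η.le_opNorm (0, x)
    rw [Prod.norm_mk, norm_zero, max_eq_right (norm_nonneg _)] at h1
    exact h1
  · rfl
  · rfl
  · rfl
  · rfl
  · refine ContinuousLinearMap.ext fun x => ?_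
    show η (x.1, 0) + η (0, x.2) = η x
    rw [← map_add]
    simp

end Pool.Agent.N226.FM
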