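import Pool.Agent.N226.FM.Seq

/-!
# The weakly null sequences for the two systems
-/

set_option autoImplicit false

namespace Pool.Agent.N226.FM

open MeasureTheory Set Metric Filter Topology
open scoped ENNReal NNReal
open Pool.Agent.Y271.RO (db ht)
open Pool.Agent.R277.SP (hPOM)

variable {α : Type} [MeasurableSpace α] {μ : Measure α} [IsFiniteMeasure μ] {Y : Type}
  [NormedAddCommGroup Y] [NormedSpace ℂ Y] {φ : α → ℂ} {U : Set ℂ} {τ : ℝ}
  {s q r : ℝ≥0∞} [Fact (1 ≤ s)] [Fact (1 ≤ q)] [Fact (1 ≤ r)] [ENNReal.HolderTriple s q r]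

/-- disjoint sets of positive measure on which `φ` is near `z₀` -/
lemma exists_sets (h : Dim μ φ U τ) (hτ : 0 < τ) {z₀ : ℂ} (hz : z₀ ∈ U)
    (hs : z₀ ∈ (μ.map φ).support) {s₀ : ℝ} (hs₀ : 0 < s₀) :
    ∃ A : ℕ → Set α, (∀ n, MeasurableSet (A n)) ∧ Pairwise (fun m n => Disjoint (A m) (A n)) ∧
      (∀ n, ∀ x ∈ A n, φ x ∈ ball z₀ s₀) ∧ ∀ n, μ (A n) ≠ 0 := by
  haveI : IsFiniteMeasure (μ.map φ) := Measure.isFiniteMeasure_map μ φ
  have h0 : (μ.map φ) {z₀} = 0 := by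
    rw [Measure.map_apply h.meas (measurableSet_singleton z₀)]
    have h1 := h.ae_ne hτ hz
    rw [ae_iff] at h1
    refine measure_mono_null (fun x hx => ?_) h1
    show ¬ (z₀ - φ x ≠ 0)
    rw [not_not, show φ x = z₀ from hx, sub_self]
  obtain ⟨D, hD1, hD2, hD3, hD4⟩ := exists_discs (μ.map φ) h0 hs hs₀
  refine ⟨fun n => φ ⁻¹' D n, fun n => h.meas (hD1 n), fun m n hmn => (hD2 hmn).preimage φ,
    fun n x hx => hD3 n hx, fun n => ?_⟩
  rw [← Measure.map_apply h.meas (hD1 n)]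
  exact hD4 n

variable [CompleteSpace Y]

/-- the Pompeiu formula -/
lemma pom_coe (h : Dim μ φ U τ) (hsτ : s < ENNReal.ofReal τ) (hτ2 : τ < 2) {z₀ : ℂ} {χ : ℂ → ℂ}
    {R : ℝ} (hR : 0 < R) (hU : closedBall z₀ R ⊆ U) (c1 : ContDiff ℝ 1 χ)
    (hts : tsupport χ ⊆ ball z₀ R) (f : Lp Y q μ) :
    Integrable (fun z => db χ z • MM Y μ s q r φ z f) ∧
    (∫ z, db χ z • MM Y μ s q r φ z f : Lp Y r μ) =ᵐ[μ]
      fun x => (-((Real.pi : ℂ) * χ (φ x))) • f x := by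
  have hcs : HasCompactSupport χ := by
    refine HasCompactSupport.of_support_subset_isCompact (isCompact_closedBall z₀ R) ?_
    exact (subset_tsupport _).trans (hts.trans ball_subset_closedBall)
  have hgc : Continuous (db χ) := hPOM.2.2.2.2.1 χ c1
  have hdt : tsupport (db χ) ⊆ tsupport χ := by
    refine closure_minimal (fun z hz => ?_) (isClosed_tsupport χ)
    by_contra h
    exact hz (hPOM.2.2.2.2.2.2 χ z h)
  have hgcs : HasCompactSupport (db χ) := hcs.mono' ((subset_tsupport _).trans hdt)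
  obtain ⟨b, hb⟩ : ∃ b : ℝ, ∀ z, ‖db χ z‖ ≤ b := hgc.bounded_above_of_compact_support hgcs
  have hg0 : ∀ z, z ∉ ball z₀ R → db χ z = 0 := fun z hz => by
    by_contra h
    exact hz (hts (hdt (subset_tsupport _ h)))
  have hMc : ContinuousOn (MM Y μ s q r φ) U :=
    (mL Y μ s q r).continuous.comp_continuousOn (h.kL_cont hsτ hτ2)
  refine ⟨integ_smul (k := fun z => MM Y μ s q r φ z f) h.opn
      (hMc.clm_apply continuousOn_const) hR hU volume hgc.measurable hb hg0, ?_⟩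
  filter_upwards [scalM (p := r) h hsτ hτ2 volume hR hU (den_vol z₀ R one_pos (by norm_num))
    hgc.measurable hb hg0 f] with x hx
  show (∫ z, db χ z • mL Y μ s q r (kL s μ φ z) f : Lp Y r μ) x = _
  rw [hx]
  have h1 := hPOM.1 χ c1 hcs (φ x)
  unfold ht at h1
  rw [h1]

/-- the sequence for the system -/
theorem wkP (h : Dim μ φ U τ) (hsτ : s < ENNReal.ofReal τ) (hτ2 : τ < 2) (hq1 : 1 < q) (hqt : q ≠ ∞)
    (hrq : r ≤ q) {y₀ : Y} (hy : ‖y₀‖ = 1) {z₀ : ℂ} (hz : z₀ ∈ U)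
    (hs : z₀ ∈ (μ.map φ).support) (s₀ : ℝ) (hs₀ : 0 < s₀) :
    ∃ (e : ℕ → Lp Y q μ) (δ : ℝ), Wk (inc Y μ hrq) (MM Y μ s q r φ) U z₀ s₀ e δ := by
  obtain ⟨A, hA, hd, hAφ, hA0⟩ := exists_sets h (tau_pos hsτ) hz hs hs₀
  refine ⟨fun n => eN μ q y₀ hA n, 1, one_pos, fun n => (eN_norm hqt hy hA hA0 n).ge,
    fun n => (eN_norm hqt hy hA hA0 n).le, eN_weak hq1 hqt hy hA hA0 hd, ?_⟩
  intro χ R hR hU c1 hts c3 n
  refine Lp.ext ?_
  filter_upwards [(pom_coe (r := r) h hsτ hτ2 hR hU (c1.of_le (by exact_mod_cast le_top)) hts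
    (eN μ q y₀ hA n)).2, Lp.coeFn_smul (-(Real.pi : ℂ)) (inc Y μ hrq (eN μ q y₀ hA n)),
    inc_coe hrq (eN μ q y₀ hA n), eN_coe (q := q) (μ := μ) (y₀ := y₀) hA n] with x h1 h2 h3 h4
  refine h1.trans ?_
  rw [h2, Pi.smul_apply, h3, h4]
  by_cases hx : x ∈ A n
  · rw [c3 _ (hAφ n x hx), mul_one]
  · rw [indicator_of_notMem hx, smul_zero, smul_zero]

section dual

variable {r' : ℝ≥0∞} [Fact (1 ≤ r')] [ENNReal.HolderConjugate r' r]

/-- the pairing of `L^{r'}(Y*)` and `L^r(Y)` -/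
noncomputable def pairD (Y : Type) [NormedAddCommGroup Y] [NormedSpace ℂ Y] (μ : Measure α)
    (r' r : ℝ≥0∞) [Fact (1 ≤ r')] [Fact (1 ≤ r)] [ENNReal.HolderConjugate r' r] :
    Lp (Y →L[ℂ] ℂ) r' μ →L[ℂ] Lp Y r μ →L[ℂ] ℂ :=
  ContinuousLinearMap.lpPairing μ r' r (ContinuousLinearMap.id ℂ (Y →L[ℂ] ℂ))

omit [IsFiniteMeasure μ] [CompleteSpace Y] in
lemma pairD_apply (e : Lp (Y →L[ℂ] ℂ) r' μ) (f : Lp Y r μ) :
    pairD Y μ r' r e f = ∫ x, (e x) (f x) ∂μ :=
  ContinuousLinearMap.lpPairing_eq_integral (ContinuousLinearMap.id ℂ (Y →L[ℂ] ℂ)) e f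

omit [IsFiniteMeasure μ] [CompleteSpace Y] in
lemma pairD_le (e : Lp (Y →L[ℂ] ℂ) r' μ) (f : Lp Y r μ) :
    ‖pairD Y μ r' r e f‖ ≤ ‖e‖ * ‖f‖ := by
  have h1 : pairD Y μ r' r e f = L1.integral
      ((ContinuousLinearMap.id ℂ (Y →L[ℂ] ℂ)).holder 1 e f : Lp ℂ 1 μ) := by
    rw [L1.integral_eq' ℂ]
    rfl
  rw [h1]
  refine (L1.norm_integral_le _).trans ?_
  refine (ContinuousLinearMap.norm_holder_apply_apply_le _ e f).trans ?_
  have h2 : ‖ContinuousLinearMap.id ℂ (Y →L[ℂ] ℂ)‖ ≤ 1 := ContinuousLinearMap.norm_id_le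
  calc ‖ContinuousLinearMap.id ℂ (Y →L[ℂ] ℂ)‖ * ‖e‖ * ‖f‖ ≤ 1 * ‖e‖ * ‖f‖ := by gcongr
    _ = ‖e‖ * ‖f‖ := by rw [one_mul]

/-- the sequence for the dual system -/
theorem wkD (h : Dim μ φ U τ) (hsτ : s < ENNReal.ofReal τ) (hτ2 : τ < 2) (hr1 : 1 < r) (hrt : r ≠ ∞)
    (hr1' : 1 < r') (hrt' : r' ≠ ∞)
    (hrq : r ≤ q) {y₀ : Y} (hy : ‖y₀‖ = 1) {z₀ : ℂ} (hz : z₀ ∈ U)
    (hs : z₀ ∈ (μ.map φ).support) (s₀ : ℝ) (hs₀ : 0 < s₀) :
    ∃ (e : ℕ → (Lp Y r μ →L[ℂ] ℂ)) (δ : ℝ),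
      Wk (pre (inc Y μ hrq)) (fun z => pre (MM Y μ s q r φ z)) U z₀ s₀ e δ := by
  obtain ⟨A, hA, hd, hAφ, hA0⟩ := exists_sets h (tau_pos hsτ) hz hs hs₀
  obtain ⟨l₀, hl1, hl2⟩ := exists_dual_vector ℂ y₀ (by
    intro h0; rw [h0] at hy; exact zero_ne_one hy)
  rw [hy] at hl2
  have hen : ∀ n, ‖eN μ r' l₀ hA n‖ = 1 := eN_norm hrt' hl1 hA hA0
  have hr0 : r ≠ 0 := (one_pos.trans hr1).ne'
  have hr0' : r' ≠ 0 := (one_pos.trans hr1').ne'
  have hconj : r'.toReal.HolderConjugate r.toReal := ENNReal.HolderConjugate.toReal_of_ne_top hrt' hrt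
  refine ⟨fun n => pairD Y μ r' r (eN μ r' l₀ hA n), 1, one_pos, fun n => ?_, fun n => ?_, ?_, ?_⟩
  · -- lower bound
    have hpos : 0 < μ.real (A n) := ENNReal.toReal_pos (hA0 n) (measure_ne_top μ _)
    set f₀ : Lp Y r μ := indicatorConstLp r (hA n) (measure_ne_top μ _) y₀ with hf₀
    have e1 : ‖f₀‖ = μ.real (A n) ^ (1 / r.toReal) := by
      rw [hf₀, norm_indicatorConstLp hr0 hrt, hy, one_mul]
    have e2 : pairD Y μ r' r (eN μ r' l₀ hA n) f₀ =
        (((μ.real (A n) ^ (1 / r'.toReal))⁻¹ * μ.real (A n) : ℝ) : ℂ) := by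
      rw [pairD_apply]
      have e3 : ∀ᵐ x ∂μ, (eN μ r' l₀ hA n x) (f₀ x) = (A n).indicator
          (fun _ => (((μ.real (A n) ^ (1 / r'.toReal))⁻¹ : ℝ) : ℂ)) x := by
        filter_upwards [eN_coe (q := r') (μ := μ) (y₀ := l₀) hA n,
          indicatorConstLp_coeFn (p := r) (hs := hA n) (hμs := measure_ne_top μ _) (c := y₀)]
          with x h1 h2
        rw [h1, hf₀, h2]
        by_cases hx : x ∈ A n
        · rw [indicator_of_mem hx, indicator_of_mem hx, indicator_of_mem hx, smul_apply, hl2]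
          simp
        · rw [indicator_of_notMem hx, indicator_of_notMem hx, indicator_of_notMem hx, map_zero]
      rw [integral_congr_ae e3, integral_indicator_const _ (hA n)]
      push_cast
      rw [Complex.real_smul, mul_comm]
    have e4 : ‖pairD Y μ r' r (eN μ r' l₀ hA n) f₀‖ = ‖f₀‖ := by
      rw [e2, e1, Complex.norm_real, Real.norm_of_nonneg (by positivity), ← Real.rpow_neg hpos.le]
      conv_lhs => rw [← Real.rpow_one (μ.real (A n)), ← Real.rpow_mul hpos.le, ← Real.rpow_add hpos]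
      congr 1
      have := hconj.inv_add_inv_eq_one
      rw [one_div, one_div]
      linarith
    have e5 : 0 < ‖f₀‖ := by rw [e1]; exact Real.rpow_pos_of_pos hpos _
    have e6 := (pairD Y μ r' r (eN μ r' l₀ hA n)).le_opNorm f₀
    rw [e4] at e6
    by_contra hcon
    push Not at hcon
    nlinarith
  · refine ContinuousLinearMap.opNorm_le_bound _ zero_le_one fun f => ?_
    have := pairD_le (eN μ r' l₀ hA n) f
    rwa [hen] at this
  · intro L
    exact eN_weak hr1' hrt' hl1 hA hA0 hd (L.comp (pairD Y μ r' r))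
  · intro χ R hR hU c1 hts c3 n
    set η : Lp Y r μ →L[ℂ] ℂ := pairD Y μ r' r (eN μ r' l₀ hA n) with hη
    have hMc : ContinuousOn (MM Y μ s q r φ) U :=
      (mL Y μ s q r).continuous.comp_continuousOn (h.kL_cont hsτ hτ2)
    have c1' : ContDiff ℝ 1 χ := c1.of_le (by exact_mod_cast le_top)
    have hcs : HasCompactSupport χ := by
      refine HasCompactSupport.of_support_subset_isCompact (isCompact_closedBall z₀ R) ?_
      exact (subset_tsupport _).trans (hts.trans ball_subset_closedBall)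
    have hgc : Continuous (db χ) := hPOM.2.2.2.2.1 χ c1'
    have hdt : tsupport (db χ) ⊆ tsupport χ := by
      refine closure_minimal (fun z hz => ?_) (isClosed_tsupport χ)
      by_contra h
      exact hz (hPOM.2.2.2.2.2.2 χ z h)
    have hgcs : HasCompactSupport (db χ) := hcs.mono' ((subset_tsupport _).trans hdt)
    obtain ⟨b, hb⟩ : ∃ b : ℝ, ∀ z, ‖db χ z‖ ≤ b := hgc.bounded_above_of_compact_support hgcs
    have hg0 : ∀ z, z ∉ ball z₀ R → db χ z = 0 := fun z hz => by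
      by_contra h
      exact hz (hts (hdt (subset_tsupport _ h)))
    have hint : Integrable (fun z => db χ z • pre (MM Y μ s q r φ z) η) :=
      integ_smul (k := fun z => pre (MM Y μ s q r φ z) η) h.opn
        ((pre_cont hMc).clm_apply continuousOn_const) hR hU volume hgc.measurable hb hg0
    ext f
    obtain ⟨p1, p2⟩ := pom_coe (r := r) h hsτ hτ2 hR hU c1' hts f
    have e1 : (∫ z, db χ z • pre (MM Y μ s q r φ z) η) f =
        η (∫ z, db χ z • MM Y μ s q r φ z f) := by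
      rw [ContinuousLinearMap.integral_apply hint f, ← ContinuousLinearMap.integral_comp_comm η p1]
      refine integral_congr_ae (Eventually.of_forall fun z => ?_)
      show db χ z • η (MM Y μ s q r φ z f) = η (db χ z • MM Y μ s q r φ z f)
      rw [map_smul]
    rw [e1]
    show η _ = (-(Real.pi : ℂ)) • η (inc Y μ hrq f)
    rw [← map_smul, hη, pairD_apply, pairD_apply]
    refine integral_congr_ae ?_
    filter_upwards [p2, Lp.coeFn_smul (-(Real.pi : ℂ)) (inc Y μ hrq f), inc_coe hrq f,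
      eN_coe (q := r') (μ := μ) (y₀ := l₀) hA n] with x h1 h2 h3 h4
    rw [h1, h2, Pi.smul_apply, h3, h4]
    by_cases hx : x ∈ A n
    · rw [c3 _ (hAφ n x hx), mul_one]
    · rw [indicator_of_notMem hx]
      rfl

end dual

end Pool.Agent.N226.FM
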