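import Pool.Agent.N226.FM.Vec
import Pool.Agent.N226.FM.WkC

/-!
# Coupling with an arbitrary operator
-/

set_option autoImplicit false

namespace Pool.Agent.N226.FM

open MeasureTheory Set Metric Filter Topology
open scoped ENNReal NNReal
open Pool.Agent.Y271.RO (db ht)
open Pool.Agent.R277.SP (hPOM ad ad_apply2)

lemma intble_rpow {G : Type} [NormedAddCommGroup G] (l : Measure ℂ) {B : Set ℂ}
    (hlB : l B ≠ ∞) {κ : ℝ} (hκ : 0 < κ) {y : ℂ → G} {b : ℝ} (hy : StronglyMeasurable y)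
    (hb : ∀ z, ‖y z‖ ≤ b) (h0 : ∀ z, z ∉ B → y z = 0) :
    Integrable (fun z => ‖y z‖ ^ κ) l := by
  have hm : StronglyMeasurable (fun z => ‖y z‖ ^ κ) := by
    exact (hy.norm.measurable.pow_const κ).stronglyMeasurable
  have h1 : IntegrableOn (fun z => ‖y z‖ ^ κ) B l := by
    refine Measure.integrableOn_of_bounded (M := b ^ κ) hlB hm.aestronglyMeasurable ?_
    refine Eventually.of_forall fun z => ?_
    rw [Real.norm_of_nonneg (by positivity)]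
    exact Real.rpow_le_rpow (norm_nonneg _) (hb z) hκ.le
  rw [integrableOn_iff_integrable_of_support_subset] at h1
  · exact h1
  · intro z hz
    by_contra hz'
    apply hz
    show ‖y z‖ ^ κ = 0
    rw [h0 z hz', norm_zero, Real.zero_rpow hκ.ne']

section gen

variable {E F E₁ F₁ E₂ F₂ : Type} [NormedAddCommGroup E] [NormedSpace ℂ E]
  [NormedAddCommGroup F] [NormedSpace ℂ F] [CompleteSpace F]
  [NormedAddCommGroup E₁] [NormedSpace ℂ E₁] [NormedAddCommGroup F₁] [NormedSpace ℂ F₁] [CompleteSpace F₁]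
  [NormedAddCommGroup E₂] [NormedSpace ℂ E₂] [NormedAddCommGroup F₂] [NormedSpace ℂ F₂] [CompleteSpace F₂]
  {i : E →L[ℂ] F} {M : ℂ → (E →L[ℂ] F)} {i₁ : E₁ →L[ℂ] F₁} {M₁ : ℂ → (E₁ →L[ℂ] F₁)}
  {i₂ : E₂ →L[ℂ] F₂} {M₂ : ℂ → (E₂ →L[ℂ] F₂)} {U : Set ℂ}

/-- transfer of weakly null sequences -/
theorem Wk.transfer {z₀ : ℂ} {s δ : ℝ} {e : ℕ → E₁} (h : Wk i₁ M₁ U z₀ s e δ) (hU : IsOpen U)
    (hMc : ContinuousOn M₁ U) (a : E₁ →L[ℂ] E) (b : F₁ →L[ℂ] F) (ha : ∀ x, ‖a x‖ = ‖x‖)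
    (hi : ∀ x, i (a x) = b (i₁ x)) (hM : ∀ z x, M z (a x) = b (M₁ z x)) :
    Wk i M U z₀ s (fun n => a (e n)) δ where
  pos := h.pos
  lo := fun n => by rw [ha]; exact h.lo n
  hi := fun n => by rw [ha]; exact h.hi n
  weak := fun f => h.weak (f.comp a)
  pom := fun χ R hR hUR c1 hts c3 n => by
    have c1' : ContDiff ℝ 1 χ := c1.of_le (by exact_mod_cast le_top)
    have hcs : HasCompactSupport χ := by
      refine HasCompactSupport.of_support_subset_isCompact (isCompact_closedBall z₀ R) ?_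
      exact (subset_tsupport _).trans (hts.trans ball_subset_closedBall)
    have hgc : Continuous (db χ) := hPOM.2.2.2.2.1 χ c1'
    have hdt : tsupport (db χ) ⊆ tsupport χ := by
      refine closure_minimal (fun z hz => ?_) (isClosed_tsupport χ)
      by_contra h
      exact hz (hPOM.2.2.2.2.2.2 χ z h)
    have hgcs : HasCompactSupport (db χ) := hcs.mono' ((subset_tsupport _).trans hdt)
    obtain ⟨B, hB⟩ : ∃ b : ℝ, ∀ z, ‖db χ z‖ ≤ b := hgc.bounded_above_of_compact_support hgcs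
    have hg0 : ∀ z, z ∉ ball z₀ R → db χ z = 0 := fun z hz => by
      by_contra h
      exact hz (hts (hdt (subset_tsupport _ h)))
    have hint : Integrable (fun z => db χ z • M₁ z (e n)) :=
      integ_smul (k := fun z => M₁ z (e n)) hU
        (hMc.clm_apply continuousOn_const) hR hUR volume hgc.measurable hB hg0
    have e1 : ∫ z, db χ z • M z (a (e n)) = b (∫ z, db χ z • M₁ z (e n)) := by
      rw [← ContinuousLinearMap.integral_comp_comm b hint]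
      refine integral_congr_ae (Eventually.of_forall fun z => ?_)
      show db χ z • M z (a (e n)) = b (db χ z • M₁ z (e n))
      rw [hM, map_smul]
    rw [e1, h.pom χ R hR hUR c1 hts c3 n, map_smul, hi]

/-- sums of systems -/
theorem IntgK.sum {κ : ℝ} (hκ : 1 < κ) (hU : IsOpen U) {c : ℂ} {R : ℝ} (hR : 0 < R)
    (hUR : closedBall c R ⊆ U) (l : Measure ℂ) [IsFiniteMeasureOnCompacts l]
    (h₁ : IntgK κ i₁ M₁ (ball c R) l) (h₂ : IntgK κ i₂ M₂ (ball c R) l)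
    (hc₁ : ContinuousOn M₁ U) (hc₂ : ContinuousOn M₂ U)
    (a₁ : E₁ →L[ℂ] E) (a₂ : E₂ →L[ℂ] E) (b₁ : F₁ →L[ℂ] F) (b₂ : F₂ →L[ℂ] F)
    (p₁ : E →L[ℂ] E₁) (p₂ : E →L[ℂ] E₂) (ha₁ : ∀ x, ‖a₁ x‖ ≤ ‖x‖) (ha₂ : ∀ x, ‖a₂ x‖ ≤ ‖x‖)
    (hp₁ : ∀ x, ‖p₁ x‖ ≤ ‖x‖) (hp₂ : ∀ x, ‖p₂ x‖ ≤ ‖x‖)
    (hi₁ : ∀ x, i (a₁ x) = b₁ (i₁ x)) (hi₂ : ∀ x, i (a₂ x) = b₂ (i₂ x))
    (hM₁ : ∀ z x, M z (a₁ x) = b₁ (M₁ z x)) (hM₂ : ∀ z x, M z (a₂ x) = b₂ (M₂ z x))
    (hsum : ∀ x, a₁ (p₁ x) + a₂ (p₂ x) = x) : IntgK κ i M (ball c R) l := by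
  have hκ0 : 0 < κ := by linarith
  have hlB : l (ball c R) ≠ ∞ :=
    (lt_of_le_of_lt (measure_mono ball_subset_closedBall) (isCompact_closedBall c R).measure_lt_top).ne
  obtain ⟨C₁, hC₁, H₁⟩ := h₁
  obtain ⟨C₂, hC₂, H₂⟩ := h₂
  refine ⟨2 ^ κ * (C₁ + C₂), by positivity, fun y b hy hb h0 => ?_⟩
  have m₁ : StronglyMeasurable (fun z => p₁ (y z)) := p₁.continuous.comp_stronglyMeasurable hy
  have m₂ : StronglyMeasurable (fun z => p₂ (y z)) := p₂.continuous.comp_stronglyMeasurable hy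
  have n₁ : ∀ z, ‖p₁ (y z)‖ ≤ b := fun z => (hp₁ _).trans (hb z)
  have n₂ : ∀ z, ‖p₂ (y z)‖ ≤ b := fun z => (hp₂ _).trans (hb z)
  have o₁ : ∀ z, z ∉ ball c R → p₁ (y z) = 0 := fun z hz => by rw [h0 z hz, map_zero]
  have o₂ : ∀ z, z ∉ ball c R → p₂ (y z) = 0 := fun z hz => by rw [h0 z hz, map_zero]
  obtain ⟨Y₁, hY₁, hY₁'⟩ := H₁ _ b m₁ n₁ o₁
  obtain ⟨Y₂, hY₂, hY₂'⟩ := H₂ _ b m₂ n₂ o₂
  have I₁ := integ hU hc₁ hR hUR l m₁ n₁ o₁
  have I₂ := integ hU hc₂ hR hUR l m₂ n₂ o₂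
  refine ⟨a₁ Y₁ + a₂ Y₂, ?_, ?_⟩
  · rw [map_add, hi₁, hi₂, hY₁, hY₂, ← ContinuousLinearMap.integral_comp_comm b₁ I₁,
      ← ContinuousLinearMap.integral_comp_comm b₂ I₂,
      ← integral_add (b₁.integrable_comp I₁) (b₂.integrable_comp I₂)]
    refine integral_congr_ae (Eventually.of_forall fun z => ?_)
    show b₁ (M₁ z (p₁ (y z))) + b₂ (M₂ z (p₂ (y z))) = M z (y z)
    rw [← hM₁, ← hM₂, ← map_add, hsum]
  · have J := intble_rpow l hlB hκ0 hy hb h0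
    have k₁ : ∫ z, ‖p₁ (y z)‖ ^ κ ∂l ≤ ∫ z, ‖y z‖ ^ κ ∂l :=
      integral_mono_of_nonneg (Eventually.of_forall fun z => by positivity) J
        (Eventually.of_forall fun z => Real.rpow_le_rpow (norm_nonneg _) (hp₁ _) hκ0.le)
    have k₂ : ∫ z, ‖p₂ (y z)‖ ^ κ ∂l ≤ ∫ z, ‖y z‖ ^ κ ∂l :=
      integral_mono_of_nonneg (Eventually.of_forall fun z => by positivity) J
        (Eventually.of_forall fun z => Real.rpow_le_rpow (norm_nonneg _) (hp₂ _) hκ0.le)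
    have q₁ : ‖Y₁‖ ^ κ ≤ C₁ * ∫ z, ‖y z‖ ^ κ ∂l := hY₁'.trans (mul_le_mul_of_nonneg_left k₁ hC₁)
    have q₂ : ‖Y₂‖ ^ κ ≤ C₂ * ∫ z, ‖y z‖ ^ κ ∂l := hY₂'.trans (mul_le_mul_of_nonneg_left k₂ hC₂)
    have q₃ : ‖a₁ Y₁ + a₂ Y₂‖ ≤ ‖Y₁‖ + ‖Y₂‖ :=
      (norm_add_le _ _).trans (add_le_add (ha₁ _) (ha₂ _))
    have q₄ : (‖Y₁‖ + ‖Y₂‖) ^ κ ≤ 2 ^ κ * (‖Y₁‖ ^ κ + ‖Y₂‖ ^ κ) := by
      rcases le_total ‖Y₁‖ ‖Y₂‖ with h | h
      · calc (‖Y₁‖ + ‖Y₂‖) ^ κ ≤ (2 * ‖Y₂‖) ^ κ :=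
              Real.rpow_le_rpow (by positivity) (by linarith) hκ0.le
          _ = 2 ^ κ * ‖Y₂‖ ^ κ := Real.mul_rpow (by norm_num) (norm_nonneg _)
          _ ≤ _ := by
            refine mul_le_mul_of_nonneg_left ?_ (by positivity)
            have : 0 ≤ ‖Y₁‖ ^ κ := by positivity
            linarith
      · calc (‖Y₁‖ + ‖Y₂‖) ^ κ ≤ (2 * ‖Y₁‖) ^ κ :=
              Real.rpow_le_rpow (by positivity) (by linarith) hκ0.le
          _ = 2 ^ κ * ‖Y₁‖ ^ κ := Real.mul_rpow (by norm_num) (norm_nonneg _)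
          _ ≤ _ := by
            refine mul_le_mul_of_nonneg_left ?_ (by positivity)
            have : 0 ≤ ‖Y₂‖ ^ κ := by positivity
            linarith
    calc ‖a₁ Y₁ + a₂ Y₂‖ ^ κ ≤ (‖Y₁‖ + ‖Y₂‖) ^ κ := Real.rpow_le_rpow (norm_nonneg _) q₃ hκ0.le
      _ ≤ 2 ^ κ * (‖Y₁‖ ^ κ + ‖Y₂‖ ^ κ) := q₄
      _ ≤ 2 ^ κ * (C₁ * (∫ z, ‖y z‖ ^ κ ∂l) + C₂ * ∫ z, ‖y z‖ ^ κ ∂l) := by gcongr
      _ = 2 ^ κ * (C₁ + C₂) * ∫ z, ‖y z‖ ^ κ ∂l := by ring

omit [CompleteSpace F] in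
/-- the trivial system -/
theorem intgK_id {M : ℂ → (F →L[ℂ] F)} {κ : ℝ} (hκ : 1 < κ)
    (hMc : ContinuousOn M U) {c : ℂ} {R : ℝ} (hR : 0 < R)
    (hUR : closedBall c R ⊆ U) (l : Measure ℂ) [IsFiniteMeasureOnCompacts l] :
    IntgK κ (1 : F →L[ℂ] F) M (ball c R) l := by
  have hκ0 : 0 < κ := by linarith
  have hlB : l (ball c R) ≠ ∞ :=
    (lt_of_le_of_lt (measure_mono ball_subset_closedBall) (isCompact_closedBall c R).measure_lt_top).ne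
  obtain ⟨BM, hBM⟩ : ∃ B : ℝ, ∀ z ∈ closedBall c R, ‖M z‖ ≤ B :=
    (isCompact_closedBall c R).exists_bound_of_continuousOn (hMc.mono hUR)
  have hBM0 : 0 ≤ BM := (norm_nonneg _).trans (hBM c (mem_closedBall_self hR.le))
  set q : ℝ := κ / (κ - 1) with hq
  have hconj : κ.HolderConjugate q := Real.HolderConjugate.conjExponent hκ
  have hq0 : 0 < q := hconj.symm.pos
  refine ⟨(BM * (l.real (ball c R)) ^ (1 / q)) ^ κ, by positivity, fun y b hy hb h0 => ?_⟩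
  refine ⟨∫ z, M z (y z) ∂l, rfl, ?_⟩
  have e1 : ‖∫ z, M z (y z) ∂l‖ₑ ≤ ENNReal.ofReal BM * ((∫⁻ z, ‖y z‖ₑ ^ κ ∂l) ^ (1 / κ) *
      (l (ball c R)) ^ (1 / q)) := by
    calc ‖∫ z, M z (y z) ∂l‖ₑ ≤ ∫⁻ z, ‖M z (y z)‖ₑ ∂l := enorm_integral_le_lintegral_enorm _
      _ ≤ ∫⁻ z, ENNReal.ofReal BM * (‖y z‖ₑ * (ball c R).indicator 1 z) ∂l := by
          refine lintegral_mono fun z => ?_
          by_cases hz : z ∈ ball c R
          · rw [indicator_of_mem hz, Pi.one_apply, mul_one]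
            refine ((M z).le_opENorm _).trans (mul_le_mul' ?_ le_rfl)
            rw [← ofReal_norm]
            exact ENNReal.ofReal_le_ofReal (hBM z (ball_subset_closedBall hz))
          · rw [h0 z hz]
            simp
      _ = ENNReal.ofReal BM * ∫⁻ z, ‖y z‖ₑ * (ball c R).indicator 1 z ∂l := by
          refine lintegral_const_mul _ ?_
          exact hy.enorm.mul (measurable_one.indicator measurableSet_ball)
      _ ≤ ENNReal.ofReal BM * ((∫⁻ z, ‖y z‖ₑ ^ κ ∂l) ^ (1 / κ) *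
          (∫⁻ z, ((ball c R).indicator 1 z) ^ q ∂l) ^ (1 / q)) := by
          gcongr
          exact ENNReal.lintegral_mul_le_Lp_mul_Lq l hconj hy.enorm.aemeasurable
            (measurable_one.indicator measurableSet_ball).aemeasurable
      _ = _ := by
          congr 3
          have e2 : ∀ z, ((ball c R).indicator 1 z : ℝ≥0∞) ^ q = (ball c R).indicator 1 z := by
            intro z
            by_cases hz : z ∈ ball c R
            · rw [indicator_of_mem hz, Pi.one_apply, ENNReal.one_rpow]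
            · rw [indicator_of_notMem hz, ENNReal.zero_rpow_of_pos hq0]
          simp_rw [e2]
          rw [lintegral_indicator_one measurableSet_ball]
  have e3 := ENNReal.rpow_le_rpow e1 hκ0.le
  rw [int_rpow l hlB hκ0 hy hb h0] at e3
  have hI0 : 0 ≤ ∫ z, ‖y z‖ ^ κ ∂l := integral_nonneg fun z => by positivity
  have e4 : (ENNReal.ofReal BM * ((ENNReal.ofReal (∫ z, ‖y z‖ ^ κ ∂l)) ^ (1 / κ) *
      (l (ball c R)) ^ (1 / q))) ^ κ = ENNReal.ofReal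
      ((BM * (l.real (ball c R)) ^ (1 / q)) ^ κ * ∫ z, ‖y z‖ ^ κ ∂l) := by
    have e5 : l (ball c R) = ENNReal.ofReal (l.real (ball c R)) := by
      rw [measureReal_def, ENNReal.ofReal_toReal hlB]
    rw [e5, ENNReal.ofReal_rpow_of_nonneg measureReal_nonneg (by positivity),
      ENNReal.ofReal_rpow_of_nonneg hI0 (by positivity), ← ENNReal.ofReal_mul (by positivity),
      ← ENNReal.ofReal_mul (by positivity), ENNReal.ofReal_rpow_of_nonneg (by positivity) hκ0.le]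
    congr 1
    rw [show BM * ((∫ z, ‖y z‖ ^ κ ∂l) ^ (1 / κ) * l.real (ball c R) ^ (1 / q)) =
      (BM * l.real (ball c R) ^ (1 / q)) * (∫ z, ‖y z‖ ^ κ ∂l) ^ (1 / κ) by ring,
      Real.mul_rpow (by positivity) (by positivity), ← Real.rpow_mul hI0,
      one_div_mul_cancel hκ0.ne', Real.rpow_one]
  rw [e4] at e3
  have e6 := ENNReal.toReal_mono ENNReal.ofReal_ne_top e3
  rw [← ENNReal.toReal_rpow, toReal_enorm, ENNReal.toReal_ofReal (by positivity)] at e6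
  exact e6

end gen

end Pool.Agent.N226.FM
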