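import Pool.Agent.N226.FM.Dual

/-!
# Weakly null sequences concentrated near a point of the spectrum
-/

set_option autoImplicit false

namespace Pool.Agent.N226.FM

open MeasureTheory Set Metric Filter Topology
open scoped ENNReal NNReal
open Pool.Agent.Y271.RO (db ht)
open Pool.Agent.R277.SP (hPOM)

/-- sequences with small blocks are weakly null -/
lemma weak_null {G : Type} [NormedAddCommGroup G] [NormedSpace ℂ G] (e : ℕ → G) {γ : ℝ}
    (hγ : γ < 1)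
    (h : ∀ (I : Finset ℕ) (θ : ℕ → ℂ), (∀ n, ‖θ n‖ ≤ 1) → ‖∑ n ∈ I, θ n • e n‖ ≤ (I.card : ℝ) ^ γ)
    (f : G →L[ℂ] ℂ) : Tendsto (fun n => f (e n)) atTop (𝓝 0) := by
  rw [← Nat.cofinite_eq_atTop, tendsto_zero_iff_norm_tendsto_zero]
  rw [Metric.tendsto_nhds]
  intro ε hε
  rw [Filter.eventually_cofinite]
  by_contra hinf
  have hinf' : {n | ¬ dist ‖f (e n)‖ 0 < ε}.Infinite := hinf
  have key : ∀ N : ℕ, (N : ℝ) * ε ≤ ‖f‖ * (N : ℝ) ^ γ := by
    intro N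
    obtain ⟨I, hI, hIc⟩ := hinf'.exists_subset_card_eq N
    set θ : ℕ → ℂ := fun n => (starRingEnd ℂ) (f (e n)) / (‖f (e n)‖ : ℂ) with hθ
    have hθ1 : ∀ n, ‖θ n‖ ≤ 1 := by
      intro n
      rw [hθ]
      simp only [norm_div, RCLike.norm_conj, Complex.norm_real, norm_norm]
      exact div_self_le_one _
    have h1 := h I θ hθ1
    have h2 : f (∑ n ∈ I, θ n • e n) = ((∑ n ∈ I, ‖f (e n)‖ : ℝ) : ℂ) := by
      rw [map_sum, Complex.ofReal_sum]
      refine Finset.sum_congr rfl fun n hn => ?_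
      rw [map_smul, smul_eq_mul, hθ]
      have hne : ‖f (e n)‖ ≠ 0 := by
        have h3 : ¬ dist ‖f (e n)‖ 0 < ε := hI hn
        rw [dist_zero_right, norm_norm, not_lt] at h3
        linarith
      have hne' : (‖f (e n)‖ : ℂ) ≠ 0 := by exact_mod_cast hne
      simp only
      rw [div_mul_eq_mul_div, div_eq_iff hne', mul_comm ((starRingEnd ℂ) (f (e n))), Complex.mul_conj,
        Complex.normSq_eq_norm_sq]
      push_cast
      ring
    have h3 : (N : ℝ) * ε ≤ ∑ n ∈ I, ‖f (e n)‖ := by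
      rw [← hIc]
      calc (I.card : ℝ) * ε = ∑ _n ∈ I, ε := by rw [Finset.sum_const, nsmul_eq_mul]
        _ ≤ _ := Finset.sum_le_sum fun n hn => by
          have h3 : ¬ dist ‖f (e n)‖ 0 < ε := hI hn
          rw [dist_zero_right, norm_norm, not_lt] at h3
          exact h3
    have h4 : ∑ n ∈ I, ‖f (e n)‖ = ‖f (∑ n ∈ I, θ n • e n)‖ := by
      rw [h2, Complex.norm_real, Real.norm_of_nonneg (Finset.sum_nonneg fun n _ => norm_nonneg _)]
    rw [h4] at h3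
    refine h3.trans ((f.le_opNorm _).trans ?_)
    rw [← hIc]
    exact mul_le_mul_of_nonneg_left h1 (norm_nonneg _)
  have hlim : Tendsto (fun N : ℕ => (N : ℝ) ^ (1 - γ)) atTop atTop :=
    (tendsto_rpow_atTop (by linarith)).comp tendsto_natCast_atTop_atTop
  obtain ⟨N, hN, hN1⟩ := ((hlim.eventually_gt_atTop (‖f‖ / ε)).and (eventually_ge_atTop 1)).exists
  have hNpos : (0 : ℝ) < N := by exact_mod_cast hN1
  have h5 := key N
  rw [Real.rpow_sub hNpos, Real.rpow_one, div_lt_div_iff₀ hε (Real.rpow_pos_of_pos hNpos _)] at hN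
  linarith

/-- disjoint sets of positive measure near a point of the support -/
lemma exists_discs (ν : Measure ℂ) [IsFiniteMeasure ν] {z₀ : ℂ} (h0 : ν {z₀} = 0)
    (hz : z₀ ∈ ν.support) {s : ℝ} (hs : 0 < s) :
    ∃ D : ℕ → Set ℂ, (∀ n, MeasurableSet (D n)) ∧ Pairwise (fun m n => Disjoint (D m) (D n)) ∧
      (∀ n, D n ⊆ ball z₀ s) ∧ ∀ n, ν (D n) ≠ 0 := by
  have hpos : ∀ ρ : ℝ, 0 < ρ → 0 < ν (ball z₀ ρ) := fun ρ hρ =>
    (Measure.mem_support_iff_forall z₀).1 hz _ (ball_mem_nhds z₀ hρ)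
  have hstep : ∀ ρ : {ρ : ℝ // 0 < ρ}, ∃ ρ' : {ρ : ℝ // 0 < ρ}, ρ'.1 < ρ.1 ∧
      ν (ball z₀ ρ'.1) < ν (ball z₀ ρ.1) := by
    rintro ⟨ρ, hρ⟩
    have h1 : Tendsto (fun n : ℕ => ν (ball z₀ (ρ / (n + 2)))) atTop (𝓝 (ν (⋂ n : ℕ, ball z₀ (ρ / (n + 2))))) := by
      refine tendsto_measure_iInter_atTop (fun n => measurableSet_ball.nullMeasurableSet) ?_
        ⟨0, measure_ne_top ν _⟩
      intro m n hmn
      refine ball_subset_ball ?_
      have : (m : ℝ) ≤ n := by exact_mod_cast hmn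
      gcongr
    have h2 : (⋂ n : ℕ, ball z₀ (ρ / (n + 2))) ⊆ {z₀} := by
      intro z hz
      rw [mem_iInter] at hz
      rw [mem_singleton_iff, ← dist_le_zero]
      have h3 : Tendsto (fun n : ℕ => ρ / ((n : ℝ) + 2)) atTop (𝓝 0) := by
        refine Tendsto.div_atTop tendsto_const_nhds ?_
        exact tendsto_atTop_add_const_right _ _ tendsto_natCast_atTop_atTop
      exact ge_of_tendsto' h3 fun n => (mem_ball.1 (hz n)).le
    rw [measure_mono_null h2 h0] at h1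
    obtain ⟨n, hn⟩ := (h1.eventually_lt_const (hpos ρ hρ)).exists
    refine ⟨⟨ρ / (n + 2), by positivity⟩, ?_, hn⟩
    show ρ / ((n : ℝ) + 2) < ρ
    rw [div_lt_iff₀ (by positivity)]
    have : (0 : ℝ) ≤ n := Nat.cast_nonneg n
    nlinarith
  choose g hg1 hg2 using hstep
  set ρ : ℕ → {ρ : ℝ // 0 < ρ} := fun n => g^[n] ⟨s, hs⟩ with hρ
  have hsucc : ∀ n, ρ (n + 1) = g (ρ n) := fun n => Function.iterate_succ_apply' g n _
  have hanti : StrictAnti (fun n => (ρ n).1) := strictAnti_nat_of_succ_lt fun n => by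
    rw [hsucc]; exact hg1 _
  refine ⟨fun n => ball z₀ (ρ n).1 \ ball z₀ (ρ (n + 1)).1,
    fun n => measurableSet_ball.diff measurableSet_ball, ?_, ?_, ?_⟩
  · have hlt : ∀ m n : ℕ, m < n → Disjoint (ball z₀ (ρ m).1 \ ball z₀ (ρ (m + 1)).1)
        (ball z₀ (ρ n).1 \ ball z₀ (ρ (n + 1)).1) := by
      intro m n hmn
      rw [Set.disjoint_left]
      rintro z ⟨_, h2⟩ ⟨h3, _⟩
      apply h2
      exact ball_subset_ball (hanti.antitone (Nat.succ_le_of_lt hmn)) h3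
    intro m n hmn
    rcases lt_or_gt_of_ne hmn with h | h
    · exact hlt m n h
    · exact (hlt n m h).symm
  · intro n z hz
    exact ball_subset_ball (hanti.antitone (Nat.zero_le n)) hz.1
  · intro n hn
    have h1 : ν (ball z₀ (ρ n).1) ≤ ν (ball z₀ (ρ (n + 1)).1) := by
      calc ν (ball z₀ (ρ n).1) ≤ ν ((ball z₀ (ρ n).1 \ ball z₀ (ρ (n + 1)).1) ∪ ball z₀ (ρ (n + 1)).1) :=
            measure_mono fun z hz => by
              by_cases h : z ∈ ball z₀ (ρ (n + 1)).1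
              · exact Or.inr h
              · exact Or.inl ⟨hz, h⟩
        _ ≤ ν (ball z₀ (ρ n).1 \ ball z₀ (ρ (n + 1)).1) + ν (ball z₀ (ρ (n + 1)).1) :=
            measure_union_le _ _
        _ = ν (ball z₀ (ρ (n + 1)).1) := by rw [hn, zero_add]
    rw [hsucc] at h1
    exact absurd h1 (not_le.2 (hg2 _))

variable {α : Type} [MeasurableSpace α] {μ : Measure α} [IsFiniteMeasure μ] {Z : Type}
  [NormedAddCommGroup Z] [NormedSpace ℂ Z] {q : ℝ≥0∞} [Fact (1 ≤ q)]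

/-- normalized characteristic functions -/
noncomputable def eN (μ : Measure α) [IsFiniteMeasure μ] (q : ℝ≥0∞) [Fact (1 ≤ q)] (y₀ : Z)
    {A : ℕ → Set α} (hA : ∀ n, MeasurableSet (A n)) (n : ℕ) : Lp Z q μ :=
  (((μ.real (A n) ^ (1 / q.toReal))⁻¹ : ℝ) : ℂ) • indicatorConstLp q (hA n) (measure_ne_top μ _) y₀

lemma eN_norm (hqt : q ≠ ∞) {y₀ : Z} (hy : ‖y₀‖ = 1) {A : ℕ → Set α} (hA : ∀ n, MeasurableSet (A n))
    (h0 : ∀ n, μ (A n) ≠ 0) (n : ℕ) : ‖eN μ q y₀ hA n‖ = 1 := by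
  have hq0 : q ≠ 0 := (one_pos.trans_le (Fact.out : (1 : ℝ≥0∞) ≤ q)).ne'
  have hpos : 0 < μ.real (A n) := ENNReal.toReal_pos (h0 n) (measure_ne_top μ _)
  have hpos' : 0 < μ.real (A n) ^ (1 / q.toReal) := Real.rpow_pos_of_pos hpos _
  rw [eN, norm_smul, norm_indicatorConstLp hq0 hqt, hy, one_mul, Complex.norm_real,
    Real.norm_of_nonneg (by positivity), inv_mul_cancel₀ hpos'.ne']

lemma eN_coe {y₀ : Z} {A : ℕ → Set α} (hA : ∀ n, MeasurableSet (A n)) (n : ℕ) :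
    eN μ q y₀ hA n =ᵐ[μ] (A n).indicator
      (fun _ => (((μ.real (A n) ^ (1 / q.toReal))⁻¹ : ℝ) : ℂ) • y₀) := by
  filter_upwards [Lp.coeFn_smul (((μ.real (A n) ^ (1 / q.toReal))⁻¹ : ℝ) : ℂ)
    (indicatorConstLp q (hA n) (measure_ne_top μ _) y₀),
    indicatorConstLp_coeFn (p := q) (hs := hA n) (hμs := measure_ne_top μ _) (c := y₀)] with x h1 h2
  show ((((μ.real (A n) ^ (1 / q.toReal))⁻¹ : ℝ) : ℂ) •
    indicatorConstLp q (hA n) (measure_ne_top μ _) y₀ : Lp Z q μ) x = _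
  rw [h1, Pi.smul_apply, h2]
  by_cases hx : x ∈ A n
  · rw [indicator_of_mem hx, indicator_of_mem hx]
  · rw [indicator_of_notMem hx, indicator_of_notMem hx, smul_zero]

lemma eN_weak (hq1 : 1 < q) (hqt : q ≠ ∞) {y₀ : Z} (hy : ‖y₀‖ = 1) {A : ℕ → Set α}
    (hA : ∀ n, MeasurableSet (A n)) (h0 : ∀ n, μ (A n) ≠ 0)
    (hd : Pairwise (fun m n => Disjoint (A m) (A n))) (f : Lp Z q μ →L[ℂ] ℂ) :
    Tendsto (fun n => f (eN μ q y₀ hA n)) atTop (𝓝 0) := by
  have hq0 : q ≠ 0 := (one_pos.trans hq1).ne'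
  have hκ1 : 1 < q.toReal := by
    rw [← ENNReal.toReal_one]
    exact (ENNReal.toReal_lt_toReal ENNReal.one_ne_top hqt).2 hq1
  have hκ : 0 < q.toReal := by linarith
  refine weak_null _ (γ := 1 / q.toReal) (by rw [div_lt_one hκ]; exact hκ1) (fun I θ hθ => ?_) f
  set κ := q.toReal with hκdef
  have hnorm : ∀ f : Lp Z q μ, ∫⁻ x, ‖f x‖ₑ ^ κ ∂μ = ‖f‖ₑ ^ κ := by
    intro f
    rw [Lp.enorm_def, eLpNorm_eq_lintegral_rpow_enorm_toReal hq0 hqt, ← ENNReal.rpow_mul,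
      one_div_mul_cancel hκ.ne', ENNReal.rpow_one]
  have h1 : ∀ᵐ x ∂μ, ∀ n, (eN μ q y₀ hA n) x = (A n).indicator
      (fun _ => (((μ.real (A n) ^ (1 / q.toReal))⁻¹ : ℝ) : ℂ) • y₀) x :=
    ae_all_iff.2 fun n => eN_coe hA n
  have h2 : ∀ᵐ x ∂μ, ∀ n, (θ n • eN μ q y₀ hA n : Lp Z q μ) x = θ n • (eN μ q y₀ hA n) x :=
    ae_all_iff.2 fun n => Lp.coeFn_smul (θ n) (eN μ q y₀ hA n)
  have h3 : ∫⁻ x, ‖(∑ n ∈ I, θ n • eN μ q y₀ hA n : Lp Z q μ) x‖ₑ ^ κ ∂μ ≤ (I.card : ℝ≥0∞) := by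
    calc ∫⁻ x, ‖(∑ n ∈ I, θ n • eN μ q y₀ hA n : Lp Z q μ) x‖ₑ ^ κ ∂μ
        ≤ ∫⁻ x, ∑ n ∈ I, ‖(eN μ q y₀ hA n) x‖ₑ ^ κ ∂μ := by
          refine lintegral_mono_ae ?_
          filter_upwards [h1, h2, Lp.coeFn_finsetSum I (fun n => (θ n • eN μ q y₀ hA n : Lp Z q μ))]
            with x hx1 hx2 hx3
          rw [hx3, Finset.sum_apply]
          by_cases hx : ∃ m ∈ I, x ∈ A m
          · obtain ⟨m, hm, hxm⟩ := hx
            have hz : ∀ n ∈ I, n ≠ m → (θ n • eN μ q y₀ hA n : Lp Z q μ) x = 0 := by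
              intro n _ hnm
              rw [hx2, hx1, indicator_of_notMem, smul_zero]
              exact fun h => Set.disjoint_left.1 (hd hnm) h hxm
            rw [Finset.sum_eq_single_of_mem m hm hz, hx2, enorm_smul]
            refine le_trans ?_ (Finset.single_le_sum (f := fun n => ‖(eN μ q y₀ hA n) x‖ₑ ^ κ)
              (fun n _ => zero_le) hm)
            refine ENNReal.rpow_le_rpow ?_ hκ.le
            have h5 : ‖θ m‖ₑ ≤ 1 := by
              rw [← ofReal_norm, ← ENNReal.ofReal_one]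
              exact ENNReal.ofReal_le_ofReal (hθ m)
            calc ‖θ m‖ₑ * ‖(eN μ q y₀ hA m) x‖ₑ ≤ 1 * ‖(eN μ q y₀ hA m) x‖ₑ := mul_le_mul' h5 le_rfl
              _ = _ := one_mul _
          · push Not at hx
            rw [Finset.sum_eq_zero, enorm_zero, ENNReal.zero_rpow_of_pos hκ]
            · exact zero_le
            · intro n hn
              rw [hx2, hx1, indicator_of_notMem (hx n hn), smul_zero]
      _ = ∑ n ∈ I, ∫⁻ x, ‖(eN μ q y₀ hA n) x‖ₑ ^ κ ∂μ :=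
          lintegral_finsetSum' _ fun n _ => ((Lp.aestronglyMeasurable _).enorm.pow_const κ)
      _ = ∑ _n ∈ I, (1 : ℝ≥0∞) := by
          refine Finset.sum_congr rfl fun n _ => ?_
          rw [hnorm, ← ofReal_norm, eN_norm hqt hy hA h0, ENNReal.ofReal_one, ENNReal.one_rpow]
      _ = (I.card : ℝ≥0∞) := by rw [Finset.sum_const, nsmul_eq_mul, mul_one]
  rw [hnorm] at h3
  have h4 : ‖(∑ n ∈ I, θ n • eN μ q y₀ hA n : Lp Z q μ)‖ ^ κ ≤ (I.card : ℝ) := by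
    have h5 := ENNReal.toReal_mono (ENNReal.natCast_ne_top _) h3
    rw [← ENNReal.toReal_rpow, toReal_enorm, ENNReal.toReal_natCast] at h5
    exact h5
  have h6 := Real.rpow_le_rpow (by positivity) h4 (z := 1 / κ) (by positivity)
  rw [← Real.rpow_mul (norm_nonneg _), mul_one_div_cancel hκ.ne', Real.rpow_one] at h6
  exact h6

end Pool.Agent.N226.FM
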