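import Pool.Agent.N226.FM.Main

/-!
# The theorem
-/

set_option autoImplicit false

namespace Pool.Agent.N226.FM

open MeasureTheory Set Metric Filter Topology
open scoped ENNReal NNReal
open Pool.Agent.R277.SP (hPOM ad ad_apply2 Ch ann pow_of_rec)
open Pool.Agent.Y283.NK (HasHyp)

variable {α : Type} [MeasurableSpace α] {μ : Measure α} [IsFiniteMeasure μ] {φ : α → ℂ} {U : Set ℂ}
  {τ : ℝ}

/-- the potential of the spectral measure is bounded -/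
lemma den_map (h : Dim μ φ U τ) (hτ : 0 < τ) {a : ℂ} {ρ : ℝ} (hU : closedBall a ρ ⊆ U) :
    Den (μ.map φ) (ball a ρ) τ := by
  obtain ⟨C, hC⟩ := h.dim
  obtain ⟨δ, hδ, hδU⟩ := (isCompact_closedBall a ρ).exists_thickening_subset_open h.opn hU
  refine ⟨C + (ENNReal.ofReal δ) ^ (-τ) * μ univ, ?_, fun w => ?_⟩
  · refine ENNReal.add_ne_top.2 ⟨ENNReal.coe_ne_top, ENNReal.mul_ne_top ?_ (measure_ne_top μ _)⟩
    rw [ENNReal.ofReal_rpow_of_pos hδ]
    exact ENNReal.ofReal_ne_top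
  · have hm : Measurable (fun z : ℂ => ‖z - w‖ₑ ^ (-τ)) := (measurable_id.sub_const _).enorm.pow_const _
    by_cases hw : w ∈ U
    · calc ∫⁻ z in ball a ρ, ‖z - w‖ₑ ^ (-τ) ∂(μ.map φ) ≤ ∫⁻ z, ‖z - w‖ₑ ^ (-τ) ∂(μ.map φ) :=
            lintegral_mono' Measure.restrict_le_self le_rfl
        _ = ∫⁻ x, ‖φ x - w‖ₑ ^ (-τ) ∂μ := lintegral_map hm h.meas
        _ = ∫⁻ x, ‖w - φ x‖ₑ ^ (-τ) ∂μ := by
            refine lintegral_congr fun x => ?_
            rw [← enorm_neg, neg_sub]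
        _ ≤ C := hC w hw
        _ ≤ _ := le_self_add
    · calc ∫⁻ z in ball a ρ, ‖z - w‖ₑ ^ (-τ) ∂(μ.map φ)
          ≤ ∫⁻ z in ball a ρ, (ENNReal.ofReal δ) ^ (-τ) ∂(μ.map φ) := by
            refine setLIntegral_mono' measurableSet_ball fun z hz => ?_
            have h1 : δ ≤ ‖z - w‖ := by
              by_contra hcon
              push Not at hcon
              apply hw
              apply hδU
              rw [Metric.mem_thickening_iff]
              refine ⟨z, ball_subset_closedBall hz, ?_⟩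
              rw [dist_eq_norm, norm_sub_rev]
              exact hcon
            rw [ENNReal.rpow_neg, ENNReal.rpow_neg]
            refine ENNReal.inv_le_inv.2 (ENNReal.rpow_le_rpow ?_ hτ.le)
            rw [← ofReal_norm]
            exact ENNReal.ofReal_le_ofReal h1
        _ = (ENNReal.ofReal δ) ^ (-τ) * (μ.map φ) (ball a ρ) := setLIntegral_const _ _
        _ ≤ (ENNReal.ofReal δ) ^ (-τ) * μ univ := by
            gcongr
            rw [Measure.map_apply h.meas measurableSet_ball]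
            exact measure_mono (subset_univ _)
        _ ≤ _ := le_add_self

/-- exponents -/
lemma exps {r q : ℝ≥0∞} (hr : 1 < r) (hrq : r ≤ q) (hq : q ≠ ∞) (hτ1 : 1 < τ)
    (hgain : q⁻¹ + (ENNReal.ofReal τ)⁻¹ < r⁻¹) :
    ∃ (s : ℝ≥0∞) (q' : ℝ), ENNReal.HolderTriple s q r ∧ 1 ≤ s ∧ s < ENNReal.ofReal τ ∧
      r.toReal < τ ∧ q.toReal.HolderConjugate q' ∧ q' < τ := by
  have hτ0 : 0 < τ := by linarith
  have hrt : r ≠ ∞ := ne_top_of_le_ne_top hq hrq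
  have hr0 : r ≠ 0 := (one_pos.trans hr).ne'
  have hq1 : 1 < q := hr.trans_le hrq
  have hq0 : q ≠ 0 := (one_pos.trans hq1).ne'
  have hqR : 1 < q.toReal := by
    rw [← ENNReal.toReal_one]
    exact (ENNReal.toReal_lt_toReal ENNReal.one_ne_top hq).2 hq1
  have hrR : 1 < r.toReal := by
    rw [← ENNReal.toReal_one]
    exact (ENNReal.toReal_lt_toReal ENNReal.one_ne_top hrt).2 hr
  have hτinv : (ENNReal.ofReal τ)⁻¹ ≠ ∞ := by
    rw [ENNReal.inv_ne_top]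
    exact (ENNReal.ofReal_pos.2 hτ0).ne'
  have hreal : (q.toReal)⁻¹ + τ⁻¹ < (r.toReal)⁻¹ := by
    have h1 := (ENNReal.toReal_lt_toReal (ENNReal.add_ne_top.2 ⟨ENNReal.inv_ne_top.2 hq0, hτinv⟩)
      (ENNReal.inv_ne_top.2 hr0)).2 hgain
    rw [ENNReal.toReal_add (ENNReal.inv_ne_top.2 hq0) hτinv, ENNReal.toReal_inv, ENNReal.toReal_inv,
      ENNReal.toReal_inv, ENNReal.toReal_ofReal hτ0.le] at h1
    exact h1
  refine ⟨(r⁻¹ - q⁻¹)⁻¹, q.toReal / (q.toReal - 1), ⟨?_⟩, ?_, ?_, ?_,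
    Real.HolderConjugate.conjExponent hqR, ?_⟩
  · rw [inv_inv, tsub_add_cancel_of_le (ENNReal.inv_le_inv.2 hrq)]
  · rw [ENNReal.one_le_inv]
    exact tsub_le_self.trans (ENNReal.inv_le_one.2 hr.le)
  · rw [ENNReal.inv_lt_iff_inv_lt]
    exact lt_tsub_iff_left.2 hgain
  · have h1 : τ⁻¹ < (r.toReal)⁻¹ := by
      have : 0 < (q.toReal)⁻¹ := by positivity
      linarith
    exact (inv_lt_inv₀ hτ0 (by linarith)).1 h1
  · have h1 : (r.toReal)⁻¹ < 1 := inv_lt_one_of_one_lt₀ hrR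
    have h2 : (q.toReal)⁻¹ + τ⁻¹ < 1 := hreal.trans h1
    have h3 : 0 < q.toReal - 1 := by linarith
    have h5 : (q.toReal)⁻¹ = 1 / q.toReal := inv_eq_one_div _
    have h4 : τ⁻¹ < (q.toReal - 1) / q.toReal := by
      rw [sub_div, div_self (by positivity), ← inv_eq_one_div]
      linarith
    rw [inv_eq_one_div, div_lt_div_iff₀ hτ0 (by positivity)] at h4
    rw [div_lt_iff₀ h3]
    linarith

variable {Y : Type} [NormedAddCommGroup Y] [NormedSpace ℂ Y] [CompleteSpace Y]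
  {Z : Type} [NormedAddCommGroup Z] [NormedSpace ℂ Z] [CompleteSpace Z] {R : Z →L[ℂ] Z}
  {r p q : ℝ≥0∞} [Fact (1 ≤ r)] [Fact (1 ≤ p)] [Fact (1 ≤ q)]

/-- the two families of vectors with small local spectrum -/
theorem vecs (h : Dim μ φ U τ) (hτ1 : 1 < τ) (hτ2 : τ < 2) (hY : ∃ y₀ : Y, ‖y₀‖ = 1)
    (hR : ∀ z ∈ U, z ∉ spectrum ℂ R) (hr : 1 < r) (hrq : r ≤ q) (hq : q ≠ ∞)
    (hgain : q⁻¹ + (ENNReal.ofReal τ)⁻¹ < r⁻¹)
    {K : (Lp Y r μ × Z) →L[ℂ] (Lp Y q μ × Z)} (hK : IsCompactOperator K)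
    {c : ℂ} (hc : c ∈ U) (hcs : c ∈ (μ.map φ).support) {ε : ℝ} (hε : 0 < ε) :
    (∃ X : ℕ → Lp Y q μ × Z, Ch ((NN Y μ q φ).prodMap R + K ∘L (inc Y μ hrq).prodMap 1) c ε X ∧
      X 0 ≠ 0) ∧
    (∃ X : ℕ → ((Lp Y r μ × Z) →L[ℂ] ℂ),
      Ch (ad ((NN Y μ r φ).prodMap R) + pre K ∘L pre ((inc Y μ hrq).prodMap 1)) c ε X ∧ X 0 ≠ 0) := by
  obtain ⟨s, q', hT, hs1, hsτ, hrτ, hqq', hq'τ⟩ := exps hr hrq hq hτ1 hgain
  haveI : Fact (1 ≤ s) := ⟨hs1⟩
  haveI := hT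
  haveI : IsFiniteMeasure (μ.map φ) := Measure.isFiniteMeasure_map μ φ
  obtain ⟨y₀, hy₀⟩ := hY
  have hτ0 : 0 < τ := by linarith
  have hrt : r ≠ ∞ := ne_top_of_le_ne_top hq hrq
  have hq1 : 1 < q := hr.trans_le hrq
  have hrR : 1 < r.toReal := by
    rw [← ENNReal.toReal_one]
    exact (ENNReal.toReal_lt_toReal ENNReal.one_ne_top hrt).2 hr
  set r' : ℝ≥0∞ := ENNReal.conjExponent r with hr'def
  haveI hconj' : ENNReal.HolderConjugate r r' := inferInstance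
  haveI hconj : ENNReal.HolderConjugate r' r := ENNReal.HolderConjugate.symm
  haveI : Fact (1 ≤ r') := ⟨ENNReal.HolderConjugate.one_le r' r⟩
  have hr't : r' ≠ ∞ := (ENNReal.HolderConjugate.lt_top_iff_one_lt r' r).2 hr |>.ne
  have hr'1 : 1 < r' := (ENNReal.HolderConjugate.lt_top_iff_one_lt r r').1 (lt_top_iff_ne_top.2 hrt)
  have hrr' : r.toReal.HolderConjugate r'.toReal :=
    ENNReal.HolderConjugate.toReal_of_ne_top hrt hr't
  have hq'0 : 0 < q' := hqq'.symm.pos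
  have hball : ∀ (a : ℂ) (ρ : ℝ), (μ.map φ) (ball a ρ) ≠ ∞ := fun a ρ => measure_ne_top _ _
  constructor
  · refine vec (sysPZ h hsτ hτ2 hrq hR) hK (μ.map φ) ?_ ?_ ?_ hc hcs hε
    · intro z₀ hz₀ hzs s₀ hs₀
      exact wkPZ h hsτ hτ2 hq1 hq hrq R hy₀ hz₀ hzs s₀ hs₀
    · intro a ρ hρ hU
      exact intgPZ h hsτ hτ2 hq hrq hR hqq' volume hρ hU (den_vol a ρ hq'0 (by linarith))
    · intro a ρ hρ hU
      exact intgPZ h hsτ hτ2 hq hrq hR hqq' (μ.map φ) hρ hU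
        ((den_map h hτ0 hU).mono (hball a ρ) hq'0 hq'τ.le)
  · refine vec (sysDZ h hsτ hτ2 hrq hrt hR) (schauder hK) (μ.map φ) ?_ ?_ ?_ hc hcs hε
    · intro z₀ hz₀ hzs s₀ hs₀
      exact wkDZ (r' := r') h hsτ hτ2 hr hrt hr'1 hr't hrq R hy₀ hz₀ hzs s₀ hs₀
    · intro a ρ hρ hU
      exact intgDZ h hsτ hτ2 hrt hrq hR hrr' volume hρ hU (den_vol a ρ (by linarith) (by linarith))
    · intro a ρ hρ hU
      exact intgDZ h hsτ hτ2 hrt hrq hR hrr' (μ.map φ) hρ hU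
        ((den_map h hτ0 hU).mono (hball a ρ) (by linarith) hrτ.le)

end Pool.Agent.N226.FM
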