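import Pool.Agent.N226.FM.CaseI
import Pool.Agent.N226.FM.CaseII

/-!
# Vectors with small local spectrum
-/

set_option autoImplicit false

namespace Pool.Agent.N226.FM

open MeasureTheory Set Metric Filter Topology
open scoped ENNReal NNReal
open Pool.Agent.R277.SP (Ch)

section

variable {E : Type} [NormedAddCommGroup E] [NormedSpace ℂ E]

lemma ch_mono {T : E →L[ℂ] E} {c : ℂ} {r r' : ℝ} {X : ℕ → E} (h : Ch T c r X) (h0 : 0 ≤ r)
    (hr : r ≤ r') : Ch T c r' X := by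
  obtain ⟨h1, C, hC⟩ := h
  refine ⟨h1, C, fun k => (hC k).trans ?_⟩
  have hC0 : 0 ≤ C := by
    have := (norm_nonneg _).trans (hC 0)
    simpa using this
  exact mul_le_mul_of_nonneg_left (pow_le_pow_left₀ h0 hr k) hC0

lemma ch_shift {T : E →L[ℂ] E} {c z₀ : ℂ} {ρ ε : ℝ} {X : ℕ → E} (h : Ch T z₀ ρ X) (h0 : 0 ≤ ρ)
    (hε : ‖z₀ - c‖ + ρ ≤ ε) (hX : X 0 ≠ 0) : ∃ X' : ℕ → E, Ch T c ε X' ∧ X' 0 ≠ 0 := by
  obtain ⟨h1, C, hC⟩ := h
  have hC0 : 0 ≤ C := by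
    have := (norm_nonneg _).trans (hC 0)
    simpa using this
  have key : ∀ n k : ℕ, ‖((T - c • (1 : E →L[ℂ] E)) ^ n) (X k)‖ ≤ C * (‖z₀ - c‖ + ρ) ^ n * ρ ^ k := by
    intro n
    induction n with
    | zero =>
      intro k
      rw [pow_zero, pow_zero, mul_one]
      exact hC k
    | succ n ih =>
      intro k
      have e1 : ((T - c • (1 : E →L[ℂ] E)) ^ (n + 1)) (X k) =
          ((T - c • (1 : E →L[ℂ] E)) ^ n) (X (k + 1)) +
          (z₀ - c) • ((T - c • (1 : E →L[ℂ] E)) ^ n) (X k) := by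
        rw [pow_succ]
        show ((T - c • (1 : E →L[ℂ] E)) ^ n) (T (X k) - c • X k) = _
        have e2 : T (X k) - c • X k = X (k + 1) + (z₀ - c) • X k := by
          rw [← h1 k, sub_smul]; abel
        rw [e2, map_add, map_smul]
      rw [e1]
      refine (norm_add_le _ _).trans ?_
      rw [norm_smul]
      have e3 := ih (k + 1)
      have e4 := mul_le_mul_of_nonneg_left (ih k) (norm_nonneg (z₀ - c))
      refine (add_le_add e3 e4).trans (le_of_eq ?_)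
      ring
  refine ⟨fun n => ((T - c • (1 : E →L[ℂ] E)) ^ n) (X 0), ⟨fun n => ?_, C, fun n => ?_⟩, hX⟩
  · show T (((T - c • (1 : E →L[ℂ] E)) ^ n) (X 0)) - c • ((T - c • (1 : E →L[ℂ] E)) ^ n) (X 0) =
      ((T - c • (1 : E →L[ℂ] E)) ^ (n + 1)) (X 0)
    rw [pow_succ']
    rfl
  · refine (key n 0).trans ?_
    rw [pow_zero, mul_one]
    exact mul_le_mul_of_nonneg_left (pow_le_pow_left₀ (by positivity) hε n) hC0

end

variable {E F : Type} [NormedAddCommGroup E] [NormedSpace ℂ E] [CompleteSpace E]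
  [NormedAddCommGroup F] [NormedSpace ℂ F] [CompleteSpace F]

/-- vectors with small local spectrum -/
theorem vec {i : E →L[ℂ] F} {NE : E →L[ℂ] E} {NF : F →L[ℂ] F} {M : ℂ → (E →L[ℂ] F)} {U : Set ℂ}
    (hS : Sys i NE NF M U) {K : F →L[ℂ] E} (hK : IsCompactOperator K) (ν : Measure ℂ) [IsFiniteMeasure ν]
    (hW : ∀ z₀ ∈ U, z₀ ∈ ν.support → ∀ s : ℝ, 0 < s → ∃ (e : ℕ → E) (δ : ℝ), Wk i M U z₀ s e δ)
    (hI : ∀ (a : ℂ) (r : ℝ), 0 < r → closedBall a r ⊆ U → Intg i M (ball a r) volume)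
    (hJ : ∀ (a : ℂ) (r : ℝ), 0 < r → closedBall a r ⊆ U → Intg i M (ball a r) ν)
    {c : ℂ} (hc : c ∈ U) (hcs : c ∈ ν.support) {ε : ℝ} (hε : 0 < ε) :
    ∃ X : ℕ → E, Ch (NE + K ∘L i) c ε X ∧ X 0 ≠ 0 := by
  obtain ⟨r', hr', hrU'⟩ := Metric.nhds_basis_closedBall.mem_iff.1 (hS.opn.mem_nhds hc)
  set r : ℝ := min r' (ε / 2) with hrdef
  have hr : 0 < r := lt_min hr' (by positivity)
  have hrε : r ≤ ε / 2 := min_le_right _ _
  have hrU : closedBall c r ⊆ U := (closedBall_subset_closedBall (min_le_left _ _)).trans hrU'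
  by_cases h : ∃ z₀ ∈ ball c r, z₀ ∈ ν.support ∧ IsUnit ((1 : E →L[ℂ] E) - K ∘L M z₀)
  · obtain ⟨z₀, hz1, hz2, hz3⟩ := h
    have hzU : z₀ ∈ U := hrU (ball_subset_closedBall hz1)
    obtain ⟨ρ, X, hρ, hρr, hX, hX0⟩ := caseI hS hK hzU hz3 (hW z₀ hzU hz2) hI hr
    refine ch_shift hX hρ.le ?_ hX0
    rw [mem_ball, dist_eq_norm] at hz1
    linarith
  · push Not at h
    have hnu : ∀ᵐ z ∂ν, z ∈ ball c r → ¬ IsUnit ((1 : E →L[ℂ] E) - K ∘L M z) := by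
      filter_upwards [Measure.support_mem_ae (μ := ν)] with z hz hzb
      exact h z hzb hz
    obtain ⟨X, hX, hX0⟩ := caseII hS hK hr hrU ν hcs hnu hJ
    exact ⟨X, ch_mono hX hr.le (by linarith), hX0⟩

end Pool.Agent.N226.FM
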